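import Mathlib

/-!
The class `C^{k,1}` on `[0,1]` with quantitative bounds.
-/

set_option autoImplicit false

namespace Pool.Agent.H47R3.WT

open Set MeasureTheory

/-- The unit interval. -/
abbrev U : Set ℝ := Icc (0:ℝ) 1

section Basic

variable {E F : Type*} [NormedAddCommGroup E] [NormedSpace ℝ E]
  [NormedAddCommGroup F] [NormedSpace ℝ F]

/-- `f` is of class `C^{k,1}` on `[0,1]`, with all derivatives up to order `k` bounded by `M`, and
the last one Lipschitz with constant `M`. -/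
def CL : ℕ → ℝ → (ℝ → E) → Prop
  | 0, M, f => (∀ x ∈ U, ‖f x‖ ≤ M) ∧ (∀ x ∈ U, ∀ y ∈ U, ‖f x - f y‖ ≤ M * |x - y|)
  | (k + 1), M, f => (∀ x ∈ U, ‖f x‖ ≤ M) ∧
      ∃ f' : ℝ → E, (∀ x ∈ U, HasDerivWithinAt f (f' x) U x) ∧ CL k M f'

lemma CL.bound {k : ℕ} {M : ℝ} {f : ℝ → E} (h : CL k M f) : ∀ x ∈ U, ‖f x‖ ≤ M := by
  cases k with
  | zero => exact h.1
  | succ k => exact h.1

lemma CL.nonneg {k : ℕ} {M : ℝ} {f : ℝ → E} (h : CL k M f) : 0 ≤ M :=
  (norm_nonneg _).trans (h.bound 0 ⟨le_rfl, zero_le_one⟩)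

lemma lip_of_deriv {S : Set ℝ} (hS : Convex ℝ S) {f f' : ℝ → E} {M : ℝ}
    (h : ∀ x ∈ S, HasDerivWithinAt f (f' x) S x) (hb : ∀ x ∈ S, ‖f' x‖ ≤ M) :
    ∀ x ∈ S, ∀ y ∈ S, ‖f x - f y‖ ≤ M * |x - y| := by
  intro x hx y hy
  have := hS.norm_image_sub_le_of_norm_hasDerivWithin_le h hb hy hx
  rwa [Real.norm_eq_abs] at this

lemma CL.lip {k : ℕ} {M : ℝ} {f : ℝ → E} (h : CL k M f) :
    ∀ x ∈ U, ∀ y ∈ U, ‖f x - f y‖ ≤ M * |x - y| := by
  cases k with
  | zero => exact h.2
  | succ k =>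
    obtain ⟨_, f', h1, h2⟩ := h
    exact lip_of_deriv (convex_Icc 0 1) h1 h2.bound

lemma CL.continuousOn {k : ℕ} {M : ℝ} {f : ℝ → E} (h : CL k M f) : ContinuousOn f U := by
  have hl := h.lip
  have h0 := h.nonneg
  have : LipschitzOnWith ⟨M, h0⟩ f U := by
    apply LipschitzOnWith.of_dist_le_mul
    intro x hx y hy
    rw [dist_eq_norm, Real.dist_eq]
    exact hl x hx y hy
  exact this.continuousOn

lemma CL.mono {k : ℕ} : ∀ {M M' : ℝ} {f : ℝ → E}, CL k M f → M ≤ M' → CL k M' f := by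
  induction k with
  | zero =>
    intro M M' f h hM
    refine ⟨fun x hx => (h.1 x hx).trans hM, fun x hx y hy => (h.2 x hx y hy).trans ?_⟩
    exact mul_le_mul_of_nonneg_right hM (abs_nonneg _)
  | succ k ih =>
    intro M M' f h hM
    obtain ⟨h1, f', h2, h3⟩ := h
    exact ⟨fun x hx => (h1 x hx).trans hM, f', h2, ih h3 hM⟩

lemma CL.pred {k : ℕ} : ∀ {M : ℝ} {f : ℝ → E}, CL (k + 1) M f → CL k M f := by
  induction k with
  | zero =>
    intro M f h
    exact ⟨h.bound, h.lip⟩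
  | succ k ih =>
    intro M f h
    obtain ⟨h1, f', h2, h3⟩ := h
    exact ⟨h1, f', h2, ih h3⟩

lemma CL.of_le {j k : ℕ} {M : ℝ} {f : ℝ → E} (h : CL k M f) (hjk : j ≤ k) : CL j M f := by
  induction k with
  | zero =>
    have : j = 0 := by omega
    subst this
    exact h
  | succ k ih =>
    rcases Nat.lt_or_ge k j with hlt | hge
    · have : j = k + 1 := by omega
      subst this
      exact h
    · exact ih h.pred hge

lemma CL.congr {k : ℕ} : ∀ {M : ℝ} {f g : ℝ → E}, CL k M f → (∀ x ∈ U, g x = f x) → CL k M g := by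
  cases k with
  | zero =>
    intro M f g h hfg
    refine ⟨fun x hx => ?_, fun x hx y hy => ?_⟩
    · rw [hfg x hx]; exact h.1 x hx
    · rw [hfg x hx, hfg y hy]; exact h.2 x hx y hy
  | succ k =>
    intro M f g h hfg
    obtain ⟨h1, f', h2, h3⟩ := h
    refine ⟨fun x hx => ?_, f', fun x hx => ?_, h3⟩
    · rw [hfg x hx]; exact h1 x hx
    · exact (h2 x hx).congr hfg (hfg x hx)

lemma CL.add {k : ℕ} : ∀ {M M' : ℝ} {f g : ℝ → E}, CL k M f → CL k M' g →
    CL k (M + M') (fun t => f t + g t) := by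
  induction k with
  | zero =>
    intro M M' f g hf hg
    refine ⟨fun x hx => (norm_add_le _ _).trans (add_le_add (hf.1 x hx) (hg.1 x hx)), ?_⟩
    intro x hx y hy
    have h1 := hf.2 x hx y hy
    have h2 := hg.2 x hx y hy
    have h3 := norm_add_le (f x - f y) (g x - g y)
    rw [show f x + g x - (f y + g y) = (f x - f y) + (g x - g y) by abel]
    nlinarith
  | succ k ih =>
    intro M M' f g hf hg
    obtain ⟨h1, f', h2, h3⟩ := hf
    obtain ⟨h4, g', h5, h6⟩ := hg
    refine ⟨fun x hx => (norm_add_le _ _).trans (add_le_add (h1 x hx) (h4 x hx)),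
      fun t => f' t + g' t, fun x hx => (h2 x hx).add (h5 x hx), ih h3 h6⟩

lemma CL.clm_apply {k : ℕ} : ∀ {M M' : ℝ} {f : ℝ → (E →L[ℝ] F)} {g : ℝ → E},
    CL k M f → CL k M' g → CL k (2 ^ (k + 1) * (M * M')) (fun t => f t (g t)) := by
  induction k with
  | zero =>
    intro M M' f g hf hg
    have hM := hf.nonneg
    have hM' := hg.nonneg
    refine ⟨?_, ?_⟩
    · intro x hx
      have h1 := (f x).le_opNorm (g x)
      have h2 := mul_le_mul (hf.1 x hx) (hg.1 x hx) (norm_nonneg _) hM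
      have h3 : 0 ≤ M * M' := mul_nonneg hM hM'
      rw [zero_add, pow_one]
      linarith
    · intro x hx y hy
      have e : f x (g x) - f y (g y) = (f x - f y) (g x) + f y (g x - g y) := by
        rw [sub_apply, map_sub]
        abel
      rw [e]
      have h1 := (f x - f y).le_opNorm (g x)
      have h2 := (f y).le_opNorm (g x - g y)
      have h3 : ‖f x - f y‖ * ‖g x‖ ≤ (M * |x - y|) * M' :=
        mul_le_mul (hf.2 x hx y hy) (hg.1 x hx) (norm_nonneg _) (by positivity)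
      have h4 : ‖f y‖ * ‖g x - g y‖ ≤ M * (M' * |x - y|) :=
        mul_le_mul (hf.1 y hy) (hg.2 x hx y hy) (norm_nonneg _) hM
      have h5 := norm_add_le ((f x - f y) (g x)) (f y (g x - g y))
      rw [zero_add, pow_one]
      linarith
  | succ k ih =>
    intro M M' f g hf hg
    have hM := hf.nonneg
    have hM' := hg.nonneg
    have hf0 := hf.pred
    have hg0 := hg.pred
    obtain ⟨h1, f', h2, h3⟩ := hf
    obtain ⟨h4, g', h5, h6⟩ := hg
    refine ⟨?_, fun t => f' t (g t) + f t (g' t), ?_, ?_⟩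
    · intro x hx
      have h7 := (f x).le_opNorm (g x)
      have h8 := mul_le_mul (h1 x hx) (h4 x hx) (norm_nonneg _) hM
      have h9 : 0 ≤ M * M' := mul_nonneg hM hM'
      have h10 : (1:ℝ) ≤ 2 ^ (k + 1 + 1) := one_le_pow₀ (by norm_num)
      nlinarith
    · intro x hx
      exact (h2 x hx).clm_apply (h5 x hx)
    · have h7 := (ih h3 hg0).add (ih hf0 h6)
      refine h7.mono (le_of_eq ?_)
      ring

lemma CL.clm_comp {k : ℕ} (L : E →L[ℝ] F) : ∀ {M : ℝ} {f : ℝ → E}, CL k M f →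
    CL k (‖L‖ * M) (fun t => L (f t)) := by
  induction k with
  | zero =>
    intro M f hf
    refine ⟨fun x hx => (L.le_opNorm _).trans
      (mul_le_mul_of_nonneg_left (hf.1 x hx) (norm_nonneg _)), ?_⟩
    intro x hx y hy
    rw [← map_sub, mul_assoc]
    exact (L.le_opNorm _).trans (mul_le_mul_of_nonneg_left (hf.2 x hx y hy) (norm_nonneg _))
  | succ k ih =>
    intro M f hf
    obtain ⟨h1, f', h2, h3⟩ := hf
    refine ⟨fun x hx => (L.le_opNorm _).trans
      (mul_le_mul_of_nonneg_left (h1 x hx) (norm_nonneg _)), fun t => L (f' t), ?_, ih h3⟩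
    intro x hx
    exact L.hasFDerivAt.comp_hasDerivWithinAt x (h2 x hx)

lemma CL.pi {ι : Type*} [Fintype ι] {k : ℕ} : ∀ {M : ℝ} {f : ℝ → ι → E}, 0 ≤ M →
    (∀ i, CL k M (fun t => f t i)) → CL k M f := by
  induction k with
  | zero =>
    intro M f hM h
    refine ⟨fun x hx => ?_, fun x hx y hy => ?_⟩
    · rw [pi_norm_le_iff_of_nonneg hM]
      exact fun i => (h i).1 x hx
    · rw [pi_norm_le_iff_of_nonneg (by positivity)]
      exact fun i => (h i).2 x hx y hy
  | succ k ih =>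
    intro M f hM h
    have h1 := fun i => (h i).1
    choose f' h2 h3 using fun i => (h i).2
    refine ⟨fun x hx => ?_, fun t i => f' i t, ?_, ih hM h3⟩
    · rw [pi_norm_le_iff_of_nonneg hM]
      exact fun i => h1 i x hx
    · intro x hx
      rw [hasDerivWithinAt_pi]
      exact fun i => h2 i x hx

lemma CL.eval {ι : Type*} [Fintype ι] {k : ℕ} : ∀ {M : ℝ} {f : ℝ → ι → E},
    CL k M f → ∀ i, CL k M (fun t => f t i) := by
  induction k with
  | zero =>
    intro M f h i
    refine ⟨fun x hx => (norm_le_pi_norm _ i).trans (h.1 x hx), fun x hx y hy => ?_⟩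
    exact (norm_le_pi_norm (f x - f y) i).trans (h.2 x hx y hy)
  | succ k ih =>
    intro M f h i
    obtain ⟨h1, f', h2, h3⟩ := h
    refine ⟨fun x hx => (norm_le_pi_norm _ i).trans (h1 x hx), fun t => f' t i, ?_, ih h3 i⟩
    intro x hx
    exact (hasDerivWithinAt_pi.1 (h2 x hx)) i

end Basic

/-! ### Composition with smooth maps -/

section Comp

universe u

lemma CL.comp_contDiff {E : Type u} [NormedAddCommGroup E] [NormedSpace ℝ E] (k : ℕ) :
    ∀ {F : Type u} [NormedAddCommGroup F] [NormedSpace ℝ F] {ψ : E → F} {u K : Set E},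
    IsOpen u → IsCompact K → Convex ℝ K → K ⊆ u → ContDiffOn ℝ (k + 1 : ℕ) ψ u →
    ∀ M : ℝ, ∃ M' : ℝ, ∀ a : ℝ → E, CL k M a → (∀ t ∈ U, a t ∈ K) →
      CL k M' (fun t => ψ (a t)) := by
  induction k with
  | zero =>
    intro F _ _ ψ u K hu hK hKc hKu hψ M
    have hcont : ContinuousOn ψ K := hψ.continuousOn.mono hKu
    obtain ⟨C1, hC1⟩ := hK.exists_bound_of_continuousOn hcont
    have hd : ContinuousOn (fderiv ℝ ψ) K :=
      (hψ.continuousOn_fderiv_of_isOpen hu (by norm_num)).mono hKu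
    obtain ⟨C2, hC2⟩ := hK.exists_bound_of_continuousOn hd
    refine ⟨max C1 (max C2 0 * max M 0), fun a ha haK => ⟨?_, ?_⟩⟩
    · intro x hx
      exact (hC1 _ (haK x hx)).trans (le_max_left _ _)
    · intro x hx y hy
      have h1 : ‖ψ (a x) - ψ (a y)‖ ≤ max C2 0 * ‖a x - a y‖ := by
        apply hKc.norm_image_sub_le_of_norm_hasFDerivWithin_le (f' := fderiv ℝ ψ)
          (fun z hz => ?_) (fun z hz => (hC2 z hz).trans (le_max_left _ _)) (haK y hy) (haK x hx)
        have hz' : DifferentiableAt ℝ ψ z :=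
          (hψ.contDiffAt (hu.mem_nhds (hKu hz))).differentiableAt (by norm_num)
        exact hz'.hasFDerivAt.hasFDerivWithinAt
      have h2 := ha.2 x hx y hy
      have h3 : M * |x - y| ≤ max M 0 * |x - y| :=
        mul_le_mul_of_nonneg_right (le_max_left _ _) (abs_nonneg _)
      calc ‖ψ (a x) - ψ (a y)‖ ≤ max C2 0 * ‖a x - a y‖ := h1
        _ ≤ max C2 0 * (max M 0 * |x - y|) :=
            mul_le_mul_of_nonneg_left (h2.trans h3) (le_max_right _ _)
        _ = (max C2 0 * max M 0) * |x - y| := by ring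
        _ ≤ _ := mul_le_mul_of_nonneg_right (le_max_right _ _) (abs_nonneg _)
  | succ k ih =>
    intro F _ _ ψ u K hu hK hKc hKu hψ M
    have hcont : ContinuousOn ψ K := hψ.continuousOn.mono hKu
    obtain ⟨C1, hC1⟩ := hK.exists_bound_of_continuousOn hcont
    have hdψ : ContDiffOn ℝ (k + 1 : ℕ) (fderiv ℝ ψ) u := by
      apply hψ.fderiv_of_isOpen hu
      norm_cast
    obtain ⟨M1, hM1⟩ := ih hu hK hKc hKu hdψ M
    refine ⟨max C1 (2 ^ (k + 1) * (M1 * M)), fun a ha haK => ?_⟩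
    have ha0 := ha.pred
    obtain ⟨h1, a', h2, h3⟩ := ha
    refine ⟨fun x hx => (hC1 _ (haK x hx)).trans (le_max_left _ _),
      fun t => fderiv ℝ ψ (a t) (a' t), ?_, ?_⟩
    · intro x hx
      have hz' : DifferentiableAt ℝ ψ (a x) :=
        (hψ.contDiffAt (hu.mem_nhds (hKu (haK x hx)))).differentiableAt (by
          exact_mod_cast (Nat.succ_ne_zero (k + 1)))
      exact hz'.hasFDerivAt.comp_hasDerivWithinAt x (h2 x hx)
    · exact ((hM1 a ha0 haK).clm_apply h3).mono (le_max_right _ _)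

end Comp

end Pool.Agent.H47R3.WT
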