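import Mathlib

/-!
A form of the Besicovitch covering theorem on the line.
-/

set_option autoImplicit false

namespace Pool.Agent.H47R3.WT

open Set MeasureTheory Metric

lemma cover_exists : ∃ N : ℕ, ∀ (E : Set ℝ) (r : ℝ → ℝ), (∀ t ∈ E, 0 < r t ∧ r t ≤ 1) →
    ∃ s : Fin N → Set ℝ, (∀ i, s i ⊆ E) ∧ (∀ i, (s i).Countable) ∧
      (∀ i, (s i).PairwiseDisjoint (fun t => ball t (r t))) ∧
      E ⊆ ⋃ i, ⋃ t ∈ s i, ball t (r t) := by
  obtain ⟨N, τ, hτ, hN⟩ := HasBesicovitchCovering.no_satelliteConfig (α := ℝ)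
  refine ⟨N, fun E r hr => ?_⟩
  let q : Besicovitch.BallPackage E ℝ :=
    { c := fun t => t
      r := fun t => r t
      rpos := fun t => (hr t t.2).1
      r_bound := 1
      r_le := fun t => (hr t t.2).2 }
  obtain ⟨s, hs1, hs2⟩ := Besicovitch.exist_disjoint_covering_families hτ hN q
  have hdisj : ∀ i, ((fun t : E => (t : ℝ)) '' (s i)).PairwiseDisjoint
      (fun t => ball t (r t)) := by
    intro i
    rintro _ ⟨x, hx, rfl⟩ _ ⟨y, hy, rfl⟩ hxy
    have hne : x ≠ y := fun h => hxy (by rw [h])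
    exact (hs1 i hx hy hne).mono ball_subset_closedBall ball_subset_closedBall
  refine ⟨fun i => (fun t : E => (t : ℝ)) '' (s i), ?_, ?_, hdisj, ?_⟩
  · rintro i _ ⟨x, _, rfl⟩
    exact x.2
  · intro i
    apply (hdisj i).countable_of_isOpen (fun _ _ => isOpen_ball)
    rintro _ ⟨x, _, rfl⟩
    exact ⟨x, mem_ball_self (hr x x.2).1⟩
  · intro t ht
    have h1 : t ∈ range q.c := ⟨⟨t, ht⟩, rfl⟩
    have h2 := hs2 h1
    simp only [mem_iUnion] at h2 ⊢
    obtain ⟨i, x, hx, hxt⟩ := h2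
    exact ⟨i, x, ⟨x, hx, rfl⟩, hxt⟩

/-- Summation of a bound over a covering. -/
lemma measure_le_of_cover {N : ℕ} {E : Set ℝ} {r : ℝ → ℝ} {s : Fin N → Set ℝ}
    (hc : ∀ i, (s i).Countable) (hE : E ⊆ ⋃ i, ⋃ t ∈ s i, ball t (r t)) {b : ℝ → ENNReal}
    (hb : ∀ i, ∀ t ∈ s i, volume (E ∩ ball t (r t)) ≤ b t) {B : ENNReal}
    (hB : ∀ i, ∑' t : s i, b t ≤ B) : volume E ≤ N * B := by
  have h1 : E ⊆ ⋃ i, ⋃ t ∈ s i, (E ∩ ball t (r t)) := by
    intro x hx
    have h2 := hE hx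
    simp only [mem_iUnion] at h2 ⊢
    obtain ⟨i, t, ht, hxt⟩ := h2
    exact ⟨i, t, ht, hx, hxt⟩
  calc volume E ≤ volume (⋃ i, ⋃ t ∈ s i, (E ∩ ball t (r t))) := measure_mono h1
    _ ≤ ∑ i, volume (⋃ t ∈ s i, (E ∩ ball t (r t))) := measure_iUnion_fintype_le _ _
    _ ≤ ∑ i : Fin N, B := by
        apply Finset.sum_le_sum
        intro i _
        calc volume (⋃ t ∈ s i, (E ∩ ball t (r t)))
            ≤ ∑' t : s i, volume (E ∩ ball (t:ℝ) (r t)) := measure_biUnion_le _ (hc i) _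
          _ ≤ ∑' t : s i, b t := ENNReal.tsum_le_tsum (fun t => hb i t t.2)
          _ ≤ B := hB i
    _ = N * B := by simp

lemma sum_radii_le {S E : Set ℝ} (hE : E ⊆ Icc 0 1) {r : ℝ → ℝ} (hr : ∀ t ∈ E, 0 < r t ∧ r t ≤ 1)
    (hS : S ⊆ E) (hc : S.Countable) (hd : S.PairwiseDisjoint (fun t => ball t (r t))) :
    ∑' t : S, ENNReal.ofReal (r t) ≤ ENNReal.ofReal (3 / 2) := by
  have h1 : ∑' t : S, volume (ball (t:ℝ) (r t)) ≤ volume (Icc (-1:ℝ) 2) := by
    rw [← measure_biUnion hc hd (fun t _ => measurableSet_ball)]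
    apply measure_mono
    intro x hx
    simp only [mem_iUnion] at hx
    obtain ⟨t, ht, hxt⟩ := hx
    have h2 := hE (hS ht)
    have h3 := hr t (hS ht)
    rw [mem_ball, Real.dist_eq, abs_lt] at hxt
    exact ⟨by linarith [h2.1, hxt.1], by linarith [h2.2, hxt.2]⟩
  rw [Real.volume_Icc] at h1
  have h4 : ∀ t : S, volume (ball (t:ℝ) (r t)) = 2 * ENNReal.ofReal (r t) := by
    intro t
    rw [Real.volume_ball, ENNReal.ofReal_mul (by norm_num)]
    simp
  simp_rw [h4] at h1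
  rw [ENNReal.tsum_mul_left] at h1
  have h5 : ENNReal.ofReal (2 - -1) = 2 * ENNReal.ofReal (3 / 2) := by
    rw [show (2:ENNReal) = ENNReal.ofReal 2 by simp, ← ENNReal.ofReal_mul (by norm_num)]
    norm_num
  rw [h5] at h1
  exact (ENNReal.mul_le_mul_iff_right (by norm_num) (by norm_num)).1 h1

end Pool.Agent.H47R3.WT
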