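import Pool.Agent.H47R3.WT.GWeak

/-!
Local factorisation of monic polynomials with uniform bounds.
-/

set_option autoImplicit false

namespace Pool.Agent.H47R3.WT

open Set Polynomial Topology

/-- The polynomial with coefficients `b 0, …, b (m-1)`. -/
noncomputable def lin {m : ℕ} (b : Fin m → ℂ) : ℂ[X] := ∑ i : Fin m, C (b i) * X ^ (i:ℕ)

/-- The monic polynomial `X ^ m + b (m-1) X ^ (m-1) + … + b 0`. -/
noncomputable def mk {m : ℕ} (b : Fin m → ℂ) : ℂ[X] := X ^ m + ∑ i : Fin m, C (b i) * X ^ (i:ℕ)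

lemma mk_eq {m : ℕ} (b : Fin m → ℂ) : mk b = X ^ m + lin b := rfl

lemma lin_degree {m : ℕ} (b : Fin m → ℂ) : (lin b).degree < m := by
  unfold lin
  exact degree_sum_fin_lt b

lemma lin_coeff {m : ℕ} (b : Fin m → ℂ) (i : ℕ) :
    (lin b).coeff i = if h : i < m then b ⟨i, h⟩ else 0 := by
  unfold lin
  rw [finsetSum_coeff]
  simp only [coeff_C_mul, coeff_X_pow]
  split_ifs with h
  · rw [Finset.sum_eq_single ⟨i, h⟩]
    · simp
    · intro j _ hj
      have : i ≠ (j:ℕ) := fun h' => hj (Fin.ext h'.symm)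
      simp [this]
    · simp
  · apply Finset.sum_eq_zero
    intro j _
    have : i ≠ (j:ℕ) := by have := j.2; omega
    simp [this]

lemma mk_coeff {m : ℕ} (b : Fin m → ℂ) (i : ℕ) :
    (mk b).coeff i = (if i = m then 1 else 0) + if h : i < m then b ⟨i, h⟩ else 0 := by
  rw [mk_eq, coeff_add, lin_coeff, coeff_X_pow]

lemma mk_monic {m : ℕ} (b : Fin m → ℂ) : (mk b).Monic := by
  rw [mk_eq]
  exact monic_X_pow_add (lin_degree b)

lemma mk_natDegree {m : ℕ} (b : Fin m → ℂ) : (mk b).natDegree = m := by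
  rw [mk_eq]
  apply natDegree_eq_of_degree_eq_some
  rw [degree_add_eq_left_of_degree_lt, degree_X_pow]
  rw [degree_X_pow]
  exact lin_degree b

lemma mk_of_monic {n : ℕ} {P : ℂ[X]} (hP : P.Monic) (hn : P.natDegree = n) :
    mk (fun i : Fin n => P.coeff i) = P := by
  ext i
  rw [mk_coeff]
  rcases lt_trichotomy i n with h | h | h
  · simp [h, h.ne]
  · subst h
    rw [← hn]
    simp [hP.coeff_natDegree]
  · have h1 : ¬ i < n := by omega
    rw [coeff_eq_zero_of_natDegree_lt (by omega)]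
    simp [h1, h.ne']

lemma lin_inj {m : ℕ} {b : Fin m → ℂ} (h : lin b = 0) : b = 0 := by
  funext i
  have := lin_coeff b i
  rw [h, coeff_zero, dif_pos i.2] at this
  exact this.symm

/-- The multiplication map on coefficient vectors. -/
noncomputable def Psi {m k : ℕ} (n : ℕ) (x : (Fin m → ℂ) × (Fin k → ℂ)) : Fin n → ℂ :=
  fun i => (mk x.1 * mk x.2).coeff i

lemma mk_Psi {m k n : ℕ} (h : m + k = n) (x : (Fin m → ℂ) × (Fin k → ℂ)) :
    mk (Psi n x) = mk x.1 * mk x.2 := by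
  apply mk_of_monic ((mk_monic _).mul (mk_monic _))
  rw [(mk_monic _).natDegree_mul (mk_monic _), mk_natDegree, mk_natDegree, h]

lemma contDiff_coeff {m : ℕ} {E : Type*} [NormedAddCommGroup E] [NormedSpace ℝ E]
    {f : E → (Fin m → ℂ)} {N : WithTop ℕ∞} (hf : ContDiff ℝ N f) (i : ℕ) :
    ContDiff ℝ N (fun x => (mk (f x)).coeff i) := by
  simp only [mk_coeff]
  apply ContDiff.add contDiff_const
  split_ifs with h
  · exact contDiff_pi.1 hf ⟨i, h⟩
  · exact contDiff_const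

lemma Psi_contDiff {m k n : ℕ} {N : WithTop ℕ∞} :
    ContDiff ℝ N (Psi n : (Fin m → ℂ) × (Fin k → ℂ) → (Fin n → ℂ)) := by
  rw [contDiff_pi]
  intro i
  simp only [Psi, coeff_mul]
  apply ContDiff.sum
  intro p _
  exact (contDiff_coeff contDiff_fst _).mul (contDiff_coeff contDiff_snd _)

/-- The derivative of the multiplication map. -/
noncomputable def dPsi {m k : ℕ} (x v : (Fin m → ℂ) × (Fin k → ℂ)) : ℂ[X] :=
  lin v.1 * mk x.2 + mk x.1 * lin v.2

lemma lin_add_smul {m : ℕ} (b β : Fin m → ℂ) (s : ℝ) :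
    mk (b + s • β) = mk b + C (s:ℂ) * lin β := by
  unfold mk lin
  rw [Finset.mul_sum, add_assoc, ← Finset.sum_add_distrib]
  congr 1
  apply Finset.sum_congr rfl
  intro i _
  simp only [Pi.add_apply, Pi.smul_apply, Complex.real_smul, map_add, map_mul]
  ring

lemma Psi_fderiv {m k n : ℕ} (x v : (Fin m → ℂ) × (Fin k → ℂ)) :
    fderiv ℝ (Psi n) x v = fun i : Fin n => (dPsi x v).coeff i := by
  have h1 : HasFDerivAt (Psi n) (fderiv ℝ (Psi n) x) x :=
    (Psi_contDiff (N := 1)).contDiffAt.differentiableAt (by norm_num) |>.hasFDerivAt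
  have h2 : HasDerivAt (fun s : ℝ => Psi n (x + s • v)) (fderiv ℝ (Psi n) x v) 0 :=
    h1.hasLineDerivAt v
  have h3 : ∀ s : ℝ, Psi n (x + s • v) = fun i : Fin n => (mk x.1 * mk x.2).coeff i +
      (s:ℂ) * (dPsi x v).coeff i + (s:ℂ) ^ 2 * (lin v.1 * lin v.2).coeff i := by
    intro s
    funext i
    unfold Psi dPsi
    have e1 : (x + s • v).1 = x.1 + s • v.1 := rfl
    have e2 : (x + s • v).2 = x.2 + s • v.2 := rfl
    rw [e1, e2, lin_add_smul, lin_add_smul]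
    have e3 : (mk x.1 + C (s:ℂ) * lin v.1) * (mk x.2 + C (s:ℂ) * lin v.2) =
        mk x.1 * mk x.2 + C (s:ℂ) * (lin v.1 * mk x.2 + mk x.1 * lin v.2) +
          C ((s:ℂ) ^ 2) * (lin v.1 * lin v.2) := by
      rw [C_pow]
      ring
    rw [e3, coeff_add, coeff_add, coeff_C_mul, coeff_C_mul]
  have h4 : HasDerivAt (fun s : ℝ => Psi n (x + s • v)) (fun i : Fin n => (dPsi x v).coeff i) 0 := by
    simp_rw [h3]
    rw [hasDerivAt_pi]
    intro i
    have e1 : HasDerivAt (fun s : ℝ => (s:ℂ)) 1 0 := by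
      have := (hasDerivAt_id (0:ℝ)).ofReal_comp
      simpa using this
    have e2 := (e1.mul_const ((dPsi x v).coeff i)).const_add ((mk x.1 * mk x.2).coeff i)
    have e3 := (e1.pow 2).mul_const ((lin v.1 * lin v.2).coeff i)
    have e4 : HasDerivAt (fun s : ℝ => (mk x.1 * mk x.2).coeff i +
      (s:ℂ) * (dPsi x v).coeff i + (s:ℂ) ^ 2 * (lin v.1 * lin v.2).coeff i) _ 0 := e2.add e3
    simpa using e4
  exact h2.unique h4

lemma dPsi_degree {m k n : ℕ} (h : m + k = n) (x v : (Fin m → ℂ) × (Fin k → ℂ)) :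
    (dPsi x v).degree < n := by
  unfold dPsi
  refine (degree_add_le _ _).trans_lt (max_lt ?_ ?_)
  · rw [degree_mul, degree_eq_natDegree (mk_monic x.2).ne_zero, mk_natDegree, ← h]
    push_cast
    exact WithBot.add_lt_add_right (by simp) (lin_degree v.1)
  · rw [degree_mul, degree_eq_natDegree (mk_monic x.1).ne_zero, mk_natDegree, ← h]
    push_cast
    exact WithBot.add_lt_add_left (by simp) (lin_degree v.2)

lemma eq_of_coeff_lt {n : ℕ} {P Q : ℂ[X]} (hP : P.degree < n) (hQ : Q.degree < n)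
    (h : ∀ i < n, P.coeff i = Q.coeff i) : P = Q := by
  ext i
  rcases Nat.lt_or_ge i n with hi | hi
  · exact h i hi
  · rw [coeff_eq_zero_of_degree_lt (hP.trans_le (by exact_mod_cast hi)),
      coeff_eq_zero_of_degree_lt (hQ.trans_le (by exact_mod_cast hi))]

lemma Psi_injective {m k n : ℕ} (h : m + k = n) (x : (Fin m → ℂ) × (Fin k → ℂ))
    (hx : IsCoprime (mk x.1) (mk x.2)) : Function.Injective (fderiv ℝ (Psi n) x) := by
  rw [injective_iff_map_eq_zero]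
  intro v hv
  rw [Psi_fderiv] at hv
  have h1 : dPsi x v = 0 := by
    apply eq_of_coeff_lt (dPsi_degree h x v) (by simp)
    intro i hi
    have := congrFun hv ⟨i, hi⟩
    simpa using this
  unfold dPsi at h1
  have h2 : mk x.1 ∣ lin v.1 * mk x.2 := by
    rw [add_eq_zero_iff_eq_neg] at h1
    rw [h1]
    exact (dvd_mul_right _ _).neg_right
  have h3 : mk x.1 ∣ lin v.1 := hx.dvd_of_dvd_mul_right h2
  have h4 : lin v.1 = 0 := by
    apply eq_zero_of_dvd_of_degree_lt h3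
    rw [degree_eq_natDegree (mk_monic x.1).ne_zero, mk_natDegree]
    exact lin_degree v.1
  rw [h4, zero_mul, zero_add] at h1
  have h5 : lin v.2 = 0 := by
    rcases mul_eq_zero.1 h1 with h6 | h6
    · exact absurd h6 (mk_monic x.1).ne_zero
    · exact h6
  exact Prod.ext (lin_inj h4) (lin_inj h5)

lemma no_common_root {m k n : ℕ} (hn : 1 ≤ n) (h : m + k = n) (x : (Fin m → ℂ) × (Fin k → ℂ))
    (hx : Function.Surjective (fderiv ℝ (Psi n) x)) (z : ℂ) :
    ¬ ((mk x.1).eval z = 0 ∧ (mk x.2).eval z = 0) := by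
  rintro ⟨h1, h2⟩
  obtain ⟨v, hv⟩ := hx (fun i : Fin n => (1 : ℂ[X]).coeff i)
  rw [Psi_fderiv] at hv
  have h3 : dPsi x v = 1 := by
    apply eq_of_coeff_lt (dPsi_degree h x v)
    · rw [degree_one]
      exact_mod_cast hn
    · intro i hi
      exact congrFun hv ⟨i, hi⟩
  have h4 := congrArg (eval z) h3
  unfold dPsi at h4
  rw [eval_add, eval_mul, eval_mul, h1, h2, eval_one] at h4
  simp at h4

/-- The local factorisation property, with centre `p` and radius `ρ`. -/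
def Fact (n : ℕ) (p : Fin n → ℂ) (ρ : ℝ) : Prop :=
  ∀ M : ℝ, ∃ M' : ℝ, ∀ a : ℝ → Fin n → ℂ, CL (n - 1) M a → (∀ t ∈ U, a t ∈ Metric.closedBall p ρ) →
    ∃ (m k : ℕ) (b : ℝ → Fin m → ℂ) (c : ℝ → Fin k → ℂ), 1 ≤ m ∧ 1 ≤ k ∧ m + k = n ∧
      CL (n - 1) M' b ∧ CL (n - 1) M' c ∧ ∀ t ∈ U, mk (a t) = mk (b t) * mk (c t) ∧
        ∀ z, ¬ ((mk (b t)).eval z = 0 ∧ (mk (c t)).eval z = 0)

lemma fact_local {m k n : ℕ} (hm : 1 ≤ m) (hk : 1 ≤ k) (h : m + k = n)
    (x : (Fin m → ℂ) × (Fin k → ℂ)) (hx : IsCoprime (mk x.1) (mk x.2)) :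
    ∃ ρ : ℝ, 0 < ρ ∧ Fact n (Psi n x) ρ := by
  have hn : 1 ≤ n := by omega
  have hinj := Psi_injective h x hx
  have hdim : Module.finrank ℝ ((Fin m → ℂ) × (Fin k → ℂ)) = Module.finrank ℝ (Fin n → ℂ) := by
    rw [Module.finrank_prod]
    simp only [Module.finrank_pi_fintype, Complex.finrank_real_complex, Finset.sum_const,
      Finset.card_univ, Fintype.card_fin, smul_eq_mul]
    rw [← h]
    ring
  let e0 : ((Fin m → ℂ) × (Fin k → ℂ)) ≃ₗ[ℝ] (Fin n → ℂ) :=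
    LinearEquiv.ofInjectiveOfFinrankEq
      ((fderiv ℝ (Psi n) x : ((Fin m → ℂ) × (Fin k → ℂ)) →L[ℝ] (Fin n → ℂ)) :
        ((Fin m → ℂ) × (Fin k → ℂ)) →ₗ[ℝ] (Fin n → ℂ)) hinj hdim
  let e : ((Fin m → ℂ) × (Fin k → ℂ)) ≃L[ℝ] (Fin n → ℂ) := e0.toContinuousLinearEquiv
  have he : (e : ((Fin m → ℂ) × (Fin k → ℂ)) →L[ℝ] (Fin n → ℂ)) = fderiv ℝ (Psi n) x := by
    exact ContinuousLinearMap.ext (fun v => rfl)
  have hc : ContDiffAt ℝ ((n - 1 + 1 : ℕ) : WithTop ℕ∞)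
      (Psi n : (Fin m → ℂ) × (Fin k → ℂ) → (Fin n → ℂ)) x := Psi_contDiff.contDiffAt
  have hd : HasFDerivAt (Psi n) (e : ((Fin m → ℂ) × (Fin k → ℂ)) →L[ℝ] (Fin n → ℂ)) x := by
    rw [he]
    exact (Psi_contDiff (N := 1)).contDiffAt.differentiableAt (by norm_num) |>.hasFDerivAt
  have hN0 : ((n - 1 + 1 : ℕ) : WithTop ℕ∞) ≠ 0 := by exact_mod_cast Nat.succ_ne_zero (n - 1)
  set ψ := hc.localInverse hd hN0 with hψ
  have hψ1 : ContDiffAt ℝ ((n - 1 + 1 : ℕ) : WithTop ℕ∞) ψ (Psi n x) := hc.to_localInverse hd hN0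
  have hψ2 : ψ (Psi n x) = x := hc.localInverse_apply_image hd hN0
  have hstrict := hc.hasStrictFDerivAt' hd hN0
  have hψ3 : ∀ᶠ y in 𝓝 (Psi n x), Psi n (ψ y) = y := hstrict.eventually_right_inverse
  have hψ4 : ∀ᶠ y in 𝓝 (Psi n x), ContDiffAt ℝ ((n - 1 + 1 : ℕ) : WithTop ℕ∞) ψ y :=
    hψ1.eventually (by
      intro hcon
      have h1 : ((n - 1 + 1 : ℕ) : WithTop ℕ∞) = ((n - 1 + 1 : ℕ) : ℕ∞) := rfl
      rw [h1] at hcon
      exact ENat.natCast_ne_top _ (by exact_mod_cast hcon))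
  have hψ5 : ∀ᶠ y in 𝓝 (Psi n x), Function.Surjective (fderiv ℝ (Psi n) (ψ y)) := by
    have h1 : ContinuousAt (fun y => fderiv ℝ (Psi n) (ψ y)) (Psi n x) := by
      have h2 : ContinuousAt ψ (Psi n x) := hψ1.continuousAt
      have h3 : Continuous (fderiv ℝ (Psi n : (Fin m → ℂ) × (Fin k → ℂ) → (Fin n → ℂ))) :=
        (Psi_contDiff (N := 1)).continuous_fderiv (by norm_num)
      exact h3.continuousAt.comp h2
    have h4 : range ((↑) : (((Fin m → ℂ) × (Fin k → ℂ)) ≃L[ℝ] (Fin n → ℂ)) →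
        (((Fin m → ℂ) × (Fin k → ℂ)) →L[ℝ] (Fin n → ℂ))) ∈ 𝓝 (fderiv ℝ (Psi n) (ψ (Psi n x))) := by
      rw [hψ2, ← he]
      exact ContinuousLinearEquiv.nhds e
    filter_upwards [h1 h4] with y hy
    obtain ⟨e', he'⟩ := hy
    change (e' : ((Fin m → ℂ) × (Fin k → ℂ)) →L[ℝ] (Fin n → ℂ)) =
      fderiv ℝ (Psi n) (ψ y) at he'
    rw [← he']
    exact e'.surjective
  obtain ⟨R, hR, hball⟩ := Metric.eventually_nhds_iff_ball.1 (hψ3.and (hψ4.and hψ5))
  refine ⟨R / 2, by positivity, fun M => ?_⟩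
  have hcb : Metric.closedBall (Psi n x) (R / 2) ⊆ Metric.ball (Psi n x) R :=
    Metric.closedBall_subset_ball (by linarith)
  obtain ⟨M', hM'⟩ := CL.comp_contDiff (n - 1) (ψ := ψ) (u := Metric.ball (Psi n x) R)
    (K := Metric.closedBall (Psi n x) (R / 2)) Metric.isOpen_ball (isCompact_closedBall _ _)
    (convex_closedBall _ _) hcb (fun y hy => (hball y hy).2.1.contDiffWithinAt) M
  refine ⟨M', fun a ha haB => ?_⟩
  have h1 := hM' a ha haB
  have hM'0 := h1.nonneg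
  refine ⟨m, k, fun t => (ψ (a t)).1, fun t => (ψ (a t)).2, hm, hk, h, ?_, ?_, ?_⟩
  · refine (h1.clm_comp (ContinuousLinearMap.fst ℝ (Fin m → ℂ) (Fin k → ℂ))).mono ?_
    have := ContinuousLinearMap.norm_fst_le ℝ (Fin m → ℂ) (Fin k → ℂ)
    nlinarith
  · refine (h1.clm_comp (ContinuousLinearMap.snd ℝ (Fin m → ℂ) (Fin k → ℂ))).mono ?_
    have := ContinuousLinearMap.norm_snd_le ℝ (Fin m → ℂ) (Fin k → ℂ)
    nlinarith
  · intro t ht
    have h2 := hball (a t) (hcb (haB t ht))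
    constructor
    · rw [← mk_Psi h (ψ (a t)), h2.1]
    · exact no_common_root hn h (ψ (a t)) h2.2.2

/-! ### The size function and the compact set of normalised polynomials -/

/-- The size of a coefficient vector: `max_i |p_i|^{1/(n-i)}`. -/
noncomputable def mu {n : ℕ} (p : Fin n → ℂ) : ℝ := ‖fun i : Fin n => ‖p i‖ ^ ((1:ℝ) / wt i)‖

lemma mu_nonneg {n : ℕ} (p : Fin n → ℂ) : 0 ≤ mu p := norm_nonneg _

lemma mu_le_iff {n : ℕ} {p : Fin n → ℂ} {B : ℝ} (hB : 0 ≤ B) :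
    mu p ≤ B ↔ ∀ i, ‖p i‖ ^ ((1:ℝ) / wt i) ≤ B := by
  unfold mu
  rw [pi_norm_le_iff_of_nonneg hB]
  constructor
  · intro h i
    have := h i
    rwa [Real.norm_of_nonneg (by positivity)] at this
  · intro h i
    rw [Real.norm_of_nonneg (by positivity)]
    exact h i

lemma rpow_le_mu {n : ℕ} (p : Fin n → ℂ) (i : Fin n) : ‖p i‖ ^ ((1:ℝ) / wt i) ≤ mu p :=
  (mu_le_iff (mu_nonneg p)).1 le_rfl i

lemma norm_le_mu_pow {n : ℕ} (p : Fin n → ℂ) (i : Fin n) : ‖p i‖ ≤ mu p ^ (wt i) := by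
  have h1 := rpow_le_mu p i
  have h2 : (‖p i‖ ^ ((1:ℝ) / wt i)) ^ (wt i) = ‖p i‖ := by
    rw [← Real.rpow_natCast, ← Real.rpow_mul (norm_nonneg _)]
    have : (1:ℝ) / wt i * wt i = 1 := by
      have : (wt i : ℝ) ≠ 0 := by exact_mod_cast (Nat.one_le_iff_ne_zero.1 (wt_pos i))
      field_simp
    rw [this, Real.rpow_one]
  rw [← h2]
  exact pow_le_pow_left₀ (by positivity) h1 _

lemma mu_le_of_norm {n : ℕ} {p : Fin n → ℂ} {B : ℝ} (hB : 0 ≤ B)
    (h : ∀ i, ‖p i‖ ≤ B ^ (wt i)) : mu p ≤ B := by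
  rw [mu_le_iff hB]
  intro i
  have h1 := Real.rpow_le_rpow (z := (1:ℝ) / wt i) (norm_nonneg _) (h i) (by positivity)
  refine h1.trans (le_of_eq ?_)
  rw [← Real.rpow_natCast, ← Real.rpow_mul hB]
  have : (wt i : ℝ) * ((1:ℝ) / wt i) = 1 := by
    have : (wt i : ℝ) ≠ 0 := by exact_mod_cast (Nat.one_le_iff_ne_zero.1 (wt_pos i))
    field_simp
  rw [this, Real.rpow_one]

lemma mu_continuous {n : ℕ} : Continuous (mu : (Fin n → ℂ) → ℝ) := by
  unfold mu
  apply Continuous.norm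
  apply continuous_pi
  intro i
  apply Continuous.rpow_const (continuous_apply i).norm
  intro _
  right
  positivity

lemma eq_zero_of_mu {n : ℕ} {p : Fin n → ℂ} (h : mu p = 0) : p = 0 := by
  funext i
  have h1 := norm_le_mu_pow p i
  rw [h, zero_pow (by have := wt_pos i; omega)] at h1
  exact norm_le_zero_iff.1 h1

/-- The set of normalised polynomials. -/
def KK (n : ℕ) : Set (Fin n → ℂ) := {p | mu p = 1 ∧ ∀ i : Fin n, (i:ℕ) + 1 = n → p i = 0}

lemma KK_compact (n : ℕ) : IsCompact (KK n) := by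
  apply Metric.isCompact_of_isClosed_isBounded
  · have h1 : IsClosed {p : Fin n → ℂ | mu p = 1} := isClosed_eq mu_continuous continuous_const
    have h2 : IsClosed {p : Fin n → ℂ | ∀ i : Fin n, (i:ℕ) + 1 = n → p i = 0} := by
      have : {p : Fin n → ℂ | ∀ i : Fin n, (i:ℕ) + 1 = n → p i = 0} =
          ⋂ i : Fin n, ⋂ _ : (i:ℕ) + 1 = n, {p : Fin n → ℂ | p i = 0} := by
        ext p
        simp
      rw [this]
      exact isClosed_iInter (fun i => isClosed_iInter (fun _ =>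
        isClosed_eq (continuous_apply i) continuous_const))
    exact h1.inter h2
  · rw [isBounded_iff_forall_norm_le]
    refine ⟨1, fun p hp => ?_⟩
    rw [pi_norm_le_iff_of_nonneg zero_le_one]
    intro i
    have := norm_le_mu_pow p i
    rwa [hp.1, one_pow] at this

lemma fact_of_mem_KK {n : ℕ} (hn : 2 ≤ n) {p : Fin n → ℂ} (hp : p ∈ KK n) :
    ∃ ρ : ℝ, 0 < ρ ∧ Fact n p ρ := by
  have hmonic := mk_monic p
  have hdeg := mk_natDegree p
  obtain ⟨α, hα⟩ : ∃ α, (mk p).IsRoot α := by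
    apply IsAlgClosed.exists_root
    rw [degree_eq_natDegree hmonic.ne_zero, hdeg]
    exact_mod_cast (by omega : n ≠ 0)
  obtain ⟨Q, hQ1, hQ2⟩ := exists_eq_pow_rootMultiplicity_mul_and_not_dvd (mk p) hmonic.ne_zero α
  set m := rootMultiplicity α (mk p) with hm
  have hm1 : 1 ≤ m := (rootMultiplicity_pos hmonic.ne_zero).2 hα
  have hX : ((X - C α) ^ m : ℂ[X]).Monic := (monic_X_sub_C α).pow m
  have hQmonic : Q.Monic := hX.of_mul_monic_left (by rw [← hQ1]; exact hmonic)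
  have hXdeg : ((X - C α) ^ m : ℂ[X]).natDegree = m := by
    rw [(monic_X_sub_C α).natDegree_pow, natDegree_X_sub_C, mul_one]
  have hsum : m + Q.natDegree = n := by
    have := congrArg natDegree hQ1
    rw [hdeg, hX.natDegree_mul hQmonic, hXdeg] at this
    exact this.symm
  have hk1 : 1 ≤ Q.natDegree := by
    by_contra hcon
    have hQ0 : Q.natDegree = 0 := by omega
    have hQ1' : Q = 1 := eq_one_of_monic_natDegree_zero hQmonic hQ0
    rw [hQ1', mul_one] at hQ1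
    have hmn : m = n := by omega
    rw [hmn] at hQ1
    -- the coefficient of `X ^ (n-1)` is `- n α`
    have h1 : (mk p).coeff (n - 1) = 0 := by
      rw [mk_coeff, dif_pos (by omega : n - 1 < n), if_neg (by omega : n - 1 ≠ n), zero_add]
      exact hp.2 ⟨n - 1, by omega⟩ (by simp; omega)
    rw [hQ1, sub_eq_add_neg, ← C_neg, coeff_X_add_C_pow] at h1
    have h2 : n - (n - 1) = 1 := by omega
    rw [h2, pow_one] at h1
    have h3 : ((n.choose (n - 1) : ℕ) : ℂ) ≠ 0 := by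
      have := Nat.choose_pos (n := n) (k := n - 1) (by omega)
      exact_mod_cast this.ne'
    have h4 : α = 0 := by
      rcases mul_eq_zero.1 h1 with h5 | h5
      · exact neg_eq_zero.1 h5
      · exact absurd h5 h3
    rw [h4, C_0, sub_zero, mk_eq] at hQ1
    have h5 : lin p = 0 := by
      rw [add_eq_left] at hQ1
      exact hQ1
    have h6 := lin_inj h5
    have h7 := hp.1
    rw [h6] at h7
    have h8 : mu (0 : Fin n → ℂ) = 0 := by
      apply le_antisymm _ (mu_nonneg _)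
      rw [mu_le_iff le_rfl]
      intro i
      have : (1:ℝ) / wt i ≠ 0 := by
        have : (0:ℝ) < wt i := by exact_mod_cast wt_pos i
        positivity
      rw [Pi.zero_apply, norm_zero, Real.zero_rpow this]
    rw [h8] at h7
    exact zero_ne_one h7
  -- apply the local factorisation
  set b0 : Fin m → ℂ := fun i => ((X - C α) ^ m : ℂ[X]).coeff i with hb0
  set c0 : Fin Q.natDegree → ℂ := fun i => Q.coeff i with hc0
  have hb : mk b0 = (X - C α) ^ m := mk_of_monic hX hXdeg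
  have hc : mk c0 = Q := mk_of_monic hQmonic rfl
  have hcop : IsCoprime (mk b0) (mk c0) := by
    rw [hb, hc]
    apply IsCoprime.pow_left
    exact (irreducible_X_sub_C α).coprime_iff_not_dvd.2 hQ2
  obtain ⟨ρ, hρ, hF⟩ := fact_local hm1 hk1 hsum (b0, c0) hcop
  have hpe : Psi n (b0, c0) = p := by
    funext i
    unfold Psi
    simp only
    rw [hb, hc, ← hQ1, mk_coeff, dif_pos i.2, if_neg i.2.ne, zero_add]
  rw [hpe] at hF
  exact ⟨ρ, hρ, hF⟩

/-- Uniform factorisation. -/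
theorem fact_uniform {n : ℕ} (hn : 2 ≤ n) : ∃ ρ : ℝ, 0 < ρ ∧ ∀ M : ℝ, ∃ M' : ℝ,
    ∀ a : ℝ → Fin n → ℂ, CL (n - 1) M a → (∃ p ∈ KK n, ∀ t ∈ U, a t ∈ Metric.closedBall p ρ) →
    ∃ (m k : ℕ) (b : ℝ → Fin m → ℂ) (c : ℝ → Fin k → ℂ), 1 ≤ m ∧ 1 ≤ k ∧ m + k = n ∧
      CL (n - 1) M' b ∧ CL (n - 1) M' c ∧ ∀ t ∈ U, mk (a t) = mk (b t) * mk (c t) ∧
        ∀ z, ¬ ((mk (b t)).eval z = 0 ∧ (mk (c t)).eval z = 0) := by
  apply (KK_compact n).induction_on (p := fun S => ∃ ρ : ℝ, 0 < ρ ∧ ∀ M : ℝ, ∃ M' : ℝ,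
    ∀ a : ℝ → Fin n → ℂ, CL (n - 1) M a → (∃ p ∈ S, ∀ t ∈ U, a t ∈ Metric.closedBall p ρ) →
    ∃ (m k : ℕ) (b : ℝ → Fin m → ℂ) (c : ℝ → Fin k → ℂ), 1 ≤ m ∧ 1 ≤ k ∧ m + k = n ∧
      CL (n - 1) M' b ∧ CL (n - 1) M' c ∧ ∀ t ∈ U, mk (a t) = mk (b t) * mk (c t) ∧
        ∀ z, ¬ ((mk (b t)).eval z = 0 ∧ (mk (c t)).eval z = 0))
  · refine ⟨1, one_pos, fun M => ⟨0, fun a _ h => ?_⟩⟩
    obtain ⟨p, hp, _⟩ := h
    exact absurd hp (notMem_empty p)
  · rintro S T hST ⟨ρ, hρ, h⟩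
    refine ⟨ρ, hρ, fun M => ?_⟩
    obtain ⟨M', hM'⟩ := h M
    refine ⟨M', fun a ha hp => hM' a ha ?_⟩
    obtain ⟨p, hp, hpa⟩ := hp
    exact ⟨p, hST hp, hpa⟩
  · rintro S T ⟨ρ1, hρ1, h1⟩ ⟨ρ2, hρ2, h2⟩
    refine ⟨min ρ1 ρ2, lt_min hρ1 hρ2, fun M => ?_⟩
    obtain ⟨M1, hM1⟩ := h1 M
    obtain ⟨M2, hM2⟩ := h2 M
    refine ⟨max M1 M2, fun a ha hp => ?_⟩
    obtain ⟨p, hp, hpa⟩ := hp
    rcases hp with hp | hp
    · obtain ⟨m, k, b, c, e1, e2, e3, e4, e5, e6⟩ := hM1 a ha ⟨p, hp, fun t ht =>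
        Metric.closedBall_subset_closedBall (min_le_left _ _) (hpa t ht)⟩
      exact ⟨m, k, b, c, e1, e2, e3, e4.mono (le_max_left _ _), e5.mono (le_max_left _ _), e6⟩
    · obtain ⟨m, k, b, c, e1, e2, e3, e4, e5, e6⟩ := hM2 a ha ⟨p, hp, fun t ht =>
        Metric.closedBall_subset_closedBall (min_le_right _ _) (hpa t ht)⟩
      exact ⟨m, k, b, c, e1, e2, e3, e4.mono (le_max_right _ _), e5.mono (le_max_right _ _), e6⟩
  · intro p hp
    obtain ⟨ρ, hρ, hF⟩ := fact_of_mem_KK hn hp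
    refine ⟨Metric.ball p (ρ / 2), mem_nhdsWithin_of_mem_nhds (Metric.ball_mem_nhds p (by positivity)),
      ρ / 2, by positivity, fun M => ?_⟩
    obtain ⟨M', hM'⟩ := hF M
    refine ⟨M', fun a ha hq => hM' a ha ?_⟩
    obtain ⟨q, hq, hqa⟩ := hq
    intro t ht
    have h1 := hqa t ht
    rw [Metric.mem_closedBall] at h1 ⊢
    rw [Metric.mem_ball] at hq
    linarith [dist_triangle (a t) q p]

end Pool.Agent.H47R3.WT
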