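import Pool.Agent.H47R3.WT.Step

/-!
From the unit interval to arbitrary intervals.
-/

set_option autoImplicit false

namespace Pool.Agent.H47R3.WT

open Set MeasureTheory Metric

/-- Extension from `[0,l]` to `[0,1]`. -/
lemma CL.extend (k : ℕ) : ∀ {M l : ℝ} {F : ℕ → ℝ → ℂ}, 0 ≤ l → l ≤ 1 →
    (∀ i < k, ∀ x ∈ Icc 0 l, HasDerivWithinAt (F i) (F (i + 1) x) (Icc 0 l) x) →
    (∀ i ≤ k, ∀ x ∈ Icc 0 l, ‖F i x‖ ≤ M) →
    (∀ x ∈ Icc 0 l, ∀ y ∈ Icc 0 l, ‖F k x - F k y‖ ≤ M * |x - y|) →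
    ∃ g : ℝ → ℂ, CL k (((k:ℝ) + 1) * M) g ∧ ∀ x ∈ Icc 0 l, g x = F 0 x := by
  induction k with
  | zero =>
    intro M l F hl0 hl1 _ hb hL
    have hmem : ∀ x ∈ U, min x l ∈ Icc 0 l := fun x hx => ⟨le_min hx.1 hl0, min_le_right _ _⟩
    have hM : 0 ≤ M := (norm_nonneg _).trans (hb 0 le_rfl 0 ⟨le_rfl, hl0⟩)
    refine ⟨fun x => F 0 (min x l), ⟨?_, ?_⟩, ?_⟩
    · intro x hx
      have := hb 0 le_rfl _ (hmem x hx)
      simpa using this
    · intro x hx y hy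
      have h1 := hL _ (hmem x hx) _ (hmem y hy)
      have h2 : |min x l - min y l| ≤ |x - y| := by
        have := abs_min_sub_min_le_max x l y l
        rw [sub_self, abs_zero, max_eq_left (abs_nonneg _)] at this
        exact this
      refine h1.trans ?_
      simp only [Nat.cast_zero, zero_add, one_mul]
      exact mul_le_mul_of_nonneg_left h2 hM
    · intro x hx
      simp only
      rw [min_eq_left hx.2]
  | succ k ih =>
    intro M l F hl0 hl1 hd hb hL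
    have hM : 0 ≤ M := (norm_nonneg _).trans (hb 0 (by omega) 0 ⟨le_rfl, hl0⟩)
    obtain ⟨g', hg', hg'e⟩ := ih (F := fun i => F (i + 1)) hl0 hl1
      (fun i hi x hx => hd (i + 1) (by omega) x hx)
      (fun i hi x hx => hb (i + 1) (by omega) x hx) hL
    set G : ℝ → ℂ := fun t => g' (max 0 (min t 1)) with hG
    have hGc : Continuous G := by
      apply hg'.continuousOn.comp_continuous (by fun_prop)
      intro x
      exact ⟨le_max_left _ _, max_le zero_le_one (min_le_right _ _)⟩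
    have hGe : ∀ t ∈ U, G t = g' t := by
      intro t ht
      simp only [hG]
      rw [min_eq_left ht.2, max_eq_right ht.1]
    set g : ℝ → ℂ := fun t => F 0 0 + ∫ s in (0:ℝ)..t, G s with hg
    have hgd : ∀ t, HasDerivAt g (G t) t := by
      intro t
      exact ((hGc.integral_hasStrictDerivAt 0 t).hasDerivAt).const_add (F 0 0)
    have hgU : ∀ x ∈ U, HasDerivWithinAt g (g' x) U x := by
      intro x hx
      rw [← hGe x hx]
      exact (hgd x).hasDerivWithinAt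
    have hg0 : g 0 = F 0 0 := by
      simp only [hg]
      simp
    have h0U : (0:ℝ) ∈ U := ⟨le_rfl, zero_le_one⟩
    refine ⟨g, ⟨?_, g', hgU, hg'.mono ?_⟩, ?_⟩
    · intro x hx
      have h1 := lip_of_deriv (convex_Icc 0 1) hgU hg'.bound x hx 0 h0U
      have h2 := hb 0 (by omega) 0 ⟨le_rfl, hl0⟩
      have h3 : ‖g x‖ ≤ ‖g 0‖ + ‖g x - g 0‖ := by
        have := norm_add_le (g 0) (g x - g 0)
        simpa using this
      rw [hg0] at h3 h1
      rw [sub_zero, abs_of_nonneg hx.1] at h1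
      have h4 : ((k:ℝ) + 1) * M * x ≤ ((k:ℝ) + 1) * M := by
        have : 0 ≤ ((k:ℝ) + 1) * M := by positivity
        nlinarith [hx.2]
      push_cast
      linarith
    · push_cast
      nlinarith
    · intro x hx
      have hd0 : ∀ y ∈ Icc 0 l, HasDerivWithinAt (fun y => g y - F 0 y) 0 (Icc 0 l) y := by
        intro y hy
        have hyU : y ∈ U := ⟨hy.1, hy.2.trans hl1⟩
        have h1 := (hgd y).hasDerivWithinAt (s := Icc 0 l)
        have h2 := h1.sub (hd 0 (by omega) y hy)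
        rw [hGe y hyU, hg'e y hy, sub_self] at h2
        exact h2
      have h1 := lip_of_deriv (M := 0) (f' := fun _ => 0) (convex_Icc 0 l) hd0
        (fun y _ => by simp) x hx 0 ⟨le_rfl, hl0⟩
      rw [hg0, sub_self, sub_zero, zero_mul] at h1
      exact sub_eq_zero.1 (norm_le_zero_iff.1 h1)

/-- The estimate on intervals of length at most one. -/
theorem short_bound {n : ℕ} (hn : 2 ≤ n) : ∃ C0 : ℝ, 0 ≤ C0 ∧ ∀ x0 x1 R : ℝ, x0 < x1 →
    x1 ≤ x0 + 1 → 0 < R → ∀ A : Fin n → ℕ → ℝ → ℂ,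
    (∀ i, ∀ m < n - 1, ∀ x ∈ Icc x0 x1,
      HasDerivWithinAt (A i m) (A i (m + 1) x) (Icc x0 x1) x) →
    (∀ i, ∀ m ≤ n - 1, ∀ x ∈ Icc x0 x1, ‖A i m x‖ ≤ R ^ (wt i)) →
    (∀ i, ∀ x ∈ Icc x0 x1, ∀ y ∈ Icc x0 x1,
      ‖A i (n - 1) x - A i (n - 1) y‖ ≤ R ^ (wt i) * |x - y|) →
    ∀ lam : ℝ → ℂ, ContinuousOn lam (Ioo x0 x1) →
    (∀ t ∈ Ioo x0 x1, (mk (fun i => A i 0 t)).eval (lam t) = 0) → ∀ s : ℝ, 0 < s →
    volume {t | t ∈ Ioo x0 x1 ∧ s < ‖deriv lam t‖} ≤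
      ENNReal.ofReal (C0 * (s / R) ^ (-((n:ℝ) / (n - 1)))) := by
  have hn' : (2:ℝ) ≤ n := by exact_mod_cast hn
  have hgood : Good n ((n:ℝ) / (n - 1)) := by
    apply good_main n (by omega)
    · apply div_pos <;> linarith
    · have : (n:ℝ) - 1 ≠ 0 := by linarith
      have e : ((n:ℝ) - 1) * ((n:ℝ) / (n - 1)) = n := by field_simp
      exact e.le
  obtain ⟨C0, hC00, hC0⟩ := hgood n
  refine ⟨C0, hC00, ?_⟩
  intro x0 x1 R hx hx1 hR A hAd hAb hAL lam hlam hroot s hs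
  set l : ℝ := x1 - x0 with hl
  have hl0 : 0 ≤ l := by linarith
  have hl1 : l ≤ 1 := by linarith
  have hmem : ∀ y ∈ Icc 0 l, x0 + y ∈ Icc x0 x1 := fun y hy => ⟨by linarith [hy.1], by linarith [hy.2]⟩
  have hmemo : ∀ y ∈ Ioo 0 l, x0 + y ∈ Ioo x0 x1 := fun y hy => ⟨by linarith [hy.1], by linarith [hy.2]⟩
  have hext : ∀ i : Fin n, ∃ g : ℝ → ℂ, CL (n - 1) n g ∧
      ∀ x ∈ Icc 0 l, g x = ((R⁻¹) ^ (wt i) : ℝ) • A i 0 (x0 + x) := by
    intro i
    have hRw : (R⁻¹) ^ (wt i) * R ^ (wt i) = 1 := by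
      rw [← mul_pow, inv_mul_cancel₀ hR.ne', one_pow]
    have hRp : 0 ≤ (R⁻¹) ^ (wt i) := by positivity
    have hF1 : ∀ m < n - 1, ∀ y ∈ Icc 0 l, HasDerivWithinAt
        (fun y => ((R⁻¹) ^ (wt i) : ℝ) • A i m (x0 + y))
        (((R⁻¹) ^ (wt i) : ℝ) • A i (m + 1) (x0 + y)) (Icc 0 l) y := by
      intro m hm y hy
      have h1 := hAd i m hm _ (hmem y hy)
      have h2 : HasDerivWithinAt (fun y : ℝ => x0 + y) 1 (Icc 0 l) y :=
        (hasDerivAt_id y).const_add x0 |>.hasDerivWithinAt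
      have h3 := HasDerivWithinAt.scomp y h1 h2 hmem
      rw [one_smul] at h3
      exact h3.const_smul ((R⁻¹) ^ (wt i) : ℝ)
    have hF2 : ∀ m ≤ n - 1, ∀ y ∈ Icc 0 l, ‖((R⁻¹) ^ (wt i) : ℝ) • A i m (x0 + y)‖ ≤ 1 := by
      intro m hm y hy
      rw [norm_smul, Real.norm_of_nonneg hRp]
      have h1 := mul_le_mul_of_nonneg_left (hAb i m hm _ (hmem y hy)) hRp
      rwa [hRw] at h1
    have hF3 : ∀ y ∈ Icc 0 l, ∀ z ∈ Icc 0 l, ‖((R⁻¹) ^ (wt i) : ℝ) • A i (n - 1) (x0 + y) -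
        ((R⁻¹) ^ (wt i) : ℝ) • A i (n - 1) (x0 + z)‖ ≤ 1 * |y - z| := by
      intro y hy z hz
      rw [← smul_sub, norm_smul, Real.norm_of_nonneg hRp]
      have h1 := mul_le_mul_of_nonneg_left (hAL i _ (hmem y hy) _ (hmem z hz)) hRp
      rw [← mul_assoc, hRw, show x0 + y - (x0 + z) = y - z by ring] at h1
      exact h1
    obtain ⟨g, hg1, hg2⟩ := CL.extend (n - 1) (M := 1)
      (F := fun m y => ((R⁻¹) ^ (wt i) : ℝ) • A i m (x0 + y)) hl0 hl1 hF1 hF2 hF3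
    refine ⟨g, ?_, hg2⟩
    have e : (((n - 1 : ℕ) : ℝ) + 1) * 1 = n := by
      rw [Nat.cast_sub (by omega)]
      push_cast
      ring
    rwa [e] at hg1
  choose g hg1 hg2 using hext
  have hroot' : ∀ t ∈ Ioo 0 l, (mk (fun i => g i t)).eval (((R⁻¹ : ℝ) : ℂ) * lam (x0 + t)) = 0 := by
    intro t ht
    have h1 := hroot _ (hmemo t ht)
    rw [mk_eval] at h1 ⊢
    have h2 : (((R⁻¹ : ℝ) : ℂ) * lam (x0 + t)) ^ n +
        ∑ i : Fin n, g i t * (((R⁻¹ : ℝ) : ℂ) * lam (x0 + t)) ^ (i:ℕ) =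
        ((R⁻¹ : ℝ) : ℂ) ^ n * (lam (x0 + t) ^ n + ∑ i : Fin n, A i 0 (x0 + t) *
          lam (x0 + t) ^ (i:ℕ)) := by
      rw [mul_add, Finset.mul_sum, mul_pow]
      congr 1
      apply Finset.sum_congr rfl
      intro i _
      rw [hg2 i t (Ioo_subset_Icc_self ht), Complex.real_smul]
      have e1 : ((R⁻¹ : ℝ) : ℂ) ^ n = ((R⁻¹ : ℝ) : ℂ) ^ (wt i) * ((R⁻¹ : ℝ) : ℂ) ^ (i:ℕ) := by
        rw [← pow_add]
        congr 1
        have := i.2
        unfold wt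
        omega
      rw [e1, mul_pow, Complex.ofReal_pow]
      ring
    rw [h2, h1, mul_zero]
  have hmain := hC0 (fun t i => g i t) (CL.pi (by positivity) hg1) 0 l le_rfl hl1
    (fun t => ((R⁻¹ : ℝ) : ℂ) * lam (x0 + t))
    (continuousOn_const.mul (hlam.comp (by fun_prop) hmemo)) hroot' (s / R) (by positivity)
  rw [volume_scale (x0 := x0) one_pos, ENNReal.ofReal_one, one_mul]
  refine le_trans (measure_mono ?_) hmain
  rintro τ ⟨h1, h2⟩
  rw [one_mul] at h1 h2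
  refine ⟨⟨by linarith [h1.1], by linarith [h1.2]⟩, ?_⟩
  have hdiff : DifferentiableAt ℝ lam (x0 + τ) := by
    by_contra hcon
    rw [deriv_zero_of_not_differentiableAt hcon, norm_zero] at h2
    linarith
  have h4 : HasDerivAt (fun τ : ℝ => x0 + τ) 1 τ := (hasDerivAt_id τ).const_add x0
  have h5 : HasDerivAt (fun τ : ℝ => ((R⁻¹ : ℝ) : ℂ) * lam (x0 + τ))
      (((R⁻¹ : ℝ) : ℂ) * ((1:ℝ) • deriv lam (x0 + τ))) τ :=
    (HasDerivAt.scomp τ hdiff.hasDerivAt h4).const_mul _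
  rw [h5.deriv, one_smul, norm_mul, Complex.norm_real, Real.norm_of_nonneg (by positivity),
    div_eq_inv_mul]
  exact mul_lt_mul_of_pos_left h2 (by positivity)

/-- The estimate on arbitrary intervals. -/
theorem long_bound {n : ℕ} (hn : 2 ≤ n) : ∃ C0 : ℝ, 0 ≤ C0 ∧ ∀ α β R : ℝ, α < β →
    0 < R → ∀ A : Fin n → ℕ → ℝ → ℂ,
    (∀ i, ∀ m < n - 1, ∀ x ∈ Icc α β,
      HasDerivWithinAt (A i m) (A i (m + 1) x) (Icc α β) x) →
    (∀ i, ∀ m ≤ n - 1, ∀ x ∈ Icc α β, ‖A i m x‖ ≤ R ^ (wt i)) →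
    (∀ i, ∀ x ∈ Icc α β, ∀ y ∈ Icc α β,
      ‖A i (n - 1) x - A i (n - 1) y‖ ≤ R ^ (wt i) * |x - y|) →
    ∀ lam : ℝ → ℂ, ContinuousOn lam (Ioo α β) →
    (∀ t ∈ Ioo α β, (mk (fun i => A i 0 t)).eval (lam t) = 0) → ∀ s : ℝ, 0 < s →
    volume {t | t ∈ Ioo α β ∧ s < ‖deriv lam t‖} ≤
      ENNReal.ofReal (max 1 (β - α) * (C0 * (s / R) ^ (-((n:ℝ) / (n - 1))))) := by
  obtain ⟨C0, hC00, hC0⟩ := short_bound hn
  refine ⟨2 * C0, by positivity, ?_⟩
  intro α β R hαβ hR A hAd hAb hAL lam hlam hroot s hs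
  set N : ℕ := ⌈β - α⌉₊ with hN
  have hN0 : 0 < N := Nat.ceil_pos.2 (by linarith)
  have hN0' : (0:ℝ) < N := by exact_mod_cast hN0
  have hNle : (N:ℝ) < (β - α) + 1 := Nat.ceil_lt_add_one (by linarith)
  have hNge : β - α ≤ N := Nat.le_ceil _
  set h : ℝ := (β - α) / N with hh
  have hh0 : 0 < h := div_pos (by linarith) hN0'
  have hh1 : h ≤ 1 := by
    rw [hh, div_le_one hN0']
    exact hNge
  have hhN : N * h = β - α := by
    rw [hh]
    field_simp
  set P : ℕ → ℝ := fun k => α + k * h with hP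
  have hP1 : ∀ k, P (k + 1) = P k + h := by
    intro k
    simp only [hP]
    push_cast
    ring
  have hPα : ∀ k, α ≤ P k := by
    intro k
    simp only [hP]
    have : (0:ℝ) ≤ k * h := by positivity
    linarith
  have hPβ : ∀ k, k ≤ N → P k ≤ β := by
    intro k hk
    simp only [hP]
    have h1 : (k:ℝ) ≤ N := by exact_mod_cast hk
    have h2 : (k:ℝ) * h ≤ N * h := mul_le_mul_of_nonneg_right h1 hh0.le
    linarith
  have hpiece : ∀ k < N, volume {t | t ∈ Ioo (P k) (P (k + 1)) ∧ s < ‖deriv lam t‖} ≤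
      ENNReal.ofReal (C0 * (s / R) ^ (-((n:ℝ) / (n - 1)))) := by
    intro k hk
    have hsub : Icc (P k) (P (k + 1)) ⊆ Icc α β := Icc_subset_Icc (hPα k) (hPβ _ hk)
    have hsubo : Ioo (P k) (P (k + 1)) ⊆ Ioo α β := Ioo_subset_Ioo (hPα k) (hPβ _ hk)
    apply hC0 (P k) (P (k + 1)) R (by rw [hP1]; linarith) (by rw [hP1]; linarith) hR A
    · intro i m hm x hx
      exact (hAd i m hm x (hsub hx)).mono hsub
    · intro i m hm x hx
      exact hAb i m hm x (hsub hx)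
    · intro i x hx y hy
      exact hAL i x (hsub hx) y (hsub hy)
    · exact hlam.mono hsubo
    · intro t ht
      exact hroot t (hsubo ht)
    · exact hs
  have hcover : {t | t ∈ Ioo α β ∧ s < ‖deriv lam t‖} ⊆
      (⋃ k : Fin N, {t | t ∈ Ioo (P k) (P ((k:ℕ) + 1)) ∧ s < ‖deriv lam t‖}) ∪ range P := by
    rintro t ⟨ht, hts⟩
    set x : ℝ := (t - α) / h with hx
    have hx0 : 0 ≤ x := div_nonneg (by linarith [ht.1]) hh0.le
    have hxN : x < N := by
      rw [hx, div_lt_iff₀ hh0, hhN]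
      linarith [ht.2]
    have htx : t = α + x * h := by
      rw [hx]
      field_simp
      ring
    have hf1 : (⌊x⌋₊ : ℝ) ≤ x := Nat.floor_le hx0
    have hf2 : x < ⌊x⌋₊ + 1 := Nat.lt_floor_add_one x
    have hfN : ⌊x⌋₊ < N := by
      have : (⌊x⌋₊ : ℝ) < N := lt_of_le_of_lt hf1 hxN
      exact_mod_cast this
    rcases hf1.lt_or_eq with h1 | h1
    · left
      simp only [mem_iUnion]
      refine ⟨⟨⌊x⌋₊, hfN⟩, ⟨?_, ?_⟩, hts⟩
      · simp only [hP]
        rw [htx]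
        have := mul_lt_mul_of_pos_right h1 hh0
        linarith
      · simp only [hP]
        rw [htx]
        have := mul_lt_mul_of_pos_right hf2 hh0
        push_cast
        linarith
    · right
      refine ⟨⌊x⌋₊, ?_⟩
      simp only [hP]
      rw [h1, ← htx]
  have hnull : volume (range P) = 0 := (countable_range P).measure_zero _
  refine (measure_mono hcover).trans ((measure_union_le _ _).trans ?_)
  rw [hnull, add_zero]
  refine (measure_iUnion_fintype_le _ _).trans ?_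
  refine (Finset.sum_le_sum (fun (k : Fin N) _ => hpiece k k.2)).trans ?_
  rw [Finset.sum_const, Finset.card_univ, Fintype.card_fin, nsmul_eq_mul,
    ← ENNReal.ofReal_natCast, ← ENNReal.ofReal_mul (by positivity)]
  apply ENNReal.ofReal_le_ofReal
  have h1 : (N:ℝ) ≤ 2 * max 1 (β - α) := by
    have h2 := le_max_left 1 (β - α)
    have h3 := le_max_right 1 (β - α)
    linarith
  have h2 : 0 ≤ C0 * (s / R) ^ (-((n:ℝ) / (n - 1))) := by positivity
  have h3 := mul_le_mul_of_nonneg_right h1 h2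
  linarith

end Pool.Agent.H47R3.WT
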