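import Pool.Agent.H47R3.WT.Radical

/-!
The function `G` controlling the relative variation of the coefficients, and its weak type bound.
-/

set_option autoImplicit false

namespace Pool.Agent.H47R3.WT

open Set MeasureTheory Metric

lemma volume_Ioo01_le (S : Set ℝ) (hS : S ⊆ Ioo 0 1) : volume S ≤ 1 := by
  refine (measure_mono hS).trans ?_
  rw [Real.volume_Ioo]
  simp

/-- The weak type estimate for radicals of complex functions. -/
theorem radical_complex {k : ℕ} (hk : 0 < k) (M : ℝ) : ∃ C : ℝ, 0 ≤ C ∧ ∀ F : ℕ → ℝ → ℂ,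
    Chain k F → (∀ i ≤ k, ∀ x ∈ U, ‖F i x‖ ≤ M) →
    (∀ x ∈ U, ∀ y ∈ U, ‖F k x - F k y‖ ≤ M * |x - y|) → ∀ s : ℝ, 0 < s →
    volume {t | t ∈ Ioo (0:ℝ) 1 ∧ s * ‖F 0 t‖ ^ ((k:ℝ) / (k + 1)) < ‖F 1 t‖} ≤
      ENNReal.ofReal (C * s ^ (-((k:ℝ) + 1) / k)) := by
  obtain ⟨C, hC0, hC⟩ := radical_real hk M
  refine ⟨2 * C * (1 / 2) ^ (-((k:ℝ) + 1) / k), by positivity, ?_⟩
  intro F hc hb hl s hs
  have h1 := hC (fun i t => (F i t).re) ?_ ?_ ?_ (s * (1 / 2)) (by positivity)
  · have h2 := hC (fun i t => (F i t).im) ?_ ?_ ?_ (s * (1 / 2)) (by positivity)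
    · have hsub : {t | t ∈ Ioo (0:ℝ) 1 ∧ s * ‖F 0 t‖ ^ ((k:ℝ) / (k + 1)) < ‖F 1 t‖} ⊆
          bad k (fun i t => (F i t).re) (s * (1 / 2)) ∪
            bad k (fun i t => (F i t).im) (s * (1 / 2)) := by
        rintro t ⟨ht, hts⟩
        by_contra hcon
        rw [mem_union, not_or] at hcon
        obtain ⟨hc1, hc2⟩ := hcon
        have h3 : ¬ (s * (1 / 2) * |(F 0 t).re| ^ ((k:ℝ) / (k + 1)) < |(F 1 t).re|) :=
          fun h => hc1 ⟨ht, h⟩
        have h4 : ¬ (s * (1 / 2) * |(F 0 t).im| ^ ((k:ℝ) / (k + 1)) < |(F 1 t).im|) :=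
          fun h => hc2 ⟨ht, h⟩
        rw [not_lt] at h3 h4
        have h5 : |(F 0 t).re| ^ ((k:ℝ) / (k + 1)) ≤ ‖F 0 t‖ ^ ((k:ℝ) / (k + 1)) :=
          Real.rpow_le_rpow (abs_nonneg _) (Complex.abs_re_le_norm _) (by positivity)
        have h6 : |(F 0 t).im| ^ ((k:ℝ) / (k + 1)) ≤ ‖F 0 t‖ ^ ((k:ℝ) / (k + 1)) :=
          Real.rpow_le_rpow (abs_nonneg _) (Complex.abs_im_le_norm _) (by positivity)
        have h7 := Complex.norm_le_abs_re_add_abs_im (F 1 t)
        nlinarith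
      refine (measure_mono hsub).trans ((measure_union_le _ _).trans ?_)
      refine (add_le_add h1 h2).trans (le_of_eq ?_)
      rw [← ENNReal.ofReal_add (by positivity) (by positivity)]
      congr 1
      rw [Real.mul_rpow hs.le (by norm_num)]
      ring
    · intro i hi x hx
      exact (Complex.imCLM.hasFDerivAt.comp_hasDerivWithinAt x (hc i hi x hx))
    · intro i hi x hx
      exact (Complex.abs_im_le_norm _).trans (hb i hi x hx)
    · intro x hx y hy
      rw [← Complex.sub_im]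
      exact (Complex.abs_im_le_norm _).trans (hl x hx y hy)
  · intro i hi x hx
    exact (Complex.reCLM.hasFDerivAt.comp_hasDerivWithinAt x (hc i hi x hx))
  · intro i hi x hx
    exact (Complex.abs_re_le_norm _).trans (hb i hi x hx)
  · intro x hx y hy
    rw [← Complex.sub_re]
    exact (Complex.abs_re_le_norm _).trans (hl x hx y hy)

/-- Weights: the version with an exponent `p` such that `(w-1) p ≤ w`. -/
theorem radical_weight {w : ℕ} (hw : 1 ≤ w) {p : ℝ} (hp : 0 < p) (hwp : ((w:ℝ) - 1) * p ≤ w)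
    (M : ℝ) : ∃ C : ℝ, 1 ≤ C ∧ ∀ (f f' : ℝ → ℂ),
    (∀ x ∈ U, HasDerivWithinAt f (f' x) U x) → (∀ x ∈ U, ‖f x‖ ≤ M) → CL (w - 2) M f' →
    ∀ s : ℝ, 0 < s →
    volume {t | t ∈ Ioo (0:ℝ) 1 ∧ s * ‖f t‖ ^ (1 - 1 / (w:ℝ)) < ‖f' t‖} ≤
      ENNReal.ofReal (C * s ^ (-p)) := by
  rcases Nat.lt_or_ge w 2 with hw2 | hw2
  · have : w = 1 := by omega
    subst this
    refine ⟨(|M| + 1) ^ p, Real.one_le_rpow (by linarith [abs_nonneg M]) hp.le, ?_⟩
    intro f f' _ _ hf' s hs
    rcases lt_or_ge s (|M| + 1) with h | h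
    · refine (volume_Ioo01_le _ (fun t ht => ht.1)).trans ?_
      rw [← ENNReal.ofReal_one]
      apply ENNReal.ofReal_le_ofReal
      rw [Real.rpow_neg hs.le, ← div_eq_mul_inv, ← Real.div_rpow (by positivity) hs.le]
      apply Real.one_le_rpow _ hp.le
      rw [le_div_iff₀ hs]
      linarith
    · have hemp : {t | t ∈ Ioo (0:ℝ) 1 ∧ s * ‖f t‖ ^ (1 - 1 / ((1:ℕ):ℝ)) < ‖f' t‖} = ∅ := by
        rw [eq_empty_iff_forall_notMem]
        rintro t ⟨ht, hts⟩
        have h1 := hf'.bound t (Ioo_subset_Icc_self ht)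
        have e : (1:ℝ) - 1 / ((1:ℕ):ℝ) = 0 := by norm_num
        rw [e, Real.rpow_zero, mul_one] at hts
        linarith [le_abs_self M]
      rw [hemp]
      simp
  · obtain ⟨k, rfl⟩ : ∃ k, w = k + 1 := ⟨w - 1, by omega⟩
    have hk : 0 < k := by omega
    have hk' : (0:ℝ) < k := by exact_mod_cast hk
    obtain ⟨C, hC0, hC⟩ := radical_complex hk M
    refine ⟨max C 1, le_max_right _ _, ?_⟩
    intro f f' hd hb hf' s hs
    have hCL : CL k M f := by
      obtain ⟨j, rfl⟩ : ∃ j, k = j + 1 := ⟨k - 1, by omega⟩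
      exact ⟨hb, f', hd, hf'⟩
    obtain ⟨F', hF'0, hF'1, hF'2, hF'3⟩ := hf'.chain
    have hmain := hC (fun i => match i with | 0 => f | (j + 1) => F' j) ?_ ?_ ?_ s hs
    · have e1 : (1:ℝ) - 1 / ((k + 1 : ℕ) : ℝ) = (k:ℝ) / (k + 1) := by
        push_cast
        field_simp
        ring
      rw [e1]
      rw [← hF'0]
      rcases lt_or_ge s 1 with h | h
      · refine (volume_Ioo01_le _ (fun t ht => ht.1)).trans ?_
        rw [← ENNReal.ofReal_one]
        apply ENNReal.ofReal_le_ofReal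
        have h1 : (1:ℝ) ≤ s ^ (-p) :=
          Real.one_le_rpow_of_pos_of_le_one_of_nonpos hs h.le (by linarith)
        have h2 : (1:ℝ) ≤ max C 1 := le_max_right _ _
        nlinarith
      · refine hmain.trans ?_
        apply ENNReal.ofReal_le_ofReal
        have h1 : s ^ (-((k:ℝ) + 1) / k) ≤ s ^ (-p) := by
          apply Real.rpow_le_rpow_of_exponent_le h
          push_cast at hwp
          rw [div_le_iff₀ hk']
          nlinarith
        have h2 : 0 ≤ s ^ (-((k:ℝ) + 1) / k) := by positivity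
        calc C * s ^ (-((k:ℝ) + 1) / k) ≤ max C 1 * s ^ (-((k:ℝ) + 1) / k) :=
              mul_le_mul_of_nonneg_right (le_max_left _ _) h2
          _ ≤ _ := mul_le_mul_of_nonneg_left h1 (by positivity)
    · intro i hi x hx
      rcases i with _ | i
      · show HasDerivWithinAt f (F' 0 x) U x
        rw [hF'0]
        exact hd x hx
      · exact hF'1 i (by omega) x hx
    · intro i hi x hx
      rcases i with _ | i
      · exact hb x hx
      · exact hF'2 i (by omega) x hx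
    · obtain ⟨j, rfl⟩ : ∃ j, k = j + 1 := ⟨k - 1, by omega⟩
      exact hF'3

/-- The weight of the `i`-th coefficient. -/
def wt {n : ℕ} (i : Fin n) : ℕ := n - i

lemma wt_pos {n : ℕ} (i : Fin n) : 1 ≤ wt i := by
  have := i.2
  unfold wt
  omega

lemma wt_le {n : ℕ} (i : Fin n) : wt i ≤ n := Nat.sub_le _ _

/-- The relative variation of the `i`-th coefficient. -/
noncomputable def gg {n : ℕ} (a a' : ℝ → Fin n → ℂ) (i : Fin n) (t : ℝ) : ℝ :=
  ‖a' t i‖ / ‖a t i‖ ^ (1 - 1 / (wt i : ℝ))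

/-- The controlling function. -/
noncomputable def GG {n : ℕ} (a a' : ℝ → Fin n → ℂ) (t : ℝ) : ℝ := 1 + ∑ i, gg a a' i t

lemma gg_nonneg {n : ℕ} (a a' : ℝ → Fin n → ℂ) (i : Fin n) (t : ℝ) : 0 ≤ gg a a' i t := by
  unfold gg
  positivity

lemma one_le_GG {n : ℕ} (a a' : ℝ → Fin n → ℂ) (t : ℝ) : 1 ≤ GG a a' t := by
  have : 0 ≤ ∑ i, gg a a' i t := Finset.sum_nonneg (fun i _ => gg_nonneg a a' i t)
  unfold GG
  linarith

lemma gg_le_GG {n : ℕ} (a a' : ℝ → Fin n → ℂ) (i : Fin n) (t : ℝ) : gg a a' i t ≤ GG a a' t := by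
  have : gg a a' i t ≤ ∑ i, gg a a' i t :=
    Finset.single_le_sum (fun i _ => gg_nonneg a a' i t) (Finset.mem_univ i)
  unfold GG
  linarith

/-- The weak type bound for the controlling function, and the exceptional null sets. -/
theorem GG_weak {n : ℕ} (hn : 2 ≤ n) (M : ℝ) : ∃ C : ℝ, 1 ≤ C ∧ ∀ (a a' : ℝ → Fin n → ℂ),
    (∀ x ∈ U, HasDerivWithinAt a (a' x) U x) → (∀ x ∈ U, ‖a x‖ ≤ M) → CL (n - 2) M a' →
    (∀ u : ℝ, 0 < u → volume {t | t ∈ Ioo (0:ℝ) 1 ∧ u < GG a a' t} ≤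
      ENNReal.ofReal (C * u ^ (-((n:ℝ) / (n - 1))))) ∧
    ∀ i : Fin n, volume {t | t ∈ Ioo (0:ℝ) 1 ∧ 2 ≤ wt i ∧ a t i = 0 ∧ a' t i ≠ 0} = 0 := by
  have hn' : (2:ℝ) ≤ n := by exact_mod_cast hn
  set p : ℝ := (n:ℝ) / (n - 1) with hp
  have hn1 : (0:ℝ) < (n:ℝ) - 1 := by linarith
  have hp0 : 0 < p := by positivity
  have hwp : ∀ i : Fin n, ((wt i : ℝ) - 1) * p ≤ wt i := by
    intro i
    have h1 : (wt i : ℝ) ≤ n := by exact_mod_cast wt_le i
    rw [hp, ← mul_div_assoc, div_le_iff₀ hn1]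
    nlinarith
  choose C hC1 hC using fun i : Fin n => radical_weight (wt_pos i) hp0 (hwp i) M
  have hCs : ∀ i, C i ≤ ∑ j, C j :=
    fun i => Finset.single_le_sum (fun j _ => zero_le_one.trans (hC1 j)) (Finset.mem_univ i)
  have hsum0 : 0 ≤ ∑ j, C j := Finset.sum_nonneg (fun j _ => zero_le_one.trans (hC1 j))
  refine ⟨max (2 ^ p) (∑ i, C i * (2 * n) ^ p), ?_, ?_⟩
  · exact (Real.one_le_rpow (by norm_num) hp0.le).trans (le_max_left _ _)
  intro a a' hd hb hf'
  have hdi : ∀ i, ∀ x ∈ U, HasDerivWithinAt (fun t => a t i) (a' x i) U x :=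
    fun i x hx => (hasDerivWithinAt_pi.1 (hd x hx)) i
  have hbi : ∀ i, ∀ x ∈ U, ‖a x i‖ ≤ M := fun i x hx => (norm_le_pi_norm _ i).trans (hb x hx)
  have hfi : ∀ i, CL (wt i - 2) M (fun t => a' t i) := by
    intro i
    exact (hf'.eval i).of_le (by have := wt_le i; omega)
  have hw := fun i => hC i (fun t => a t i) (fun t => a' t i) (hdi i) (hbi i) (hfi i)
  constructor
  · intro u hu
    rcases lt_or_ge u 2 with h | h
    · refine (volume_Ioo01_le _ (fun t ht => ht.1)).trans ?_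
      rw [← ENNReal.ofReal_one]
      apply ENNReal.ofReal_le_ofReal
      have h1 : (1:ℝ) ≤ 2 ^ p * u ^ (-p) := by
        rw [Real.rpow_neg hu.le, ← div_eq_mul_inv, ← Real.div_rpow (by positivity) hu.le]
        apply Real.one_le_rpow _ hp0.le
        rw [le_div_iff₀ hu]
        linarith
      refine h1.trans (mul_le_mul_of_nonneg_right (le_max_left _ _) (by positivity))
    · have hn0 : (0:ℝ) < n := by linarith
      have hsub : {t | t ∈ Ioo (0:ℝ) 1 ∧ u < GG a a' t} ⊆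
          ⋃ i : Fin n, {t | t ∈ Ioo (0:ℝ) 1 ∧
            (u / (2 * n)) * ‖a t i‖ ^ (1 - 1 / (wt i : ℝ)) < ‖a' t i‖} := by
        rintro t ⟨ht, htu⟩
        by_contra hcon
        simp only [mem_iUnion, mem_ofPred_eq, not_exists, not_and, not_lt] at hcon
        have h1 : ∀ i, gg a a' i t ≤ u / (2 * n) := by
          intro i
          unfold gg
          exact div_le_of_le_mul₀ (by positivity) (by positivity) (hcon i ht)
        have h2 : GG a a' t ≤ 1 + n * (u / (2 * n)) := by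
          unfold GG
          have h3 := Finset.sum_le_sum (fun i (_ : i ∈ Finset.univ) => h1 i)
          simp only [Finset.sum_const, Finset.card_univ, Fintype.card_fin, nsmul_eq_mul] at h3
          linarith
        have h3 : (n:ℝ) * (u / (2 * n)) = u / 2 := by field_simp
        linarith
      refine (measure_mono hsub).trans ((measure_iUnion_fintype_le _ _).trans ?_)
      have h1 : ∀ i : Fin n, volume {t | t ∈ Ioo (0:ℝ) 1 ∧
            (u / (2 * n)) * ‖a t i‖ ^ (1 - 1 / (wt i : ℝ)) < ‖a' t i‖} ≤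
          ENNReal.ofReal (C i * (2 * n) ^ p * u ^ (-p)) := by
        intro i
        refine (hw i (u / (2 * n)) (by positivity)).trans (le_of_eq ?_)
        congr 1
        rw [Real.div_rpow hu.le (by positivity), Real.rpow_neg (by positivity : (0:ℝ) ≤ 2 * n)]
        field_simp
      refine (Finset.sum_le_sum (fun i _ => h1 i)).trans ?_
      rw [← ENNReal.ofReal_sum_of_nonneg (fun i _ => by
        have := hC1 i
        positivity)]
      apply ENNReal.ofReal_le_ofReal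
      rw [← Finset.sum_mul]
      exact mul_le_mul_of_nonneg_right (le_max_right _ _) (by positivity)
  · intro i
    rcases Nat.lt_or_ge (wt i) 2 with h2 | h2
    · have : {t | t ∈ Ioo (0:ℝ) 1 ∧ 2 ≤ wt i ∧ a t i = 0 ∧ a' t i ≠ 0} = ∅ := by
        rw [eq_empty_iff_forall_notMem]
        rintro t ⟨_, h3, _⟩
        omega
      rw [this]
      simp
    · have hle : ∀ m : ℕ, volume {t | t ∈ Ioo (0:ℝ) 1 ∧ 2 ≤ wt i ∧ a t i = 0 ∧ a' t i ≠ 0} ≤
          ENNReal.ofReal (C i * ((m:ℝ) + 1) ^ (-p)) := by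
        intro m
        refine (measure_mono ?_).trans (hw i ((m:ℝ) + 1) (by positivity))
        rintro t ⟨ht, _, h3, h4⟩
        refine ⟨ht, ?_⟩
        rw [h3, norm_zero, Real.zero_rpow, mul_zero]
        · exact norm_pos_iff.2 h4
        · have : (2:ℝ) ≤ wt i := by exact_mod_cast h2
          have h5 : 1 / (wt i : ℝ) ≤ 1 / 2 := one_div_le_one_div_of_le (by norm_num) this
          linarith
      have hlim : Filter.Tendsto (fun m : ℕ => ENNReal.ofReal (C i * ((m:ℝ) + 1) ^ (-p)))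
          Filter.atTop (nhds (ENNReal.ofReal (C i * 0))) := by
        apply ENNReal.tendsto_ofReal
        apply Filter.Tendsto.const_mul
        have h3 := tendsto_rpow_neg_atTop hp0
        exact h3.comp (Filter.tendsto_atTop_add_const_right _ _ tendsto_natCast_atTop_atTop)
      rw [mul_zero, ENNReal.ofReal_zero] at hlim
      exact le_antisymm (ge_of_tendsto' hlim hle) zero_le

end Pool.Agent.H47R3.WT
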