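import Mathlib

/-!
From weak type bounds to sums over disjoint intervals.
-/

set_option autoImplicit false

namespace Pool.Agent.H47R3.WT

open Set MeasureTheory

lemma tsum_geo {K r : ℝ} (hK : 0 ≤ K) (hr : 0 ≤ r) (hr1 : r < 1) :
    ∑' m : ℕ, ENNReal.ofReal (K * r ^ m) = ENNReal.ofReal (K / (1 - r)) := by
  rw [← ENNReal.ofReal_tsum_of_nonneg (fun m => by positivity)
    ((summable_geometric_of_lt_one hr hr1).mul_left K), tsum_mul_left,
    tsum_geometric_of_lt_one hr hr1]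
  rfl

/-- Weak type bounds control the integrals of `(G - v)^+`. -/
theorem hinge_integral {C p : ℝ} (hC : 0 ≤ C) (hp : 1 < p) : ∃ C' : ℝ, 0 ≤ C' ∧ ∀ G : ℝ → ℝ,
    AEMeasurable G (volume.restrict (Ioo 0 1)) →
    (∀ u : ℝ, 0 < u → volume {t | t ∈ Ioo (0:ℝ) 1 ∧ u < G t} ≤ ENNReal.ofReal (C * u ^ (-p))) →
    ∀ v : ℝ, 0 < v → ∫⁻ t in Ioo 0 1, ENNReal.ofReal (G t - v) ≤
      ENNReal.ofReal (C' * v ^ (1 - p)) := by
  have hr0 : (0:ℝ) ≤ 2 ^ (1 - p) := by positivity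
  have hr1 : (2:ℝ) ^ (1 - p) < 1 := Real.rpow_lt_one_of_one_lt_of_neg (by norm_num) (by linarith)
  refine ⟨2 * C / (1 - 2 ^ (1 - p)), div_nonneg (by positivity) (by linarith), ?_⟩
  intro G hG hw v hv
  have hpt : ∀ t, ENNReal.ofReal (G t - v) ≤ ∑' m : ℕ,
      ({x | 2 ^ m * v < G x} : Set ℝ).indicator (fun _ => ENNReal.ofReal (2 ^ (m + 1) * v)) t := by
    intro t
    rcases le_or_gt (G t) v with h | h
    · rw [ENNReal.ofReal_of_nonpos (by linarith)]
      exact zero_le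
    · have hex : ∃ m : ℕ, G t ≤ 2 ^ m * v := by
        obtain ⟨m, hm⟩ := pow_unbounded_of_one_lt (G t / v) (by norm_num : (1:ℝ) < 2)
        refine ⟨m, ?_⟩
        rw [div_lt_iff₀ hv] at hm
        exact hm.le
      classical
      have h1 := Nat.find_spec hex
      have hpos : 0 < Nat.find hex := by
        rw [Nat.find_pos]
        push Not
        simpa using h
      obtain ⟨m, hm⟩ : ∃ m, Nat.find hex = m + 1 := ⟨_, (Nat.succ_pred_eq_of_pos hpos).symm⟩
      have h2 := Nat.find_min hex (m := m) (by omega)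
      push Not at h2
      rw [hm] at h1
      refine le_trans ?_ (ENNReal.le_tsum m)
      rw [indicator_of_mem (show t ∈ {x | 2 ^ m * v < G x} from h2)]
      apply ENNReal.ofReal_le_ofReal
      linarith
  have hnull : ∀ m : ℕ, NullMeasurableSet {x | 2 ^ m * v < G x} (volume.restrict (Ioo 0 1)) :=
    fun m => nullMeasurableSet_lt aemeasurable_const hG
  calc ∫⁻ t in Ioo 0 1, ENNReal.ofReal (G t - v)
      ≤ ∫⁻ t in Ioo 0 1, ∑' m : ℕ, ({x | 2 ^ m * v < G x} : Set ℝ).indicator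
          (fun _ => ENNReal.ofReal (2 ^ (m + 1) * v)) t := lintegral_mono hpt
    _ = ∑' m : ℕ, ∫⁻ t in Ioo 0 1, ({x | 2 ^ m * v < G x} : Set ℝ).indicator
          (fun _ => ENNReal.ofReal (2 ^ (m + 1) * v)) t := by
        apply lintegral_tsum
        intro m
        exact aemeasurable_const.indicator₀ (hnull m)
    _ ≤ ∑' m : ℕ, ENNReal.ofReal ((2 * C * v ^ (1 - p)) * (2 ^ (1 - p)) ^ m) := by
        apply ENNReal.tsum_le_tsum
        intro m
        rw [lintegral_indicator_const₀ (hnull m), Measure.restrict_apply' measurableSet_Ioo]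
        have h1 : {x | 2 ^ m * v < G x} ∩ Ioo (0:ℝ) 1 = {t | t ∈ Ioo (0:ℝ) 1 ∧ 2 ^ m * v < G t} := by
          ext t
          simp only [mem_inter_iff, mem_ofPred_eq]
          tauto
        rw [h1]
        refine (mul_le_mul_right (hw (2 ^ m * v) (by positivity)) _).trans ?_
        rw [← ENNReal.ofReal_mul (by positivity)]
        apply ENNReal.ofReal_le_ofReal
        apply le_of_eq
        have e1 : ((2:ℝ) ^ m * v) ^ (-p) = ((2:ℝ) ^ m) ^ (-p) * v ^ (-p) :=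
          Real.mul_rpow (by positivity) hv.le
        have e2 : v ^ (1 - p) = v * v ^ (-p) := by
          rw [sub_eq_add_neg, Real.rpow_add hv, Real.rpow_one]
        have e3 : ((2:ℝ) ^ (1 - p)) ^ m = (2:ℝ) ^ m * ((2:ℝ) ^ m) ^ (-p) := by
          rw [← Real.rpow_natCast, ← Real.rpow_mul (by norm_num), ← Real.rpow_natCast (2:ℝ) m,
            ← Real.rpow_mul (by norm_num), ← Real.rpow_add (by norm_num)]
          congr 1
          ring
        rw [e1, e2, e3, pow_succ]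
        ring
    _ = ENNReal.ofReal (2 * C * v ^ (1 - p) / (1 - 2 ^ (1 - p))) :=
        tsum_geo (by positivity) hr0 hr1
    _ = _ := by
        congr 1
        ring

lemma hinge_pt {q X : ℝ} (hq : 1 ≤ q) (hX : 0 < X) : ∃ k : ℕ,
    min 1 (X ^ q) ≤ 2 ^ (q + 1) * ((1 / 2 ^ k : ℝ) ^ (q - 1) * (X - 1 / 2 ^ (k + 1))) := by
  rcases le_or_gt 1 X with h | h
  · refine ⟨0, ?_⟩
    have h1 : (1:ℝ) ≤ 2 ^ q := Real.one_le_rpow (by norm_num) (by linarith)
    have h2 : (2:ℝ) ^ (q + 1) = 2 ^ q * 2 := by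
      rw [Real.rpow_add (by norm_num), Real.rpow_one]
    rw [h2, pow_zero, div_one, Real.one_rpow, one_mul, zero_add, pow_one]
    refine (min_le_left _ _).trans ?_
    nlinarith
  · have hex : ∃ k : ℕ, (1:ℝ) / 2 ^ k ≤ X := by
      obtain ⟨k, hk⟩ := exists_pow_lt_of_lt_one hX (by norm_num : (1 / 2 : ℝ) < 1)
      refine ⟨k, ?_⟩
      rw [one_div_pow] at hk
      exact hk.le
    classical
    have h1 := Nat.find_spec hex
    have hpos : 0 < Nat.find hex := by
      rw [Nat.find_pos]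
      push Not
      simpa using h
    obtain ⟨k, hk⟩ : ∃ k, Nat.find hex = k + 1 := ⟨_, (Nat.succ_pred_eq_of_pos hpos).symm⟩
    have h2 := Nat.find_min hex (m := k) (by omega)
    push Not at h2
    rw [hk] at h1
    refine ⟨k + 1, (min_le_right _ _).trans ?_⟩
    set θ : ℝ := 1 / 2 ^ (k + 1) with hθ
    have hθ0 : 0 < θ := by positivity
    have h3 : X ≤ 2 * θ := by
      have : 2 * θ = 1 / 2 ^ k := by
        rw [hθ, pow_succ]
        field_simp
      rw [this]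
      exact h2.le
    have h4 : (1:ℝ) / 2 ^ (k + 1 + 1) = θ / 2 := by
      rw [hθ, pow_succ 2 (k + 1)]
      field_simp
    rw [h4]
    have h5 : X ^ q ≤ (2 * θ) ^ q := Real.rpow_le_rpow hX.le h3 (by linarith)
    have h6 : (2 * θ) ^ q = 2 ^ (q + 1) * (θ ^ (q - 1) * (θ / 2)) := by
      rw [Real.mul_rpow (by norm_num) hθ0.le, Real.rpow_add (by norm_num), Real.rpow_one,
        Real.rpow_sub hθ0, Real.rpow_one]
      field_simp
    rw [h6] at h5
    refine h5.trans ?_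
    apply mul_le_mul_of_nonneg_left _ (by positivity)
    apply mul_le_mul_of_nonneg_left _ (by positivity)
    linarith

lemma ofReal_integral_le {α : Type*} [MeasurableSpace α] {μ : Measure α} {f : α → ℝ}
    (hf : Integrable f μ) : ENNReal.ofReal (∫ x, f x ∂μ) ≤ ∫⁻ x, ENNReal.ofReal (f x) ∂μ := by
  rw [integral_eq_lintegral_pos_part_sub_lintegral_neg_part hf]
  refine (ENNReal.ofReal_le_ofReal (sub_le_self _ ENNReal.toReal_nonneg)).trans ?_
  exact ENNReal.ofReal_toReal_le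

/-- The summation lemma. -/
theorem sum_intervals {C p q : ℝ} (hC : 0 ≤ C) (hp : 1 < p) (hpq : p < q) : ∃ C' : ℝ, 0 ≤ C' ∧
    ∀ G : ℝ → ℝ, IntegrableOn G (Ioo 0 1) →
    (∀ u : ℝ, 0 < u → volume {t | t ∈ Ioo (0:ℝ) 1 ∧ u < G t} ≤ ENNReal.ofReal (C * u ^ (-p))) →
    ∀ κ : ℝ, 0 < κ → ∀ (S : Set ℝ) (J : ℝ → Set ℝ) (δ X : ℝ → ℝ), S.Countable →
    (∀ t ∈ S, MeasurableSet (J t)) → (∀ t ∈ S, J t ⊆ Ioo 0 1) → S.PairwiseDisjoint J →
    (∀ t ∈ S, 0 ≤ δ t) → (∀ t ∈ S, volume (J t) = ENNReal.ofReal (δ t)) →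
    (∀ t ∈ S, 0 < X t) → (∀ t ∈ S, κ * (δ t * X t) = ∫ x in J t, G x) →
    ∑' t : S, ENNReal.ofReal (δ t * min 1 (X t ^ q)) ≤ ENNReal.ofReal (C' * κ ^ (-p)) := by
  obtain ⟨C1, hC10, hC1⟩ := hinge_integral hC hp
  have hr0 : (0:ℝ) ≤ 2 ^ (-(q - p)) := by positivity
  have hr1 : (2:ℝ) ^ (-(q - p)) < 1 :=
    Real.rpow_lt_one_of_one_lt_of_neg (by norm_num) (by linarith)
  refine ⟨2 ^ (q + 1) * 2 ^ (p - 1) * C1 / (1 - 2 ^ (-(q - p))),
    div_nonneg (by positivity) (by linarith), ?_⟩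
  intro G hG hw κ hκ S J δ X hS hJm hJs hJd hδ0 hδ hX hint
  set w : ℕ → ℝ := fun k => 2 ^ (q + 1) * ((1 / 2 ^ k : ℝ) ^ (q - 1)) * κ⁻¹ with hw'
  have hw0 : ∀ k, 0 ≤ w k := fun k => by simp only [hw']; positivity
  have hterm : ∀ t : S, ENNReal.ofReal (δ t * min 1 (X t ^ q)) ≤
      ∑' k : ℕ, ENNReal.ofReal (w k) *
        ∫⁻ x in J t, ENNReal.ofReal (G x - κ * (1 / 2 ^ (k + 1))) := by
    intro t
    obtain ⟨k, hk⟩ := hinge_pt (q := q) (by linarith) (hX t t.2)
    refine le_trans ?_ (ENNReal.le_tsum k)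
    have hfin : volume (J t) ≠ ⊤ := by rw [hδ t t.2]; exact ENNReal.ofReal_ne_top
    have hGi : IntegrableOn G (J t) := hG.mono_set (hJs t t.2)
    have hci : IntegrableOn (fun _ : ℝ => κ * (1 / 2 ^ (k + 1) : ℝ)) (J t) :=
      integrableOn_const hfin
    have h1 : ∫ x in J t, (G x - κ * (1 / 2 ^ (k + 1))) = κ * (δ t * (X t - 1 / 2 ^ (k + 1))) := by
      rw [integral_sub hGi hci, ← hint t t.2]
      have : ∫ _x in J t, κ * (1 / 2 ^ (k + 1) : ℝ) = δ t * (κ * (1 / 2 ^ (k + 1))) := by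
        rw [setIntegral_const, measureReal_def, hδ t t.2, ENNReal.toReal_ofReal (hδ0 t t.2),
          smul_eq_mul]
      rw [this]
      ring
    have h2 := ofReal_integral_le (μ := volume.restrict (J t)) (hGi.sub hci)
    simp only [Pi.sub_apply] at h2
    rw [h1] at h2
    refine le_trans ?_ (mul_le_mul_right h2 _)
    rw [← ENNReal.ofReal_mul (hw0 k)]
    apply ENNReal.ofReal_le_ofReal
    have h3 := mul_le_mul_of_nonneg_left hk (hδ0 t t.2)
    refine h3.trans (le_of_eq ?_)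
    simp only [hw']
    field_simp
  calc ∑' t : S, ENNReal.ofReal (δ t * min 1 (X t ^ q))
      ≤ ∑' t : S, ∑' k : ℕ, ENNReal.ofReal (w k) *
        ∫⁻ x in J t, ENNReal.ofReal (G x - κ * (1 / 2 ^ (k + 1))) := ENNReal.tsum_le_tsum hterm
    _ = ∑' k : ℕ, ∑' t : S, ENNReal.ofReal (w k) *
        ∫⁻ x in J t, ENNReal.ofReal (G x - κ * (1 / 2 ^ (k + 1))) := ENNReal.tsum_comm
    _ ≤ ∑' k : ℕ, ENNReal.ofReal ((2 ^ (q + 1) * 2 ^ (p - 1) * C1 * κ ^ (-p)) *
          (2 ^ (-(q - p))) ^ k) := by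
        apply ENNReal.tsum_le_tsum
        intro k
        rw [ENNReal.tsum_mul_left]
        have h1 : ∑' t : S, ∫⁻ x in J t, ENNReal.ofReal (G x - κ * (1 / 2 ^ (k + 1))) ≤
            ENNReal.ofReal (C1 * (κ * (1 / 2 ^ (k + 1))) ^ (1 - p)) := by
          rw [← lintegral_biUnion hS hJm hJd]
          refine (lintegral_mono_set (iUnion₂_subset hJs)).trans ?_
          exact hC1 G hG.aemeasurable hw _ (by positivity)
        refine (mul_le_mul_right h1 _).trans ?_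
        rw [← ENNReal.ofReal_mul (hw0 k)]
        apply ENNReal.ofReal_le_ofReal
        apply le_of_eq
        simp only [hw']
        have e1 : (κ * (1 / 2 ^ (k + 1) : ℝ)) ^ (1 - p) = κ ^ (1 - p) *
            (2:ℝ) ^ (((k:ℝ) + 1) * (p - 1)) := by
          rw [Real.mul_rpow hκ.le (by positivity)]
          congr 1
          rw [one_div, ← Real.rpow_natCast, ← Real.rpow_neg (by norm_num),
            ← Real.rpow_mul (by norm_num)]
          congr 1
          push_cast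
          ring
        have e2 : (1 / 2 ^ k : ℝ) ^ (q - 1) = (2:ℝ) ^ (-(k:ℝ) * (q - 1)) := by
          rw [one_div, ← Real.rpow_natCast, ← Real.rpow_neg (by norm_num),
            ← Real.rpow_mul (by norm_num)]
        have e3 : κ ^ (-p) = κ⁻¹ * κ ^ (1 - p) := by
          rw [Real.rpow_sub hκ, Real.rpow_one, Real.rpow_neg hκ.le]
          field_simp
        have e4 : ((2:ℝ) ^ (-(q - p))) ^ k = (2:ℝ) ^ (-(q - p) * k) := by
          rw [← Real.rpow_natCast, ← Real.rpow_mul (by norm_num)]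
        have e5 : (2:ℝ) ^ (-(k:ℝ) * (q - 1)) * (2:ℝ) ^ (((k:ℝ) + 1) * (p - 1)) =
            (2:ℝ) ^ (p - 1) * (2:ℝ) ^ (-(q - p) * k) := by
          rw [← Real.rpow_add (by norm_num), ← Real.rpow_add (by norm_num)]
          congr 1
          ring
        rw [e1, e2, e3, e4]
        calc 2 ^ (q + 1) * (2:ℝ) ^ (-(k:ℝ) * (q - 1)) * κ⁻¹ *
              (C1 * (κ ^ (1 - p) * 2 ^ (((k:ℝ) + 1) * (p - 1))))
            = 2 ^ (q + 1) * κ⁻¹ * C1 * κ ^ (1 - p) *
              ((2:ℝ) ^ (-(k:ℝ) * (q - 1)) * (2:ℝ) ^ (((k:ℝ) + 1) * (p - 1))) := by ring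
          _ = _ := by rw [e5]; ring
    _ = ENNReal.ofReal (2 ^ (q + 1) * 2 ^ (p - 1) * C1 * κ ^ (-p) / (1 - 2 ^ (-(q - p)))) :=
        tsum_geo (by positivity) hr0 hr1
    _ = _ := by
        congr 1
        ring

end Pool.Agent.H47R3.WT
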