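import Pool.Agent.H47R3.WT.Basic

/-!
Jets, finite differences, and the interpolation inequality for intermediate derivatives.
-/

set_option autoImplicit false

namespace Pool.Agent.H47R3.WT

open Set MeasureTheory

variable {E : Type*} [NormedAddCommGroup E] [NormedSpace ℝ E]

set_option linter.unusedSectionVars false

/-- `F 0, F 1, …, F k` are the successive derivatives on `[0,1]`. -/
def Chain (k : ℕ) (F : ℕ → ℝ → E) : Prop :=
  ∀ i < k, ∀ x ∈ U, HasDerivWithinAt (F i) (F (i + 1) x) U x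

lemma CL.of_chain {k : ℕ} : ∀ {M : ℝ} {F : ℕ → ℝ → E}, Chain k F →
    (∀ i ≤ k, ∀ x ∈ U, ‖F i x‖ ≤ M) → (∀ x ∈ U, ∀ y ∈ U, ‖F k x - F k y‖ ≤ M * |x - y|) →
    CL k M (F 0) := by
  induction k with
  | zero =>
    intro M F _ hb hl
    exact ⟨hb 0 le_rfl, hl⟩
  | succ k ih =>
    intro M F hc hb hl
    refine ⟨hb 0 (Nat.zero_le _), F 1, hc 0 (Nat.succ_pos _), ?_⟩
    exact ih (F := fun i => F (i + 1)) (fun i hi => hc (i + 1) (by omega))
      (fun i hi => hb (i + 1) (by omega)) hl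

lemma CL.chain {k : ℕ} : ∀ {M : ℝ} {f : ℝ → E}, CL k M f → ∃ F : ℕ → ℝ → E, F 0 = f ∧ Chain k F ∧
    (∀ i ≤ k, ∀ x ∈ U, ‖F i x‖ ≤ M) ∧ (∀ x ∈ U, ∀ y ∈ U, ‖F k x - F k y‖ ≤ M * |x - y|) := by
  induction k with
  | zero =>
    intro M f h
    refine ⟨fun _ => f, rfl, fun i hi => absurd hi (by omega), fun i _ => h.1, h.2⟩
  | succ k ih =>
    intro M f h
    obtain ⟨h1, f', h2, h3⟩ := h
    obtain ⟨F, hF0, hF1, hF2, hF3⟩ := ih h3
    refine ⟨fun i => match i with | 0 => f | (j + 1) => F j, rfl, ?_, ?_, ?_⟩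
    · intro i hi x hx
      rcases i with _ | i
      · show HasDerivWithinAt f (F 0 x) U x
        rw [hF0]
        exact h2 x hx
      · exact hF1 i (by omega) x hx
    · intro i hi x hx
      rcases i with _ | i
      · exact h1 x hx
      · exact hF2 i (by omega) x hx
    · exact hF3

/-- The difference operator with step `h`. -/
def diffOp (h : ℝ) (f : ℝ → E) : ℝ → E := fun x => f (x + h) - f x

lemma diffOp_iterate_bound {h : ℝ} (hh : 0 ≤ h) {A : ℝ} (m : ℕ) : ∀ {f : ℝ → E} {x : ℝ},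
    (∀ y ∈ Icc x (x + m * h), ‖f y‖ ≤ A) → ‖(diffOp h)^[m] f x‖ ≤ 2 ^ m * A := by
  induction m with
  | zero =>
    intro f x hf
    simpa using hf x ⟨le_rfl, by simp⟩
  | succ m ih =>
    intro f x hf
    rw [Function.iterate_succ_apply']
    have hmh : 0 ≤ (m:ℝ) * h := by positivity
    have h1 : ‖(diffOp h)^[m] f x‖ ≤ 2 ^ m * A := by
      apply ih
      intro y hy
      apply hf
      push_cast
      exact ⟨hy.1, by nlinarith [hy.2]⟩
    have h2 : ‖(diffOp h)^[m] f (x + h)‖ ≤ 2 ^ m * A := by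
      apply ih
      intro y hy
      apply hf
      push_cast
      exact ⟨by linarith [hy.1], by nlinarith [hy.2]⟩
    have h3 := norm_sub_le ((diffOp h)^[m] f (x + h)) ((diffOp h)^[m] f x)
    have h4 : diffOp h ((diffOp h)^[m] f) x = (diffOp h)^[m] f (x + h) - (diffOp h)^[m] f x := rfl
    rw [h4, pow_succ]
    linarith

lemma diffOp_iterate_near {h : ℝ} (hh : 0 ≤ h) (m : ℕ) : ∀ {F : ℕ → ℝ → E} {x A : ℝ} {c : E},
    (∀ i < m, ∀ y ∈ Icc x (x + m * h),
      HasDerivWithinAt (F i) (F (i + 1) y) (Icc x (x + m * h)) y) →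
    (∀ y ∈ Icc x (x + m * h), ‖F m y - c‖ ≤ A) →
    ‖(diffOp h)^[m] (F 0) x - h ^ m • c‖ ≤ h ^ m * A := by
  induction m with
  | zero =>
    intro F x A c _ hF
    simpa using hF x ⟨le_rfl, by simp⟩
  | succ m ih =>
    intro F x A c hd hF
    rw [Function.iterate_succ_apply]
    have hmh : 0 ≤ (m:ℝ) * h := by positivity
    have hsub : ∀ y ∈ Icc x (x + m * h), y ∈ Icc x (x + (m + 1 : ℕ) * h) ∧
        y + h ∈ Icc x (x + (m + 1 : ℕ) * h) := by
      intro y hy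
      push_cast
      exact ⟨⟨hy.1, by nlinarith [hy.2]⟩, ⟨by linarith [hy.1], by nlinarith [hy.2]⟩⟩
    have key := ih (F := fun i y => F i (y + h) - F i y) (x := x) (A := h * A) (c := h • c) ?_ ?_
    · have e1 : diffOp h (F 0) = fun y => F 0 (y + h) - F 0 y := rfl
      rw [e1]
      have e2 : h ^ (m + 1) • c = h ^ m • h • c := by rw [smul_smul, pow_succ]
      rw [e2, pow_succ, mul_assoc]
      exact key
    · intro i hi y hy
      have h1 := hd i (by omega) (y + h) (hsub y hy).2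
      have h2 := hd i (by omega) y (hsub y hy).1
      have h3 : HasDerivWithinAt (fun z => F i (z + h)) (F (i + 1) (y + h))
          (Icc x (x + m * h)) y := by
        have h4 : HasDerivWithinAt (fun z : ℝ => z + h) 1 (Icc x (x + m * h)) y :=
          (hasDerivWithinAt_id _ _).add_const h
        have h5 := HasDerivWithinAt.scomp (h := fun z : ℝ => z + h) y h1 h4 (fun z hz => (hsub z hz).2)
        rw [one_smul] at h5
        exact h5
      exact h3.sub (h2.mono (fun z hz => (hsub z hz).1))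
    · intro y hy
      have hS : Convex ℝ (Icc x (x + (m + 1 : ℕ) * h)) := convex_Icc _ _
      have h1 := lip_of_deriv hS (f := fun z => F m z - z • c) (f' := fun z => F (m + 1) z - c)
        (M := A) (fun z hz => ?_) hF (y + h) (hsub y hy).2 y (hsub y hy).1
      · have e : F m (y + h) - (y + h) • c - (F m y - y • c) = F m (y + h) - F m y - h • c := by
          rw [add_smul]
          abel
        rw [e] at h1
        rw [show y + h - y = h by ring, abs_of_nonneg hh, mul_comm] at h1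
        exact h1
      · have h2 := hd m (by omega) z hz
        have h3 : HasDerivWithinAt (fun z : ℝ => z • c) c (Icc x (x + (m + 1 : ℕ) * h)) z := by
          have := (hasDerivWithinAt_id z (Icc x (x + (m + 1 : ℕ) * h))).smul_const c
          rw [one_smul] at this
          exact this
        exact h2.sub h3

/-- A bound for the top derivative. -/
lemma top_bound {k : ℕ} (hk : 1 ≤ k) {A : ℝ} {F : ℕ → ℝ → E} (hc : Chain k F)
    (h0 : ∀ x ∈ U, ‖F 0 x‖ ≤ A) (hl : ∀ x ∈ U, ∀ y ∈ U, ‖F k x - F k y‖ ≤ A * |x - y|) :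
    ∀ x ∈ U, ‖F k x‖ ≤ ((2 * k) ^ k + 2) * A := by
  have hA : 0 ≤ A := (norm_nonneg _).trans (h0 0 ⟨le_rfl, zero_le_one⟩)
  have hk0 : (0:ℝ) < k := by exact_mod_cast hk
  have e : (0:ℝ) + k * (1 / k) = 1 := by field_simp; norm_num
  have h1 : ∀ y ∈ U, ‖F k y - F k 0‖ ≤ A := by
    intro y hy
    have h2 := hl y hy 0 ⟨le_rfl, zero_le_one⟩
    have h3 : |y - 0| ≤ 1 := by rw [sub_zero, abs_of_nonneg hy.1]; exact hy.2
    nlinarith
  have h2 : ‖(diffOp (1 / k : ℝ))^[k] (F 0) 0 - (1 / k : ℝ) ^ k • F k 0‖ ≤ (1 / k : ℝ) ^ k * A := by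
    apply diffOp_iterate_near (by positivity)
    · rw [e]; exact hc
    · rw [e]; exact h1
  have h3 : ‖(diffOp (1 / k : ℝ))^[k] (F 0) 0‖ ≤ 2 ^ k * A := by
    apply diffOp_iterate_bound (by positivity)
    rw [e]; exact h0
  have h4 : ‖(1 / k : ℝ) ^ k • F k 0‖ ≤ 2 ^ k * A + (1 / k : ℝ) ^ k * A := by
    have := norm_sub_norm_le ((1 / k : ℝ) ^ k • F k 0) ((diffOp (1 / k : ℝ))^[k] (F 0) 0)
    rw [norm_sub_rev] at this
    linarith
  have hpos : (0:ℝ) < (1 / k : ℝ) ^ k := by positivity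
  rw [norm_smul, Real.norm_of_nonneg hpos.le] at h4
  have h5 : ‖F k 0‖ ≤ (2 * k) ^ k * A + A := by
    have h6 : (k:ℝ) ^ k * ((1 / k : ℝ) ^ k * ‖F k 0‖) ≤ (k:ℝ) ^ k * (2 ^ k * A + (1 / k : ℝ) ^ k * A) :=
      mul_le_mul_of_nonneg_left h4 (by positivity)
    have h7 : (k:ℝ) ^ k * (1 / k : ℝ) ^ k = 1 := by
      rw [← mul_pow]
      have : (k:ℝ) * (1 / k) = 1 := by field_simp
      rw [this, one_pow]
    rw [← mul_assoc, h7, one_mul, mul_add, ← mul_assoc, ← mul_assoc, h7, one_mul, ← mul_pow,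
      mul_comm (k:ℝ) 2] at h6
    exact h6
  intro x hx
  have h6 := norm_sub_norm_le (F k x) (F k 0)
  have h7 := h1 x hx
  nlinarith

/-- The interpolation inequality. -/
lemma interp (k : ℕ) : ∃ C : ℝ, 1 ≤ C ∧ ∀ {A : ℝ} {F : ℕ → ℝ → E}, Chain k F →
    (∀ x ∈ U, ‖F 0 x‖ ≤ A) → (∀ x ∈ U, ∀ y ∈ U, ‖F k x - F k y‖ ≤ A * |x - y|) →
    ∀ i ≤ k, ∀ x ∈ U, ‖F i x‖ ≤ C * A := by
  induction k with
  | zero =>
    refine ⟨1, le_rfl, ?_⟩
    intro A F _ h0 _ i hi x hx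
    have : i = 0 := by omega
    subst this
    rw [one_mul]
    exact h0 x hx
  | succ k ih =>
    obtain ⟨C, hC1, hC⟩ := ih
    set D : ℝ := (2 * (k + 1 : ℕ)) ^ (k + 1) + 2 with hD
    have hD1 : 1 ≤ D := by
      have : (0:ℝ) ≤ (2 * (k + 1 : ℕ)) ^ (k + 1) := by positivity
      linarith
    refine ⟨C * D, by nlinarith, ?_⟩
    intro A F hc h0 hl i hi x hx
    have hA : 0 ≤ A := (norm_nonneg _).trans (h0 0 ⟨le_rfl, zero_le_one⟩)
    have htop := top_bound (by omega) hc h0 hl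
    rcases Nat.lt_or_ge k i with hlt | hge
    · have : i = k + 1 := by omega
      subst this
      refine (htop x hx).trans ?_
      have : 0 ≤ D * A := mul_nonneg (by linarith) hA
      nlinarith
    · have hlk : ∀ x ∈ U, ∀ y ∈ U, ‖F k x - F k y‖ ≤ (D * A) * |x - y| :=
        lip_of_deriv (convex_Icc 0 1) (hc k (by omega)) htop
      have h1 := hC (A := D * A) (F := F) (fun i hi => hc i (by omega))
        (fun x hx => (h0 x hx).trans (by nlinarith)) hlk i hge x hx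
      rw [mul_assoc]
      exact h1

lemma interp_CL (k : ℕ) : ∃ C : ℝ, 1 ≤ C ∧ ∀ {A : ℝ} {F : ℕ → ℝ → E}, Chain k F →
    (∀ x ∈ U, ‖F 0 x‖ ≤ A) → (∀ x ∈ U, ∀ y ∈ U, ‖F k x - F k y‖ ≤ A * |x - y|) →
    CL k (C * A) (F 0) := by
  obtain ⟨C, hC1, hC⟩ := interp (E := E) k
  refine ⟨C, hC1, ?_⟩
  intro A F hc h0 hl
  have hA : 0 ≤ A := (norm_nonneg _).trans (h0 0 ⟨le_rfl, zero_le_one⟩)
  refine CL.of_chain hc (hC hc h0 hl) ?_
  intro x hx y hy
  exact (hl x hx y hy).trans (mul_le_mul_of_nonneg_right (by nlinarith) (abs_nonneg _))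

/-- Rescaling to a subinterval. -/
lemma CL.rescale (k : ℕ) : ∃ C : ℝ, 1 ≤ C ∧ ∀ {M A : ℝ} {f : ℝ → E} {x0 δ κ : ℝ}, CL k M f →
    0 < δ → 0 ≤ κ → 0 ≤ x0 → x0 + δ ≤ 1 → (∀ τ ∈ U, ‖κ • f (x0 + δ * τ)‖ ≤ A) →
    κ * δ ^ (k + 1) * M ≤ A → CL k (C * A) (fun τ => κ • f (x0 + δ * τ)) := by
  obtain ⟨C, hC1, hC⟩ := interp_CL (E := E) k
  refine ⟨C, hC1, ?_⟩
  intro M A f x0 δ κ hf hδ hκ hx0 hx1 hb hA
  have hmem : ∀ τ ∈ U, x0 + δ * τ ∈ U := by
    intro τ hτ
    refine ⟨by nlinarith [hτ.1], by nlinarith [hτ.2]⟩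
  obtain ⟨F, hF0, hF1, hF2, hF3⟩ := hf.chain
  have key := hC (A := A) (F := fun i τ => (κ * δ ^ i) • F i (x0 + δ * τ)) ?_ ?_ ?_
  · simpa [hF0] using key
  · intro i hi τ hτ
    have h1 := hF1 i hi _ (hmem τ hτ)
    have h2 : HasDerivWithinAt (fun z : ℝ => x0 + δ * z) δ U τ := by
      have := ((hasDerivWithinAt_id τ U).const_mul δ).const_add x0
      simpa using this
    have h3 := HasDerivWithinAt.scomp (h := fun z : ℝ => x0 + δ * z) τ h1 h2 hmem
    have h4 := h3.const_smul (κ * δ ^ i)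
    have e : (κ * δ ^ i) • δ • F (i + 1) (x0 + δ * τ) =
        (κ * δ ^ (i + 1)) • F (i + 1) (x0 + δ * τ) := by
      rw [smul_smul, pow_succ, mul_assoc]
    rw [e] at h4
    exact h4
  · intro x hx
    simpa [hF0] using hb x hx
  · intro x hx y hy
    rw [← smul_sub, norm_smul, Real.norm_of_nonneg (by positivity)]
    have h1 := hF3 _ (hmem x hx) _ (hmem y hy)
    have e : x0 + δ * x - (x0 + δ * y) = δ * (x - y) := by ring
    rw [e, abs_mul, abs_of_pos hδ] at h1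
    calc κ * δ ^ k * ‖F k (x0 + δ * x) - F k (x0 + δ * y)‖
        ≤ κ * δ ^ k * (M * (δ * |x - y|)) := mul_le_mul_of_nonneg_left h1 (by positivity)
      _ = (κ * δ ^ (k + 1) * M) * |x - y| := by ring
      _ ≤ A * |x - y| := mul_le_mul_of_nonneg_right hA (abs_nonneg _)

end Pool.Agent.H47R3.WT
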