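import Pool.Agent.H47R3.WT.Factor

/-!
The local estimate.
-/

set_option autoImplicit false

namespace Pool.Agent.H47R3.WT

open Set MeasureTheory

/-- The weak type property for polynomials of degree `n` with exponent `q`: the derivative of any
continuous root (on a subinterval of `[0,1]`) is in weak `L^q`, with a bound depending only on
the `C^{n-1,1}` bound of the coefficients on `[0,1]`. -/
def Good (n : ℕ) (q : ℝ) : Prop :=
  ∀ M : ℝ, ∃ C : ℝ, 0 ≤ C ∧ ∀ a : ℝ → Fin n → ℂ, CL (n - 1) M a →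
    ∀ c d : ℝ, 0 ≤ c → d ≤ 1 → ∀ lam : ℝ → ℂ, ContinuousOn lam (Ioo c d) →
      (∀ t ∈ Ioo c d, (mk (a t)).eval (lam t) = 0) → ∀ s : ℝ, 0 < s →
        volume {t | t ∈ Ioo c d ∧ s < ‖deriv lam t‖} ≤ ENNReal.ofReal (C * s ^ (-q))

lemma mk_eval {m : ℕ} (b : Fin m → ℂ) (z : ℂ) :
    (mk b).eval z = z ^ m + ∑ i : Fin m, b i * z ^ (i:ℕ) := by
  unfold mk
  rw [Polynomial.eval_add, Polynomial.eval_pow, Polynomial.eval_X, Polynomial.eval_finsetSum]
  simp

lemma volume_scale {x0 δ : ℝ} (hδ : 0 < δ) (S : Set ℝ) :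
    volume S = ENNReal.ofReal δ * volume {τ : ℝ | x0 + δ * τ ∈ S} := by
  have h1 : {τ : ℝ | x0 + δ * τ ∈ S} = (fun τ => δ * τ) ⁻¹' ((fun y => x0 + y) ⁻¹' S) := rfl
  rw [h1, Real.volume_preimage_mul_left hδ.ne', measure_preimage_add, ← mul_assoc,
    ← ENNReal.ofReal_mul hδ.le, abs_of_pos (inv_pos.2 hδ), mul_inv_cancel₀ hδ.ne',
    ENNReal.ofReal_one, one_mul]

/-- A continuous root of a product of two polynomials without common roots is a root of one of
them. -/
lemma root_dichotomy {m k : ℕ} {b : ℝ → Fin m → ℂ} {c : ℝ → Fin k → ℂ} {V : Set ℝ}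
    (hV : IsOpen V) (hVc : IsPreconnected V) (hb : ContinuousOn b V) (hc : ContinuousOn c V)
    {lam : ℝ → ℂ} (hl : ContinuousOn lam V)
    (h0 : ∀ t ∈ V, (mk (b t) * mk (c t)).eval (lam t) = 0)
    (h1 : ∀ t ∈ V, ∀ z, ¬ ((mk (b t)).eval z = 0 ∧ (mk (c t)).eval z = 0)) :
    (∀ t ∈ V, (mk (b t)).eval (lam t) = 0) ∨ (∀ t ∈ V, (mk (c t)).eval (lam t) = 0) := by
  have hcont : ∀ {j : ℕ} {e : ℝ → Fin j → ℂ}, ContinuousOn e V →
      ContinuousOn (fun t => (mk (e t)).eval (lam t)) V := by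
    intro j e he
    simp only [mk_eval]
    apply (hl.pow _).add
    apply continuousOn_finsetSum
    intro i _
    exact ((continuousOn_pi.1 he) i).mul (hl.pow _)
  by_contra hcon
  rw [not_or] at hcon
  obtain ⟨hA, hB⟩ := hcon
  push Not at hA hB
  obtain ⟨t1, ht1, h2⟩ := hA
  obtain ⟨t2, ht2, h3⟩ := hB
  have ho1 := (hcont hb).isOpen_inter_preimage hV (isOpen_compl_singleton (x := (0:ℂ)))
  have ho2 := (hcont hc).isOpen_inter_preimage hV (isOpen_compl_singleton (x := (0:ℂ)))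
  have hsub := hVc.subset_left_of_subset_union ho1 ho2 ?_ ?_ ⟨t1, ht1, ht1, h2⟩
  · have h4 := (hsub ht2).2
    have h5 := h0 t2 ht2
    rw [Polynomial.eval_mul] at h5
    rcases mul_eq_zero.1 h5 with h6 | h6
    · exact h4 h6
    · exact h3 h6
  · rw [Set.disjoint_left]
    rintro t ⟨ht, h4⟩ ⟨_, h5⟩
    have h6 := h0 t ht
    rw [Polynomial.eval_mul] at h6
    rcases mul_eq_zero.1 h6 with h7 | h7
    · exact h4 h7
    · exact h5 h7
  · intro t ht
    by_cases h4 : (mk (b t)).eval (lam t) = 0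
    · right
      refine ⟨ht, fun h5 => h1 t ht _ ⟨h4, h5⟩⟩
    · left
      exact ⟨ht, h4⟩

/-- The variation of the coefficients on an interval where the integral of `G` is small. -/
lemma variation {n : ℕ} {a a' : ℝ → Fin n → ℂ} (hd : ∀ x ∈ U, HasDerivWithinAt a (a' x) U x)
    (hcont : ContinuousOn a' U)
    (hnull : ∀ i : Fin n, volume {t | t ∈ Ioo (0:ℝ) 1 ∧ 2 ≤ wt i ∧ a t i = 0 ∧ a' t i ≠ 0} = 0)
    {x0 x1 t0 B : ℝ} (hx0 : 0 ≤ x0) (hx1 : x1 ≤ 1) (ht0 : t0 ∈ Icc x0 x1) (hB0 : 0 ≤ B)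
    (hB : B ≤ 1) (hμ : 0 < mu (a t0)) (hint : IntegrableOn (GG a a') (Icc x0 x1))
    (hG : ∫ t in Icc x0 x1, GG a a' t ≤ B * mu (a t0)) (i : Fin n) :
    (∀ t ∈ Icc x0 x1, ‖a t i‖ ≤ (2 * mu (a t0)) ^ (wt i)) ∧
    ∀ t ∈ Icc x0 x1, ‖a t i - a t0 i‖ ≤ (2 * mu (a t0)) ^ (wt i - 1) * (B * mu (a t0)) := by
  have hIU : Icc x0 x1 ⊆ U := Icc_subset_Icc hx0 hx1
  set μ0 := mu (a t0) with hμ0
  have hdi : ∀ x ∈ U, HasDerivWithinAt (fun t => a t i) (a' x i) U x :=
    fun x hx => (hasDerivWithinAt_pi.1 (hd x hx)) i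
  have hai : ContinuousOn (fun t => a t i) U := fun x hx => (hdi x hx).continuousWithinAt
  have ha'i : ContinuousOn (fun t => a' t i) U := (continuousOn_pi.1 hcont) i
  obtain ⟨ts, hts, hmax⟩ := isCompact_Icc.exists_isMaxOn (⟨t0, ht0⟩ : (Icc x0 x1).Nonempty)
    ((hai.mono hIU).norm)
  have hmax' : ∀ t ∈ Icc x0 x1, ‖a t i‖ ≤ ‖a ts i‖ := fun t ht => hmax ht
  have hw := wt_pos i
  have hw' : (0:ℝ) < wt i := by exact_mod_cast hw
  set S : ℝ := ‖a ts i‖ ^ ((1:ℝ) / wt i) with hS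
  have hS0 : 0 ≤ S := by positivity
  have hSw : S ^ (wt i) = ‖a ts i‖ := by
    rw [hS, ← Real.rpow_natCast, ← Real.rpow_mul (norm_nonneg _)]
    have : (1:ℝ) / wt i * wt i = 1 := by field_simp
    rw [this, Real.rpow_one]
  have hSw1 : ∀ t ∈ Icc x0 x1, ‖a t i‖ ^ (1 - 1 / (wt i : ℝ)) ≤ S ^ (wt i - 1) := by
    intro t ht
    have h1 : ‖a t i‖ ^ (1 - 1 / (wt i : ℝ)) ≤ (S ^ (wt i)) ^ (1 - 1 / (wt i : ℝ)) := by
      apply Real.rpow_le_rpow (norm_nonneg _)
      · rw [hSw]; exact hmax' t ht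
      · have : (1:ℝ) ≤ wt i := by exact_mod_cast hw
        have h2 : 1 / (wt i : ℝ) ≤ 1 := by rw [div_le_one hw']; exact this
        linarith
    refine h1.trans (le_of_eq ?_)
    rw [← Real.rpow_natCast, ← Real.rpow_natCast, ← Real.rpow_mul hS0]
    congr 1
    rw [Nat.cast_sub hw]
    field_simp
    push_cast
    ring
  have hstar : ∀ t ∈ Icc x0 x1, ‖a t i - a t0 i‖ ≤ S ^ (wt i - 1) * (B * μ0) := by
    intro t ht
    have hsubI : uIcc t0 t ⊆ Icc x0 x1 := by
      rw [uIcc_eq_union]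
      exact union_subset (Icc_subset_Icc ht0.1 ht.2) (Icc_subset_Icc ht.1 ht0.2)
    have h1 : ∫ x in t0..t, a' x i = a t i - a t0 i := by
      apply intervalIntegral.integral_eq_sub_of_hasDeriv_right (f := fun x => a x i)
        (hai.mono (hsubI.trans hIU))
      · intro x hx
        have hxm : x ∈ Ioo x0 x1 := by
          have h2 : min t0 t ∈ Icc x0 x1 := by
            rcases min_choice t0 t with h | h <;> rw [h] <;> assumption
          have h3 : max t0 t ∈ Icc x0 x1 := by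
            rcases max_choice t0 t with h | h <;> rw [h] <;> assumption
          exact ⟨by linarith [hx.1, h2.1], by linarith [hx.2, h3.2]⟩
        have hxU : U ∈ nhds x := Icc_mem_nhds (by linarith [hxm.1]) (by linarith [hxm.2])
        exact ((hdi x (hIU (Ioo_subset_Icc_self hxm))).hasDerivAt hxU).hasDerivWithinAt
      · exact (ha'i.mono (hsubI.trans hIU)).intervalIntegrable
    rw [← h1]
    have hintn : IntegrableOn (fun x => ‖a' x i‖) (Icc x0 x1) :=
      (ha'i.mono hIU).norm.integrableOn_Icc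
    calc ‖∫ x in t0..t, a' x i‖ ≤ ∫ x in uIoc t0 t, ‖a' x i‖ :=
          intervalIntegral.norm_integral_le_integral_norm_uIoc
      _ ≤ ∫ x in Icc x0 x1, ‖a' x i‖ := by
          apply setIntegral_mono_set hintn
          · exact Filter.Eventually.of_forall (fun x => norm_nonneg _)
          · exact (uIoc_subset_uIcc.trans hsubI).eventuallyLE
      _ ≤ ∫ x in Icc x0 x1, S ^ (wt i - 1) * GG a a' x := by
          apply setIntegral_mono_ae_restrict hintn (hint.const_mul _)
          have hn0 : ∀ᵐ x : ℝ, ¬ (x ∈ Ioo (0:ℝ) 1 ∧ 2 ≤ wt i ∧ a x i = 0 ∧ a' x i ≠ 0) :=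
            measure_eq_zero_iff_ae_notMem.1 (hnull i)
          have hn1 : ∀ᵐ x : ℝ, x ≠ 0 := by
            rw [ae_iff]; simp
          have hn2 : ∀ᵐ x : ℝ, x ≠ 1 := by
            rw [ae_iff]; simp
          rw [Filter.EventuallyLE, ae_restrict_iff' measurableSet_Icc]
          filter_upwards [hn0, hn1, hn2] with x hx0' hx1' hx2' hx
          have hxU := hIU hx
          have hx01 : x ∈ Ioo (0:ℝ) 1 :=
            ⟨lt_of_le_of_ne hxU.1 (Ne.symm hx1'), lt_of_le_of_ne hxU.2 hx2'⟩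
          have hgg := gg_le_GG a a' i x
          have hSp : 0 ≤ S ^ (wt i - 1) := by positivity
          have hkey : ‖a' x i‖ ≤ S ^ (wt i - 1) * gg a a' i x := by
            by_cases hz : a x i = 0
            · by_cases hw2 : 2 ≤ wt i
              · have h3 : a' x i = 0 := by
                  by_contra h4
                  exact hx0' ⟨hx01, hw2, hz, h4⟩
                rw [h3, norm_zero]
                exact mul_nonneg hSp (gg_nonneg a a' i x)
              · have h3 : wt i = 1 := by omega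
                unfold gg
                rw [h3]
                norm_num
            · have h3 : (0:ℝ) < ‖a x i‖ ^ (1 - 1 / (wt i : ℝ)) :=
                Real.rpow_pos_of_pos (norm_pos_iff.2 hz) _
              have h4 : ‖a' x i‖ = ‖a x i‖ ^ (1 - 1 / (wt i : ℝ)) * gg a a' i x := by
                unfold gg
                field_simp
              rw [h4]
              exact mul_le_mul_of_nonneg_right (hSw1 x hx) (gg_nonneg a a' i x)
          exact hkey.trans (mul_le_mul_of_nonneg_left hgg hSp)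
      _ = S ^ (wt i - 1) * ∫ x in Icc x0 x1, GG a a' x := integral_const_mul _ _
      _ ≤ S ^ (wt i - 1) * (B * μ0) := mul_le_mul_of_nonneg_left hG (by positivity)
  have hpow : ∀ x : ℝ, x ^ (wt i) = x * x ^ (wt i - 1) := by
    intro x
    rw [← pow_succ']
    congr 1
    omega
  have hS2 : S ≤ 2 * μ0 := by
    by_contra hcon
    push Not at hcon
    have hSpos : 0 < S := by linarith
    have h1 := hstar ts hts
    have h2 : ‖a ts i‖ ≤ ‖a t0 i‖ + ‖a ts i - a t0 i‖ := by
      have := norm_add_le (a t0 i) (a ts i - a t0 i)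
      simpa using this
    have h3 := norm_le_mu_pow (a t0) i
    rw [← hμ0] at h3
    rw [← hSw] at h2
    have h4 : μ0 ^ (wt i) ≤ μ0 * S ^ (wt i - 1) := by
      rw [hpow]
      exact mul_le_mul_of_nonneg_left (pow_le_pow_left₀ hμ.le (by linarith) _) hμ.le
    have h5 : S ^ (wt i) ≤ S ^ (wt i - 1) * (μ0 + B * μ0) := by nlinarith
    rw [hpow, mul_comm] at h5
    have h6 : 0 < S ^ (wt i - 1) := by positivity
    have h7 := le_of_mul_le_mul_left h5 h6
    nlinarith
  constructor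
  · intro t ht
    refine (hmax' t ht).trans ?_
    rw [← hSw]
    exact pow_le_pow_left₀ hS0 hS2 _
  · intro t ht
    refine (hstar t ht).trans ?_
    exact mul_le_mul_of_nonneg_right (pow_le_pow_left₀ hS0 hS2 _) (by positivity)

end Pool.Agent.H47R3.WT
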