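import Pool.Agent.H47R3.WT.Local

/-!
The local estimate (continued).
-/

set_option autoImplicit false

namespace Pool.Agent.H47R3.WT

open Set MeasureTheory

lemma mu_scale {n : ℕ} (p : Fin n → ℂ) {c : ℝ} (hc : 0 ≤ c) :
    mu (fun i => (c ^ (wt i) : ℝ) • p i) = c * mu p := by
  unfold mu
  have h : (fun i : Fin n => ‖(c ^ (wt i) : ℝ) • p i‖ ^ ((1:ℝ) / wt i)) =
      c • (fun i : Fin n => ‖p i‖ ^ ((1:ℝ) / wt i)) := by
    funext i
    have hw : (0:ℝ) < wt i := by exact_mod_cast wt_pos i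
    rw [norm_smul, Real.norm_of_nonneg (by positivity), Real.mul_rpow (by positivity) (norm_nonneg _),
      Pi.smul_apply, smul_eq_mul]
    congr 1
    rw [← Real.rpow_natCast, ← Real.rpow_mul hc]
    have : (wt i : ℝ) * (1 / wt i) = 1 := by field_simp
    rw [this, Real.rpow_one]
  rw [h, norm_smul, Real.norm_of_nonneg hc]

/-- The weak type property with given constants. -/
def GoodC (n : ℕ) (q M C : ℝ) : Prop :=
  ∀ a : ℝ → Fin n → ℂ, CL (n - 1) M a →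
    ∀ c d : ℝ, 0 ≤ c → d ≤ 1 → ∀ lam : ℝ → ℂ, ContinuousOn lam (Ioo c d) →
      (∀ t ∈ Ioo c d, (mk (a t)).eval (lam t) = 0) → ∀ s : ℝ, 0 < s →
        volume {t | t ∈ Ioo c d ∧ s < ‖deriv lam t‖} ≤ ENNReal.ofReal (C * s ^ (-q))

lemma GoodC.mono {n : ℕ} {q M C C' : ℝ} (h : GoodC n q M C) (hC : C ≤ C') : GoodC n q M C' := by
  intro a ha c d hc hd lam h1 h2 s hs
  refine (h a ha c d hc hd lam h1 h2 s hs).trans (ENNReal.ofReal_le_ofReal ?_)
  exact mul_le_mul_of_nonneg_right hC (by positivity)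

lemma uniform_const {n : ℕ} {q : ℝ} (H : ∀ m, 1 ≤ m → m < n → Good m q) (M : ℝ) :
    ∃ C : ℝ, 0 ≤ C ∧ ∀ m, 1 ≤ m → m < n → GoodC m q M C := by
  have h1 : ∀ m : ℕ, ∃ C : ℝ, 0 ≤ C ∧ (1 ≤ m → m < n → GoodC m q M C) := by
    intro m
    by_cases hm : 1 ≤ m ∧ m < n
    · obtain ⟨C, hC0, hC⟩ := H m hm.1 hm.2 M
      exact ⟨C, hC0, fun _ _ => hC⟩
    · exact ⟨0, le_rfl, fun h2 h3 => absurd ⟨h2, h3⟩ hm⟩
  choose C hC0 hC using h1
  refine ⟨∑ m ∈ Finset.range n, C m, Finset.sum_nonneg (fun m _ => hC0 m), ?_⟩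
  intro m hm1 hmn
  exact (hC m hm1 hmn).mono
    (Finset.single_le_sum (fun j _ => hC0 j) (Finset.mem_range.2 hmn))

theorem local_est {n : ℕ} (hn : 2 ≤ n) {q : ℝ} (H : ∀ m, 1 ≤ m → m < n → Good m q) :
    ∃ B : ℝ, 0 < B ∧ B ≤ 1 ∧ ∀ M : ℝ, ∃ C : ℝ, 0 ≤ C ∧ ∀ a a' : ℝ → Fin n → ℂ,
    (∀ x ∈ U, HasDerivWithinAt a (a' x) U x) → (∀ x ∈ U, ‖a x‖ ≤ M) → CL (n - 2) M a' →
    (∀ i : Fin n, (i:ℕ) + 1 = n → ∀ x ∈ U, a x i = 0) →
    (∀ i : Fin n, volume {t | t ∈ Ioo (0:ℝ) 1 ∧ 2 ≤ wt i ∧ a t i = 0 ∧ a' t i ≠ 0} = 0) →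
    ∀ x0 δ t0 : ℝ, 0 ≤ x0 → 0 < δ → x0 + δ ≤ 1 → t0 ∈ Icc x0 (x0 + δ) → 0 < mu (a t0) →
    IntegrableOn (GG a a') (Icc x0 (x0 + δ)) →
    ∫ t in Icc x0 (x0 + δ), GG a a' t ≤ B * mu (a t0) →
    ∀ c d : ℝ, 0 ≤ c → d ≤ 1 → ∀ lam : ℝ → ℂ, ContinuousOn lam (Ioo c d) →
    (∀ t ∈ Ioo c d, (mk (a t)).eval (lam t) = 0) → ∀ s : ℝ, 0 < s →
    volume {t | t ∈ Ioo c d ∩ Ioo x0 (x0 + δ) ∧ s < ‖deriv lam t‖} ≤
      ENNReal.ofReal (δ * (C * (mu (a t0) / (s * δ)) ^ q)) := by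
  obtain ⟨ρ, hρ, hfact⟩ := fact_uniform hn
  obtain ⟨Cr, hCr1, hCr⟩ := CL.rescale (E := ℂ) (n - 1)
  refine ⟨min 1 (ρ / 2 ^ n), lt_min one_pos (by positivity), min_le_left _ _, fun M => ?_⟩
  obtain ⟨M', hM'⟩ := hfact (Cr * max (2 ^ n) |M|)
  obtain ⟨C, hC0, hC⟩ := uniform_const H M'
  refine ⟨C, hC0, ?_⟩
  intro a a' hd hb hCL hlast hnull x0 δ t0 hx0 hδ hx1 ht0 hμ hint hG c d hc hd1 lam hlam hroot s hs
  set B : ℝ := min 1 (ρ / 2 ^ n) with hB
  have hB0 : 0 < B := lt_min one_pos (by positivity)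
  have hB1 : B ≤ 1 := min_le_left _ _
  have hBρ : 2 ^ n * B ≤ ρ := by
    have h1 : B ≤ ρ / 2 ^ n := min_le_right _ _
    rw [le_div_iff₀ (by positivity)] at h1
    linarith
  set μ0 : ℝ := mu (a t0) with hμ0
  set κ : ℝ := μ0⁻¹ with hκ
  have hκ0 : 0 < κ := inv_pos.2 hμ
  have hκμ : κ * μ0 = 1 := inv_mul_cancel₀ hμ.ne'
  have hIU : Icc x0 (x0 + δ) ⊆ U := Icc_subset_Icc hx0 hx1
  have hvar := fun i => variation hd hCL.continuousOn hnull hx0 hx1 ht0 hB0.le hB1 hμ hint hG i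
  -- `δ ≤ μ0`
  have hδμ : δ ≤ μ0 := by
    have h1 : ∫ t in Icc x0 (x0 + δ), (1:ℝ) ≤ ∫ t in Icc x0 (x0 + δ), GG a a' t := by
      apply setIntegral_mono_on (by simp) hint measurableSet_Icc
      intro t _
      exact one_le_GG a a' t
    have h2 : ∫ t in Icc x0 (x0 + δ), (1:ℝ) = δ := by
      simp [hδ.le]
    rw [h2] at h1
    nlinarith
  have hδ1 : δ ≤ 1 := by linarith
  have hmem : ∀ τ ∈ U, x0 + δ * τ ∈ Icc x0 (x0 + δ) := by
    intro τ hτ
    exact ⟨by nlinarith [hτ.1], by nlinarith [hτ.2]⟩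
  -- rescaled coefficients
  set ua : ℝ → Fin n → ℂ := fun τ i => (κ ^ (wt i) : ℝ) • a (x0 + δ * τ) i with hua
  have hCLa : CL (n - 1) M a := by
    obtain ⟨j, rfl⟩ : ∃ j, n = j + 2 := ⟨n - 2, by omega⟩
    exact ⟨hb, a', hd, hCL⟩
  have hκw : ∀ i : Fin n, κ ^ (wt i) * (2 * μ0) ^ (wt i) ≤ 2 ^ n := by
    intro i
    rw [← mul_pow, show κ * (2 * μ0) = 2 * (κ * μ0) by ring, hκμ, mul_one]
    exact pow_le_pow_right₀ (by norm_num) (wt_le i)
  have hCLi : ∀ i, CL (n - 1) (Cr * max (2 ^ n) |M|) (fun τ => ua τ i) := by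
    intro i
    apply hCr (hCLa.eval i) hδ (by positivity) hx0 hx1
    · intro τ hτ
      rw [norm_smul, Real.norm_of_nonneg (by positivity)]
      refine le_trans ?_ (le_max_left _ _)
      refine le_trans ?_ (hκw i)
      exact mul_le_mul_of_nonneg_left ((hvar i).1 _ (hmem τ hτ)) (by positivity)
    · have h1 : κ ^ (wt i) * δ ^ (n - 1 + 1) ≤ 1 := by
        have e : δ ^ (n - 1 + 1) = δ ^ (wt i) * δ ^ (n - wt i) := by
          rw [← pow_add]
          congr 1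
          have := wt_le i
          omega
        rw [e, ← mul_assoc, ← mul_pow]
        have h2 : κ * δ ≤ 1 := by
          rw [← hκμ]
          exact mul_le_mul_of_nonneg_left hδμ hκ0.le
        have h3 : (κ * δ) ^ (wt i) ≤ 1 := pow_le_one₀ (by positivity) h2
        have h4 : δ ^ (n - wt i) ≤ 1 := pow_le_one₀ hδ.le hδ1
        have h5 : 0 ≤ δ ^ (n - wt i) := by positivity
        nlinarith
      have h6 : (0:ℝ) ≤ κ ^ (wt i) * δ ^ (n - 1 + 1) := by positivity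
      calc κ ^ (wt i) * δ ^ (n - 1 + 1) * M ≤ κ ^ (wt i) * δ ^ (n - 1 + 1) * |M| :=
            mul_le_mul_of_nonneg_left (le_abs_self M) h6
        _ ≤ 1 * |M| := mul_le_mul_of_nonneg_right h1 (abs_nonneg _)
        _ ≤ _ := by rw [one_mul]; exact le_max_right _ _
  have hCLu : CL (n - 1) (Cr * max (2 ^ n) |M|) ua := by
    apply CL.pi (by positivity) hCLi
  -- the centre
  set τ0 : ℝ := (t0 - x0) / δ with hτ0
  have hτ0e : x0 + δ * τ0 = t0 := by
    rw [hτ0]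
    field_simp
    ring
  have hτ0U : τ0 ∈ U := by
    constructor
    · exact div_nonneg (by linarith [ht0.1]) hδ.le
    · rw [hτ0, div_le_one hδ]
      linarith [ht0.2]
  have hpK : ua τ0 ∈ KK n := by
    constructor
    · have h1 : ua τ0 = fun i => (κ ^ (wt i) : ℝ) • (a t0) i := by
        simp only [hua, hτ0e]
      rw [h1, mu_scale _ hκ0.le, ← hμ0, hκμ]
    · intro i hi
      simp only [hua, hτ0e]
      rw [hlast i hi t0 (hIU ht0), smul_zero]
  have hclose : ∀ τ ∈ U, ua τ ∈ Metric.closedBall (ua τ0) ρ := by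
    intro τ hτ
    rw [mem_closedBall_iff_norm, pi_norm_le_iff_of_nonneg hρ.le]
    intro i
    have h1 := (hvar i).2 _ (hmem τ hτ)
    have h2 : ua τ i - ua τ0 i = (κ ^ (wt i) : ℝ) • (a (x0 + δ * τ) i - a t0 i) := by
      simp only [hua, hτ0e]
      rw [smul_sub]
    rw [Pi.sub_apply, h2, norm_smul, Real.norm_of_nonneg (by positivity)]
    have hw := wt_pos i
    have h3 : κ ^ (wt i) * ((2 * μ0) ^ (wt i - 1) * (B * μ0)) = 2 ^ (wt i - 1) * B := by
      have e : κ ^ (wt i) = κ ^ (wt i - 1) * κ := by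
        rw [← pow_succ]
        congr 1
        omega
      rw [e, mul_pow]
      have e2 : κ ^ (wt i - 1) * μ0 ^ (wt i - 1) = 1 := by rw [← mul_pow, hκμ, one_pow]
      calc κ ^ (wt i - 1) * κ * (2 ^ (wt i - 1) * μ0 ^ (wt i - 1) * (B * μ0))
          = (κ ^ (wt i - 1) * μ0 ^ (wt i - 1)) * (κ * μ0) * (2 ^ (wt i - 1) * B) := by ring
        _ = _ := by rw [e2, hκμ]; ring
    calc κ ^ (wt i) * ‖a (x0 + δ * τ) i - a t0 i‖
        ≤ κ ^ (wt i) * ((2 * μ0) ^ (wt i - 1) * (B * μ0)) :=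
          mul_le_mul_of_nonneg_left h1 (by positivity)
      _ = 2 ^ (wt i - 1) * B := h3
      _ ≤ 2 ^ n * B := by
          apply mul_le_mul_of_nonneg_right _ hB0.le
          exact pow_le_pow_right₀ (by norm_num) (by have := wt_le i; omega)
      _ ≤ ρ := hBρ
  obtain ⟨m, k, b, e, hm, hk, hmk, hCLb, hCLe, hbe⟩ := hM' ua hCLu ⟨ua τ0, hpK, hclose⟩
  -- the rescaled root
  set c' : ℝ := max 0 ((c - x0) / δ) with hc'
  set d' : ℝ := min 1 ((d - x0) / δ) with hd'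
  have hV : ∀ τ ∈ Ioo c' d', x0 + δ * τ ∈ Ioo c d := by
    intro τ hτ
    have h1 : (c - x0) / δ < τ := (le_max_right _ _).trans_lt hτ.1
    have h2 : τ < (d - x0) / δ := hτ.2.trans_le (min_le_right _ _)
    rw [div_lt_iff₀ hδ] at h1
    rw [lt_div_iff₀ hδ] at h2
    exact ⟨by linarith, by linarith⟩
  have hVU : Ioo c' d' ⊆ U := by
    intro τ hτ
    exact ⟨(le_max_left _ _).trans hτ.1.le, hτ.2.le.trans (min_le_left _ _)⟩
  set lamR : ℝ → ℂ := fun τ => (κ : ℂ) * lam (x0 + δ * τ) with hlamR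
  have hlamRc : ContinuousOn lamR (Ioo c' d') := by
    apply continuousOn_const.mul
    apply hlam.comp (by fun_prop) hV
  have hrootR : ∀ τ ∈ Ioo c' d', (mk (ua τ)).eval (lamR τ) = 0 := by
    intro τ hτ
    have h1 := hroot _ (hV τ hτ)
    rw [mk_eval] at h1 ⊢
    have h2 : (lamR τ) ^ n + ∑ i : Fin n, ua τ i * (lamR τ) ^ (i:ℕ) =
        (κ:ℂ) ^ n * (lam (x0 + δ * τ) ^ n + ∑ i : Fin n, a (x0 + δ * τ) i *
          lam (x0 + δ * τ) ^ (i:ℕ)) := by
      rw [mul_add, Finset.mul_sum, hlamR]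
      congr 1
      · simp only; ring
      · apply Finset.sum_congr rfl
        intro i _
        simp only [hua, Complex.real_smul]
        have e1 : (κ:ℂ) ^ n = (κ:ℂ) ^ (wt i) * (κ:ℂ) ^ (i:ℕ) := by
          rw [← pow_add]
          congr 1
          have := i.2
          unfold wt
          omega
        rw [e1, mul_pow]
        push_cast
        ring
    rw [h2, h1, mul_zero]
  have hdich := root_dichotomy isOpen_Ioo isPreconnected_Ioo (hCLb.continuousOn.mono hVU)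
    (hCLe.continuousOn.mono hVU) hlamRc
    (fun t ht => by rw [← (hbe t (hVU ht)).1]; exact hrootR t ht)
    (fun t ht => (hbe t (hVU ht)).2)
  have hs' : 0 < κ * δ * s := by positivity
  have hmeas : volume {τ | τ ∈ Ioo c' d' ∧ κ * δ * s < ‖deriv lamR τ‖} ≤
      ENNReal.ofReal (C * (κ * δ * s) ^ (-q)) := by
    rcases hdich with h | h
    · exact hC m hm (by omega) b (hCLb.of_le (by omega)) c' d' (le_max_left _ _)
        (min_le_left _ _) lamR hlamRc h _ hs'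
    · exact hC k hk (by omega) e (hCLe.of_le (by omega)) c' d' (le_max_left _ _)
        (min_le_left _ _) lamR hlamRc h _ hs'
  rw [volume_scale (x0 := x0) hδ, ENNReal.ofReal_mul hδ.le]
  apply mul_le_mul_right
  refine le_trans (measure_mono ?_) (hmeas.trans ?_)
  · rintro τ ⟨⟨h1, h2⟩, h3⟩
    have hτ : τ ∈ Ioo c' d' := by
      constructor
      · apply max_lt
        · have := h2.1
          nlinarith
        · rw [div_lt_iff₀ hδ]
          linarith [h1.1]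
      · apply lt_min
        · have := h2.2
          nlinarith
        · rw [lt_div_iff₀ hδ]
          linarith [h1.2]
    refine ⟨hτ, ?_⟩
    have hdiff : DifferentiableAt ℝ lam (x0 + δ * τ) := by
      by_contra hcon
      rw [deriv_zero_of_not_differentiableAt hcon, norm_zero] at h3
      linarith
    have h4 : HasDerivAt (fun τ : ℝ => x0 + δ * τ) δ τ := by
      simpa using ((hasDerivAt_id τ).const_mul δ).const_add x0
    have h5 : HasDerivAt lamR ((κ:ℂ) * (δ • deriv lam (x0 + δ * τ))) τ :=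
      (HasDerivAt.scomp τ hdiff.hasDerivAt h4).const_mul (κ:ℂ)
    rw [h5.deriv, norm_mul, norm_smul, Complex.norm_real, Real.norm_of_nonneg hκ0.le,
      Real.norm_of_nonneg hδ.le, ← mul_assoc]
    exact mul_lt_mul_of_pos_left h3 (by positivity)
  · apply ENNReal.ofReal_le_ofReal
    apply le_of_eq
    congr 1
    rw [Real.rpow_neg hs'.le, ← Real.inv_rpow hs'.le]
    congr 1
    rw [hκ]
    field_simp

end Pool.Agent.H47R3.WT
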