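import Pool.Agent.H47R3.WT.Interp
import Pool.Agent.H47R3.WT.Cover

/-!
The weak type estimate for radicals: if `f` is of class `C^{k,1}` then
`|{ |f'| > s |f|^(k/(k+1)) }| ≤ C s^(-(k+1)/k)`.
-/

set_option autoImplicit false

namespace Pool.Agent.H47R3.WT

open Set MeasureTheory Metric

/-- Change of variables on a piece where `f` is positive and injective. -/
lemma piece_pos {S : Set ℝ} (hS : MeasurableSet S) {f f' : ℝ → ℝ} {k : ℕ} {s W : ℝ}
    (hs : 0 < s) (hd : ∀ t ∈ S, HasDerivWithinAt f (f' t) S t) (hinj : InjOn f S)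
    (hpos : ∀ t ∈ S, 0 < f t) (hlow : ∀ t ∈ S, s * (f t) ^ ((k:ℝ) / (k + 1)) < |f' t|)
    (hW : ∀ t ∈ S, (f t) ^ ((1:ℝ) / (k + 1)) ≤ W) :
    volume S ≤ ENNReal.ofReal ((k + 1) * W / s) := by
  rcases S.eq_empty_or_nonempty with hemp | ⟨t0, ht0⟩
  · rw [hemp]; simp
  have hk : (0:ℝ) < k + 1 := by positivity
  have hW0 : 0 ≤ W := (Real.rpow_nonneg (hpos t0 ht0).le _).trans (hW t0 ht0)
  set φ : ℝ → ℝ := fun t => (f t) ^ ((1:ℝ) / (k + 1)) with hφ
  have hφd : ∀ t ∈ S, HasDerivWithinAt φ (f' t * ((1:ℝ) / (k + 1)) *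
      (f t) ^ ((1:ℝ) / (k + 1) - 1)) S t := by
    intro t ht
    exact (hd t ht).rpow_const (Or.inl (hpos t ht).ne')
  have hφi : InjOn φ S := by
    intro x hx y hy hxy
    apply hinj hx hy
    have h1 : (φ x) ^ ((k:ℝ) + 1) = (φ y) ^ ((k:ℝ) + 1) := by rw [hxy]
    simp only [hφ] at h1
    rw [← Real.rpow_mul (hpos x hx).le, ← Real.rpow_mul (hpos y hy).le] at h1
    have e : (1:ℝ) / (k + 1) * (k + 1) = 1 := by field_simp
    rwa [e, Real.rpow_one, Real.rpow_one] at h1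
  have h1 := lintegral_image_eq_lintegral_abs_deriv_mul hS hφd hφi (fun _ => 1)
  simp only [mul_one, lintegral_const, one_mul, Measure.restrict_apply MeasurableSet.univ,
    univ_inter] at h1
  have h2 : volume (φ '' S) ≤ ENNReal.ofReal W := by
    have h3 : φ '' S ⊆ Icc 0 W := by
      rintro _ ⟨t, ht, rfl⟩
      exact ⟨Real.rpow_nonneg (hpos t ht).le _, hW t ht⟩
    refine (measure_mono h3).trans ?_
    rw [Real.volume_Icc, sub_zero]
  have h4 : ENNReal.ofReal (s / (k + 1)) * volume S ≤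
      ∫⁻ x in S, ENNReal.ofReal |f' x * ((1:ℝ) / (k + 1)) * (f x) ^ ((1:ℝ) / (k + 1) - 1)| := by
    rw [← setLIntegral_const]
    apply setLIntegral_mono' hS
    intro x hx
    apply ENNReal.ofReal_le_ofReal
    have h5 := hlow x hx
    have h6 := hpos x hx
    have h7 : (0:ℝ) < (f x) ^ ((1:ℝ) / (k + 1) - 1) := Real.rpow_pos_of_pos h6 _
    rw [abs_mul, abs_mul, abs_of_pos h7, abs_of_pos (by positivity : (0:ℝ) < 1 / (k + 1))]
    have h8 : (f x) ^ ((k:ℝ) / (k + 1)) * (f x) ^ ((1:ℝ) / (k + 1) - 1) = 1 := by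
      rw [← Real.rpow_add h6]
      have : (k:ℝ) / (k + 1) + (1 / (k + 1) - 1) = 0 := by field_simp; ring
      rw [this, Real.rpow_zero]
    have h9 : s * (f x) ^ ((k:ℝ) / (k + 1)) * ((f x) ^ ((1:ℝ) / (k + 1) - 1) * (1 / (k + 1))) ≤
        |f' x| * ((f x) ^ ((1:ℝ) / (k + 1) - 1) * (1 / (k + 1))) :=
      mul_le_mul_of_nonneg_right h5.le (by positivity)
    calc s / (k + 1) = s * ((f x) ^ ((k:ℝ) / (k + 1)) * (f x) ^ ((1:ℝ) / (k + 1) - 1)) *
          (1 / (k + 1)) := by rw [h8]; ring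
      _ = s * (f x) ^ ((k:ℝ) / (k + 1)) * ((f x) ^ ((1:ℝ) / (k + 1) - 1) * (1 / (k + 1))) := by ring
      _ ≤ _ := h9
      _ = _ := by ring
  rw [← h1] at h4
  have h5 := h4.trans h2
  have h6 : (0:ℝ) < s / (k + 1) := by positivity
  have h7 : volume S ≤ ENNReal.ofReal W / ENNReal.ofReal (s / (k + 1)) := by
    rw [ENNReal.le_div_iff_mul_le (Or.inl (by simpa using h6)) (Or.inl (by simp)), mul_comm]
    exact h5
  refine h7.trans ?_
  rw [← ENNReal.ofReal_div_of_pos h6]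
  apply ENNReal.ofReal_le_ofReal
  apply le_of_eq
  field_simp

lemma Chain.continuousOn {k : ℕ} {F : ℕ → ℝ → ℝ} (hc : Chain k F) {M : ℝ} (hM : 0 ≤ M)
    (hl : ∀ x ∈ U, ∀ y ∈ U, |F k x - F k y| ≤ M * |x - y|) : ∀ i ≤ k, ContinuousOn (F i) U := by
  intro i hi
  rcases Nat.lt_or_ge i k with h | h
  · exact fun x hx => (hc i h x hx).continuousWithinAt
  · have : i = k := by omega
    subst this
    have : LipschitzOnWith ⟨M, hM⟩ (F i) U := by
      apply LipschitzOnWith.of_dist_le_mul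
      intro x hx y hy
      rw [Real.dist_eq, Real.dist_eq]
      exact hl x hx y hy
    exact this.continuousOn

/-- The bad set. -/
def bad (k : ℕ) (F : ℕ → ℝ → ℝ) (s : ℝ) : Set ℝ :=
  {t | t ∈ Ioo (0:ℝ) 1 ∧ s * |F 0 t| ^ ((k:ℝ) / (k + 1)) < |F 1 t|}

lemma bad_measurable {k : ℕ} {F : ℕ → ℝ → ℝ} (s : ℝ) (h0 : ContinuousOn (F 0) U)
    (h1 : ContinuousOn (F 1) U) : MeasurableSet (bad k F s) := by
  have hsub : Ioo (0:ℝ) 1 ⊆ U := Ioo_subset_Icc_self
  have hc : ContinuousOn (fun t => |F 1 t| - s * |F 0 t| ^ ((k:ℝ) / (k + 1))) (Ioo 0 1) := by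
    apply ContinuousOn.sub (h1.mono hsub).abs
    apply ContinuousOn.mul continuousOn_const
    apply ContinuousOn.rpow_const (h0.mono hsub).abs
    intro x _
    right
    positivity
  have h2 := hc.isOpen_inter_preimage isOpen_Ioo (isOpen_Ioi (a := (0:ℝ)))
  have h3 : bad k F s = Ioo 0 1 ∩ (fun t => |F 1 t| - s * |F 0 t| ^ ((k:ℝ) / (k + 1))) ⁻¹' Ioi 0 := by
    ext t
    simp only [bad, mem_ofPred_eq, mem_inter_iff, mem_preimage, mem_Ioi, sub_pos]
  rw [h3]
  exact h2.measurableSet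

lemma injOn_of_deriv_ne {k i : ℕ} {F : ℕ → ℝ → ℝ} (hc : Chain k F) (hi : i < k)
    {J : Set ℝ} (hJ : J.OrdConnected) (hJU : J ⊆ U) (hne : ∀ t ∈ J, F (i + 1) t ≠ 0) :
    InjOn (F i) J := by
  have key : ∀ x ∈ J, ∀ y ∈ J, x < y → F i x ≠ F i y := by
    intro x hx y hy hxy heq
    have hsub : Icc x y ⊆ J := hJ.out hx hy
    have hcont : ContinuousOn (F i) (Icc x y) :=
      fun z hz => ((hc i hi z (hJU (hsub hz))).continuousWithinAt).mono (hsub.trans hJU)
    obtain ⟨c, hc1, hc2⟩ := exists_hasDerivAt_eq_zero (f := F i) (f' := F (i + 1)) hxy hcont heq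
      (fun z hz => by
        have hzJ : z ∈ U := hJU (hsub (Ioo_subset_Icc_self hz))
        apply (hc i hi z hzJ).hasDerivAt
        have hx0 := (hJU hx).1
        have hy1 := (hJU hy).2
        exact Icc_mem_nhds (by linarith [hz.1]) (by linarith [hz.2]))
    exact hne c (hsub (Ioo_subset_Icc_self hc1)) hc2
  intro x hx y hy heq
  rcases lt_trichotomy x y with h | h | h
  · exact absurd heq (key x hx y hy h)
  · exact h
  · exact absurd heq.symm (key y hy x hx h)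

/-- The estimate for one sign. -/
lemma sign_piece {k : ℕ} {F : ℕ → ℝ → ℝ} (hk : 0 < k) (hc : Chain k F)
    (hF0 : ContinuousOn (F 0) U) (hF1 : ContinuousOn (F 1) U) {s W σ : ℝ} (hσ : |σ| = 1)
    (hs : 0 < s) {J : Set ℝ} (hJ : J.OrdConnected) (hJU : J ⊆ U) (hinj : InjOn (F 0) J)
    (hW : ∀ t ∈ bad k F s ∩ J, |F 0 t| ^ ((1:ℝ) / (k + 1)) ≤ W) :
    volume ((bad k F s ∩ J) ∩ {t | 0 < σ * F 0 t}) ≤ ENNReal.ofReal ((k + 1) * W / s) := by
  have hbm := bad_measurable (k := k) s hF0 hF1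
  have hσ0 : σ ≠ 0 := by
    intro h
    rw [h, abs_zero] at hσ
    norm_num at hσ
  have hm : MeasurableSet ((bad k F s ∩ J) ∩ {t | 0 < σ * F 0 t}) := by
    have hcont : ContinuousOn (fun t => σ * F 0 t) (Ioo 0 1) :=
      continuousOn_const.mul (hF0.mono Ioo_subset_Icc_self)
    have h1 := (hcont.isOpen_inter_preimage isOpen_Ioo (isOpen_Ioi (a := (0:ℝ)))).measurableSet
    have h2 : (bad k F s ∩ J) ∩ {t | 0 < σ * F 0 t} =
        (bad k F s ∩ J) ∩ (Ioo 0 1 ∩ (fun t => σ * F 0 t) ⁻¹' Ioi 0) := by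
      ext t
      simp only [mem_inter_iff, mem_ofPred_eq, mem_preimage, mem_Ioi]
      constructor
      · rintro ⟨⟨h3, h4⟩, h5⟩
        exact ⟨⟨h3, h4⟩, h3.1, h5⟩
      · rintro ⟨⟨h3, h4⟩, _, h5⟩
        exact ⟨⟨h3, h4⟩, h5⟩
    rw [h2]
    exact (hbm.inter hJ.measurableSet).inter h1
  have habs : ∀ t, 0 < σ * F 0 t → |F 0 t| = σ * F 0 t := by
    intro t ht
    rw [← abs_of_pos ht, abs_mul, hσ, one_mul]
  apply piece_pos hm hs (f := fun t => σ * F 0 t) (f' := fun t => σ * F 1 t)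
  · rintro t ⟨⟨_, ht⟩, _⟩
    have h1 := (hc 0 hk t (hJU ht)).const_mul σ
    apply h1.mono
    rintro x ⟨⟨_, hx⟩, _⟩
    exact hJU hx
  · rintro x ⟨⟨_, hx⟩, _⟩ y ⟨⟨_, hy⟩, _⟩ hxy
    exact hinj hx hy (mul_left_cancel₀ hσ0 hxy)
  · rintro t ⟨_, ht⟩
    exact ht
  · rintro t ⟨⟨hb, _⟩, ht⟩
    have h1 := hb.2
    rw [habs t ht] at h1
    rw [abs_mul, hσ, one_mul]
    exact h1
  · rintro t ⟨hb, ht⟩
    have h1 := hW t hb
    rw [habs t ht] at h1
    exact h1

/-- The estimate on an interval where `F (i + 1)` has no zero. -/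
lemma piece_bound {k : ℕ} {F : ℕ → ℝ → ℝ} (hc : Chain k F) (hF0 : ContinuousOn (F 0) U)
    (hF1 : ContinuousOn (F 1) U) {s W : ℝ} (hs : 0 < s) (i : ℕ) :
    ∀ {J : Set ℝ}, i < k → J.OrdConnected → J ⊆ U →
    (∀ t ∈ J, F (i + 1) t ≠ 0) →
    (∀ t ∈ bad k F s ∩ J, |F 0 t| ^ ((1:ℝ) / (k + 1)) ≤ W) →
    volume (bad k F s ∩ J) ≤ 2 ^ (i + 1) * ENNReal.ofReal ((k + 1) * W / s) := by
  induction i with
  | zero =>
    intro J hk hJ hJU hne hW
    have hinj := injOn_of_deriv_ne hc hk hJ hJU hne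
    have hp := sign_piece hk hc hF0 hF1 (σ := 1) (by simp) hs hJ hJU hinj hW
    have hm := sign_piece hk hc hF0 hF1 (σ := -1) (by simp) hs hJ hJU hinj hW
    have hz : volume (J ∩ {t | F 0 t = 0}) = 0 := by
      apply Set.Subsingleton.measure_zero
      rintro x ⟨hx, hx0⟩ y ⟨hy, hy0⟩
      have hx0' : F 0 x = 0 := hx0
      have hy0' : F 0 y = 0 := hy0
      exact hinj hx hy (by rw [hx0', hy0'])
    have hdec : bad k F s ∩ J ⊆ (((bad k F s ∩ J) ∩ {t | 0 < 1 * F 0 t}) ∪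
        ((bad k F s ∩ J) ∩ {t | 0 < -1 * F 0 t})) ∪ (J ∩ {t | F 0 t = 0}) := by
      intro t ht
      rcases lt_trichotomy (F 0 t) 0 with h | h | h
      · refine Or.inl (Or.inr ⟨ht, ?_⟩)
        show 0 < -1 * F 0 t
        linarith
      · exact Or.inr ⟨ht.2, h⟩
      · refine Or.inl (Or.inl ⟨ht, ?_⟩)
        show 0 < 1 * F 0 t
        linarith
    calc volume (bad k F s ∩ J) ≤ _ := measure_mono hdec
      _ ≤ _ := measure_union_le _ _
      _ ≤ _ := add_le_add (measure_union_le _ _) le_rfl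
      _ ≤ (ENNReal.ofReal ((k + 1) * W / s) + ENNReal.ofReal ((k + 1) * W / s)) + 0 :=
          add_le_add (add_le_add hp hm) hz.le
      _ = 2 ^ (0 + 1) * ENNReal.ofReal ((k + 1) * W / s) := by
          rw [add_zero, zero_add, pow_one, two_mul]
  | succ i ih =>
    intro J hk hJ hJU hne hW
    have hinj := injOn_of_deriv_ne hc hk hJ hJU hne
    by_cases hex : ∃ z ∈ J, F (i + 1) z = 0
    · obtain ⟨z, hzJ, hz⟩ := hex
      have h1 : ∀ t ∈ J ∩ Iio z, F (i + 1) t ≠ 0 := by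
        rintro t ⟨ht, htz⟩ h
        have := hinj ht hzJ (by rw [h, hz])
        rw [this] at htz
        simp at htz
      have h2 : ∀ t ∈ J ∩ Ioi z, F (i + 1) t ≠ 0 := by
        rintro t ⟨ht, htz⟩ h
        have := hinj ht hzJ (by rw [h, hz])
        rw [this] at htz
        simp at htz
      have h3 := ih (by omega) (hJ.inter ordConnected_Iio) (inter_subset_left.trans hJU) h1
        (fun t ht => hW t ⟨ht.1, ht.2.1⟩)
      have h4 := ih (by omega) (hJ.inter ordConnected_Ioi) (inter_subset_left.trans hJU) h2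
        (fun t ht => hW t ⟨ht.1, ht.2.1⟩)
      have hdec : bad k F s ∩ J ⊆ ((bad k F s ∩ (J ∩ Iio z)) ∪ (bad k F s ∩ (J ∩ Ioi z))) ∪ {z} := by
        rintro t ⟨ht, htJ⟩
        rcases lt_trichotomy t z with h | h | h
        · exact Or.inl (Or.inl ⟨ht, htJ, h⟩)
        · exact Or.inr h
        · exact Or.inl (Or.inr ⟨ht, htJ, h⟩)
      calc volume (bad k F s ∩ J) ≤ _ := measure_mono hdec
        _ ≤ _ := measure_union_le _ _
        _ ≤ _ := add_le_add (measure_union_le _ _) le_rfl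
        _ ≤ (2 ^ (i + 1) * ENNReal.ofReal ((k + 1) * W / s) +
              2 ^ (i + 1) * ENNReal.ofReal ((k + 1) * W / s)) + 0 := by
            apply add_le_add (add_le_add h3 h4)
            simp
        _ = 2 ^ (i + 1 + 1) * ENNReal.ofReal ((k + 1) * W / s) := by
            rw [add_zero, ← two_mul, ← mul_assoc, ← pow_succ']
    · push Not at hex
      refine (ih (by omega) hJ hJU hex hW).trans ?_
      gcongr
      · norm_num
      · omega

/-- Derivative bounds on an interval where all derivatives have a zero. -/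
lemma bound_of_zeros {k : ℕ} {F : ℕ → ℝ → ℝ} (hc : Chain k F) {M L : ℝ} (hM : 0 ≤ M) (hL : 0 ≤ L)
    (hl : ∀ x ∈ U, ∀ y ∈ U, |F k x - F k y| ≤ M * |x - y|) {J : Set ℝ} (hJ : Convex ℝ J)
    (hJU : J ⊆ U) (hJL : ∀ x ∈ J, ∀ y ∈ J, |x - y| ≤ L)
    (hz : ∀ i < k, ∃ y ∈ J, F (i + 1) y = 0) :
    ∀ m < k, ∀ x ∈ J, |F (k - m) x| ≤ M * L ^ (m + 1) := by
  intro m
  induction m with
  | zero =>
    intro hm x hx
    obtain ⟨y, hy, hy0⟩ := hz (k - 1) (by omega)
    rw [show k - 1 + 1 = k by omega] at hy0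
    have h1 := hl x (hJU hx) y (hJU hy)
    rw [hy0, sub_zero] at h1
    rw [Nat.sub_zero, zero_add, pow_one]
    exact h1.trans (mul_le_mul_of_nonneg_left (hJL x hx y hy) hM)
  | succ m ih =>
    intro hm x hx
    have h0 := ih (by omega)
    obtain ⟨y, hy, hy0⟩ := hz (k - (m + 1) - 1) (by omega)
    rw [show k - (m + 1) - 1 + 1 = k - (m + 1) by omega] at hy0
    have h1 := lip_of_deriv hJ (f := F (k - (m + 1))) (f' := F (k - m)) (M := M * L ^ (m + 1))
      (fun z hz => ?_) (fun z hz => by rw [Real.norm_eq_abs]; exact h0 z hz) x hx y hy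
    · rw [hy0, sub_zero, Real.norm_eq_abs] at h1
      calc |F (k - (m + 1)) x| ≤ M * L ^ (m + 1) * |x - y| := h1
        _ ≤ M * L ^ (m + 1) * L := mul_le_mul_of_nonneg_left (hJL x hx y hy) (by positivity)
        _ = M * L ^ (m + 1 + 1) := by ring
    · have h2 := hc (k - (m + 1)) (by omega) z (hJU hz)
      rw [show k - (m + 1) + 1 = k - m by omega] at h2
      exact h2.mono hJU

/-- The weak type estimate for real radicals. -/
theorem radical_real {k : ℕ} (hk : 0 < k) (M : ℝ) : ∃ C : ℝ, 0 ≤ C ∧ ∀ F : ℕ → ℝ → ℝ, Chain k F →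
    (∀ i ≤ k, ∀ x ∈ U, |F i x| ≤ M) → (∀ x ∈ U, ∀ y ∈ U, |F k x - F k y| ≤ M * |x - y|) →
    ∀ s : ℝ, 0 < s → volume (bad k F s) ≤ ENNReal.ofReal (C * s ^ (-((k:ℝ) + 1) / k)) := by
  obtain ⟨N, hN⟩ := cover_exists
  refine ⟨N * (3 / 2 * (2 ^ k * ((k + 1) * (4 * max M 0 ^ ((1:ℝ) / k))))), by positivity, ?_⟩
  intro F hc hb hl s hs
  have hM : 0 ≤ M := (abs_nonneg _).trans (hb 0 (Nat.zero_le _) 0 ⟨le_rfl, zero_le_one⟩)
  rw [max_eq_left hM]
  have hcont := hc.continuousOn hM hl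
  have hk' : (0:ℝ) < k := by exact_mod_cast hk
  -- the property defining the radius
  let P : ℝ → ℝ → Prop := fun t r => ∃ i < k, ∀ y ∈ Ioo (t - r) (t + r) ∩ U, F (i + 1) y ≠ 0
  have hex : ∀ t ∈ bad k F s, ∃ m : ℕ, P t (1 / 2 ^ m) := by
    rintro t ⟨ht, hts⟩
    have hF1 : F 1 t ≠ 0 := by
      intro h
      rw [h, abs_zero] at hts
      have : 0 ≤ s * |F 0 t| ^ ((k:ℝ) / (k + 1)) := by positivity
      linarith
    have h1 : ContinuousWithinAt (F 1) U t := hcont 1 hk t (Ioo_subset_Icc_self ht)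
    have h2 : ∀ᶠ y in nhdsWithin t U, F 1 y ≠ 0 := h1.eventually_ne hF1
    obtain ⟨ε, hε, hball⟩ := Metric.mem_nhdsWithin_iff.1 h2
    obtain ⟨m, hm⟩ := exists_pow_lt_of_lt_one hε (by norm_num : (1/2:ℝ) < 1)
    refine ⟨m, 0, hk, ?_⟩
    rintro y ⟨hy, hyU⟩
    apply hball
    refine ⟨?_, hyU⟩
    rw [mem_ball, Real.dist_eq, abs_lt]
    rw [one_div_pow] at hm
    constructor <;> linarith [hy.1, hy.2]
  classical
  let r : ℝ → ℝ := fun t => if h : t ∈ bad k F s then 1 / 2 ^ (Nat.find (hex t h)) else 1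
  have hr : ∀ t ∈ bad k F s, 0 < r t ∧ r t ≤ 1 := by
    intro t ht
    simp only [r, dif_pos ht]
    refine ⟨by positivity, ?_⟩
    rw [div_le_one (by positivity)]
    exact one_le_pow₀ (by norm_num)
  have hPr : ∀ t ∈ bad k F s, P t (r t) := by
    intro t ht
    simp only [r, dif_pos ht]
    exact Nat.find_spec (hex t ht)
  have hF1b : ∀ t ∈ bad k F s, ∀ x ∈ Ioo (t - r t) (t + r t) ∩ U, |F 1 x| ≤ M * (4 * r t) ^ k := by
    intro t ht x hx
    rcases Nat.eq_zero_or_pos (Nat.find (hex t ht)) with h0 | h0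
    · have hr1 : r t = 1 := by
        simp only [r, dif_pos ht]
        rw [h0]
        norm_num
      rw [hr1]
      have h1 := hb 1 hk x hx.2
      have h2 : (1:ℝ) ≤ (4 * 1) ^ k := one_le_pow₀ (by norm_num)
      nlinarith
    · have hmin := Nat.find_min (hex t ht) (m := Nat.find (hex t ht) - 1) (by omega)
      have hr2 : (1:ℝ) / 2 ^ (Nat.find (hex t ht) - 1) = 2 * r t := by
        simp only [r, dif_pos ht]
        obtain ⟨m, hm⟩ : ∃ m, Nat.find (hex t ht) = m + 1 := ⟨_, (Nat.succ_pred_eq_of_pos h0).symm⟩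
        rw [hm, Nat.add_sub_cancel, pow_succ]
        field_simp
      rw [hr2] at hmin
      simp only [P] at hmin
      push Not at hmin
      have h3 := bound_of_zeros hc hM (L := 4 * r t) (by linarith [(hr t ht).1]) hl
        (J := Ioo (t - 2 * r t) (t + 2 * r t) ∩ U) ((convex_Ioo _ _).inter (convex_Icc _ _))
        inter_subset_right ?_ ?_ (k - 1) (by omega) x ?_
      · rw [show k - (k - 1) = 1 by omega, show k - 1 + 1 = k by omega] at h3
        exact h3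
      · rintro x ⟨hx, _⟩ y ⟨hy, _⟩
        rw [abs_le]
        constructor <;> linarith [hx.1, hx.2, hy.1, hy.2]
      · intro i hi
        obtain ⟨y, hy, hy0⟩ := hmin i hi
        exact ⟨y, hy, hy0⟩
      · have h4 := (hr t ht).1
        exact ⟨⟨by linarith [hx.1.1], by linarith [hx.1.2]⟩, hx.2⟩
  obtain ⟨S, hS1, hS2, hS3, hS4⟩ := hN (bad k F s) r hr
  have hexp : (-((k:ℝ) + 1) / k) = -(1 / k) - 1 := by field_simp; ring
  set K : ℝ := 2 ^ k * ((k + 1) * (4 * M ^ ((1:ℝ) / k))) * s ^ (-((k:ℝ) + 1) / k) with hK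
  have hK0 : 0 ≤ K := by positivity
  have hlocal : ∀ t ∈ bad k F s, volume (bad k F s ∩ ball t (r t)) ≤ ENNReal.ofReal (K * r t) := by
    intro t ht
    obtain ⟨i, hik, hi⟩ := hPr t ht
    have hrt := (hr t ht).1
    set W : ℝ := 4 * r t * (M / s) ^ ((1:ℝ) / k) with hW
    have h1 := piece_bound hc (hcont 0 (Nat.zero_le _)) (hcont 1 hk) hs (W := W) i
      (J := Ioo (t - r t) (t + r t) ∩ U) hik (ordConnected_Ioo.inter ordConnected_Icc)
      inter_subset_right hi ?_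
    · have h2 : bad k F s ∩ ball t (r t) ⊆ bad k F s ∩ (Ioo (t - r t) (t + r t) ∩ U) := by
        rintro x ⟨hx, hxt⟩
        rw [Real.ball_eq_Ioo] at hxt
        exact ⟨hx, hxt, Ioo_subset_Icc_self hx.1⟩
      refine (measure_mono h2).trans (h1.trans ?_)
      have h3 : (2:ENNReal) ^ (i + 1) ≤ ENNReal.ofReal (2 ^ k) := by
        rw [ENNReal.ofReal_pow (by norm_num)]
        simp only [ENNReal.ofReal_ofNat]
        exact pow_le_pow_right₀ (by norm_num) (by omega)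
      refine (mul_le_mul_left h3 _).trans ?_
      rw [← ENNReal.ofReal_mul (by positivity)]
      apply ENNReal.ofReal_le_ofReal
      apply le_of_eq
      rw [hK, hW, hexp, Real.rpow_sub hs, Real.rpow_one, Real.rpow_neg hs.le,
        Real.div_rpow hM hs.le]
      field_simp
    · rintro x ⟨⟨_, hx⟩, hxJ⟩
      have h2 := hx.trans_le (hF1b t ht x hxJ)
      have h3 : |F 0 x| ^ ((k:ℝ) / (k + 1)) ≤ M * (4 * r t) ^ k / s := by
        rw [le_div_iff₀ hs, mul_comm]
        exact h2.le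
      have h4 := Real.rpow_le_rpow (z := (1:ℝ) / k) (by positivity) h3 (by positivity)
      rw [← Real.rpow_mul (abs_nonneg _)] at h4
      have e1 : (k:ℝ) / (k + 1) * (1 / k) = 1 / (k + 1) := by field_simp
      rw [e1] at h4
      refine h4.trans (le_of_eq ?_)
      rw [hW, show M * (4 * r t) ^ k / s = (4 * r t) ^ k * (M / s) by ring,
        Real.mul_rpow (by positivity) (by positivity), ← Real.rpow_natCast,
        ← Real.rpow_mul (by positivity)]
      have e2 : (k:ℝ) * (1 / k) = 1 := by field_simp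
      rw [e2, Real.rpow_one]
  have hfin := measure_le_of_cover hS2 hS4 (b := fun t => ENNReal.ofReal (K * r t))
    (fun i t ht => hlocal t (hS1 i ht)) (B := ENNReal.ofReal (K * (3 / 2))) ?_
  · refine hfin.trans ?_
    rw [show (N : ENNReal) = ENNReal.ofReal N by simp, ← ENNReal.ofReal_mul (by positivity)]
    apply ENNReal.ofReal_le_ofReal
    apply le_of_eq
    rw [hK]
    ring
  · intro i
    have h1 : ∀ t : S i, ENNReal.ofReal (K * r t) = ENNReal.ofReal K * ENNReal.ofReal (r t) :=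
      fun t => ENNReal.ofReal_mul hK0
    simp_rw [h1]
    rw [ENNReal.tsum_mul_left, ENNReal.ofReal_mul hK0]
    exact mul_le_mul_right (sum_radii_le (fun x hx => Ioo_subset_Icc_self hx.1) hr (hS1 i)
      (hS2 i) (hS3 i)) _

end Pool.Agent.H47R3.WT
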