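import Pool.Agent.H47R3.WT.Tsch
import Pool.Agent.H47R3.WT.Hinge
import Pool.Agent.H47R3.WT.Cover

/-!
The induction step.
-/

set_option autoImplicit false

namespace Pool.Agent.H47R3.WT

open Set MeasureTheory Metric

lemma GG_aemeasurable {n : ℕ} {a a' : ℝ → Fin n → ℂ} (ha : ContinuousOn a U)
    (ha' : ContinuousOn a' U) : AEMeasurable (GG a a') (volume.restrict (Ioo 0 1)) := by
  have h1 : ∀ i, AEMeasurable (fun t => a t i) (volume.restrict (Ioo (0:ℝ) 1)) := by
    intro i
    exact (((continuousOn_pi.1 ha) i).mono Ioo_subset_Icc_self).aemeasurable measurableSet_Ioo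
  have h2 : ∀ i, AEMeasurable (fun t => a' t i) (volume.restrict (Ioo (0:ℝ) 1)) := by
    intro i
    exact (((continuousOn_pi.1 ha') i).mono Ioo_subset_Icc_self).aemeasurable measurableSet_Ioo
  unfold GG gg
  apply AEMeasurable.const_add
  apply Finset.aemeasurable_fun_sum
  intro i _
  exact (h2 i).norm.div ((h1 i).norm.pow_const _)

lemma GG_integrable {n : ℕ} {a a' : ℝ → Fin n → ℂ} (ha : ContinuousOn a U)
    (ha' : ContinuousOn a' U) {C p : ℝ} (hC : 0 ≤ C) (hp : 1 < p)
    (hw : ∀ u : ℝ, 0 < u → volume {t | t ∈ Ioo (0:ℝ) 1 ∧ u < GG a a' t} ≤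
      ENNReal.ofReal (C * u ^ (-p))) : IntegrableOn (GG a a') U := by
  rw [integrableOn_Icc_iff_integrableOn_Ioo]
  obtain ⟨C', hC', h⟩ := hinge_integral hC hp
  have hm := GG_aemeasurable ha ha'
  have h1 := h (GG a a') hm hw 1 one_pos
  refine ⟨hm.aestronglyMeasurable, ?_⟩
  rw [hasFiniteIntegral_iff_ofReal (Filter.Eventually.of_forall
    (fun t => zero_le_one.trans (one_le_GG a a' t)))]
  calc ∫⁻ t in Ioo 0 1, ENNReal.ofReal (GG a a' t)
      ≤ ∫⁻ t in Ioo 0 1, (ENNReal.ofReal (GG a a' t - 1) + 1) := by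
        apply lintegral_mono
        intro t
        have h2 : GG a a' t = (GG a a' t - 1) + 1 := by ring
        show ENNReal.ofReal (GG a a' t) ≤ ENNReal.ofReal (GG a a' t - 1) + 1
        conv_lhs => rw [h2]
        rw [ENNReal.ofReal_add (by linarith [one_le_GG a a' t]) zero_le_one, ENNReal.ofReal_one]
    _ = (∫⁻ t in Ioo 0 1, ENNReal.ofReal (GG a a' t - 1)) + ∫⁻ _t in Ioo (0:ℝ) 1, 1 :=
        lintegral_add_right _ measurable_const
    _ < ⊤ := by
        rw [ENNReal.add_lt_top]
        refine ⟨h1.trans_lt ENNReal.ofReal_lt_top, ?_⟩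
        rw [lintegral_const]
        simp

lemma null_zero (lam : ℝ → ℂ) : volume {t | lam t = 0 ∧ deriv lam t ≠ 0} = 0 := by
  apply Set.Countable.measure_zero
  have h := countable_setOfPred_isolated_right_within (s := {t : ℝ | lam t = 0})
  refine h.mono ?_
  rintro t ⟨ht, hd⟩
  refine ⟨ht, ?_⟩
  have hdiff : DifferentiableAt ℝ lam t := by
    by_contra hcon
    exact hd (deriv_zero_of_not_differentiableAt hcon)
  have h1 := hdiff.hasDerivAt.eventually_ne (c := 0) hd
  have h2 : ∀ᶠ _z in nhdsWithin t ({t : ℝ | lam t = 0} ∩ Ioi t), False := by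
    have h3 : nhdsWithin t ({t : ℝ | lam t = 0} ∩ Ioi t) ≤ nhdsWithin t {t}ᶜ :=
      nhdsWithin_mono _ (fun z hz => ne_of_gt hz.2)
    have h4 := h3 h1
    filter_upwards [h4, self_mem_nhdsWithin] with z hz1 hz2
    exact hz1 hz2.1
  rwa [Filter.eventually_false_iff_eq_bot] at h2

lemma exists_radius {G : ℝ → ℝ} (hG : IntegrableOn G U) {t : ℝ}
    (ht : t ∈ Ioo (0:ℝ) 1) {b : ℝ} (hb : 0 < b) (hb2 : b < ∫ x in U, G x) :
    ∃ r, 0 < r ∧ r ≤ 1 ∧ ∫ x in Icc (max 0 (t - r)) (min 1 (t + r)), G x = b := by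
  have hU : uIcc (0:ℝ) 1 = U := uIcc_of_le zero_le_one
  have hF : ContinuousOn (fun x => ∫ y in (0:ℝ)..x, G y) U := by
    rw [← hU]
    apply intervalIntegral.continuousOn_primitive_interval
    rw [hU]
    exact hG
  have hm0 : ∀ r ∈ Icc (0:ℝ) 1, max 0 (t - r) ∈ U := by
    intro r hr
    refine ⟨le_max_left _ _, max_le zero_le_one ?_⟩
    linarith [hr.1, ht.2]
  have hm1 : ∀ r ∈ Icc (0:ℝ) 1, min 1 (t + r) ∈ U := by
    intro r hr
    refine ⟨le_min zero_le_one ?_, min_le_left _ _⟩
    linarith [hr.1, ht.1]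
  have hg : ContinuousOn (fun r => (∫ y in (0:ℝ)..(min 1 (t + r)), G y) -
      ∫ y in (0:ℝ)..(max 0 (t - r)), G y) (Icc 0 1) := by
    apply ContinuousOn.sub
    · exact hF.comp (f := fun r => min 1 (t + r)) (by fun_prop) hm1
    · exact hF.comp (f := fun r => max 0 (t - r)) (by fun_prop) hm0
  have hIVT := intermediate_value_Icc (zero_le_one (α := ℝ)) hg
  have h0 : (∫ y in (0:ℝ)..(min 1 (t + 0)), G y) - ∫ y in (0:ℝ)..(max 0 (t - 0)), G y = 0 := by
    rw [add_zero, sub_zero, min_eq_right ht.2.le, max_eq_right ht.1.le, sub_self]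
  have h1 : (∫ y in (0:ℝ)..(min 1 (t + 1)), G y) - ∫ y in (0:ℝ)..(max 0 (t - 1)), G y =
      ∫ x in U, G x := by
    rw [min_eq_left (by linarith [ht.1]), max_eq_left (by linarith [ht.2]),
      intervalIntegral.integral_same, sub_zero, intervalIntegral.integral_of_le zero_le_one,
      integral_Icc_eq_integral_Ioc]
  obtain ⟨r, hr, hrb⟩ := hIVT (show b ∈ Icc _ _ by
    rw [h0, h1]
    exact ⟨hb.le, hb2.le⟩)
  simp only at hrb
  have hr0 : r ≠ 0 := by
    rintro rfl
    rw [h0] at hrb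
    exact hb.ne hrb
  refine ⟨r, lt_of_le_of_ne hr.1 (Ne.symm hr0), hr.2, ?_⟩
  have hle : max 0 (t - r) ≤ min 1 (t + r) := by
    apply max_le
    · exact (hm1 r hr).1
    · exact le_min (by linarith [ht.2, hr.1]) (by linarith [hr.1])
  have hint : ∀ x ∈ U, IntervalIntegrable G volume 0 x := by
    intro x hx
    rw [intervalIntegrable_iff_integrableOn_Icc_of_le hx.1]
    exact hG.mono_set (Icc_subset_Icc le_rfl hx.2)
  rw [← hrb, integral_Icc_eq_integral_Ioc, ← intervalIntegral.integral_of_le hle]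
  rw [intervalIntegral.integral_interval_sub_left (hint _ (hm1 r hr)) (hint _ (hm0 r hr))]

theorem step {n : ℕ} (hn : 2 ≤ n) {q : ℝ} (hpq : (n:ℝ) / (n - 1) < q)
    (H : ∀ m, 1 ≤ m → m < n → Good m q) : Good n ((n:ℝ) / (n - 1)) := by
  set p : ℝ := (n:ℝ) / (n - 1) with hp
  have hn' : (2:ℝ) ≤ n := by exact_mod_cast hn
  have hp1 : 1 < p := by
    rw [hp, lt_div_iff₀ (by linarith)]
    linarith
  have hp0 : 0 < p := by linarith
  have hq0 : 0 < q := by linarith
  apply good_of_last hn hp0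
  intro M
  obtain ⟨Cw, hCw1, hCw⟩ := GG_weak hn M
  obtain ⟨B, hB0, hB1, hloc⟩ := local_est hn H
  obtain ⟨C2, hC20, hC2⟩ := hloc M
  obtain ⟨C3, hC30, hC3⟩ := sum_intervals (C := Cw) (p := p) (q := q) (by linarith) hp1 hpq
  obtain ⟨N, hN⟩ := cover_exists
  set D : ℝ := |M| + 1 with hD
  have hD0 : 0 < D := by positivity
  refine ⟨1 + C2 * D ^ q + N * (max C2 1 * (C3 * B ^ (-p))), by positivity, ?_⟩
  intro a ha hlast c d hc hd lam hlam hroot s hs
  obtain ⟨j, hj⟩ : ∃ j, n - 1 = j + 1 := ⟨n - 2, by omega⟩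
  have hj2 : j = n - 2 := by omega
  rw [hj] at ha
  obtain ⟨hb, a', hd', hCL'⟩ := ha
  rw [hj2] at hCL'
  have haU : ContinuousOn a U := fun x hx => (hd' x hx).continuousWithinAt
  obtain ⟨hw, hnull⟩ := hCw a a' hd' hb hCL'
  have hint : IntegrableOn (GG a a') U :=
    GG_integrable haU hCL'.continuousOn (by linarith) hp1 hw
  have hsub : Ioo c d ⊆ Ioo 0 1 := Ioo_subset_Ioo hc hd
  have hsp : 0 < s ^ (-p) := by positivity
  set E : Set ℝ := {t | t ∈ Ioo c d ∧ 0 < mu (a t) ∧ s < ‖deriv lam t‖} with hE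
  have hE0 : volume {t | t ∈ Ioo c d ∧ s < ‖deriv lam t‖} ≤ volume E := by
    have h1 : {t | t ∈ Ioo c d ∧ s < ‖deriv lam t‖} ⊆
        E ∪ {t | lam t = 0 ∧ deriv lam t ≠ 0} := by
      rintro t ⟨ht, hts⟩
      rcases (mu_nonneg (a t)).lt_or_eq with h | h
      · left
        exact ⟨ht, h, hts⟩
      · right
        have h2 : a t = 0 := eq_zero_of_mu h.symm
        have h3 := hroot t ht
        rw [mk_eval, h2] at h3
        simp only [Pi.zero_apply, zero_mul, Finset.sum_const_zero, add_zero] at h3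
        refine ⟨pow_eq_zero_iff (by omega) |>.1 h3, ?_⟩
        intro h4
        rw [h4, norm_zero] at hts
        linarith
    refine (measure_mono h1).trans ((measure_union_le _ _).trans ?_)
    rw [null_zero, add_zero]
  refine hE0.trans ?_
  by_cases hcase : ∃ t0 ∈ U, 0 < mu (a t0) ∧ ∫ t in U, GG a a' t ≤ B * mu (a t0)
  · obtain ⟨t0, ht0, hμ, hG⟩ := hcase
    rcases lt_or_ge s 1 with hs1 | hs1
    · refine (volume_Ioo01_le _ (fun t ht => hsub ht.1)).trans ?_
      rw [← ENNReal.ofReal_one]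
      apply ENNReal.ofReal_le_ofReal
      have h1 : (1:ℝ) ≤ s ^ (-p) :=
        Real.one_le_rpow_of_pos_of_le_one_of_nonpos hs hs1.le (by linarith)
      have h2 : 0 ≤ C2 * D ^ q + N * (max C2 1 * (C3 * B ^ (-p))) := by positivity
      nlinarith
    · have e01 : (0:ℝ) + 1 = 1 := by norm_num
      have h1 := hC2 a a' hd' hb hCL' hlast hnull 0 1 t0 le_rfl one_pos (by norm_num)
        (by rw [e01]; exact ht0) hμ (by rw [e01]; exact hint) (by rw [e01]; exact hG)
        c d hc hd lam hlam hroot s hs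
      refine le_trans (measure_mono ?_) (h1.trans ?_)
      · rintro t ⟨ht, _, hts⟩
        refine ⟨⟨ht, ?_⟩, hts⟩
        rw [e01]
        exact hsub ht
      · apply ENNReal.ofReal_le_ofReal
        have hμD : mu (a t0) ≤ D := by
          apply mu_le_of_norm hD0.le
          intro i
          have h2 : ‖a t0 i‖ ≤ M := (norm_le_pi_norm _ i).trans (hb t0 ht0)
          have h3 : D ^ 1 ≤ D ^ (wt i) :=
            pow_le_pow_right₀ (by rw [hD]; linarith [abs_nonneg M]) (wt_pos i)
          rw [pow_one] at h3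
          linarith [le_abs_self M]
        have h2 : (mu (a t0) / (s * 1)) ^ q ≤ D ^ q * s ^ (-p) := by
          rw [mul_one, Real.div_rpow (mu_nonneg _) hs.le, div_eq_mul_inv, ← Real.rpow_neg hs.le]
          exact mul_le_mul (Real.rpow_le_rpow (mu_nonneg _) hμD hq0.le)
            (Real.rpow_le_rpow_of_exponent_le hs1 (by linarith)) (by positivity) (by positivity)
        have h3 : C2 * (mu (a t0) / (s * 1)) ^ q ≤ C2 * (D ^ q * s ^ (-p)) :=
          mul_le_mul_of_nonneg_left h2 hC20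
        have h4 : 0 ≤ (1 + N * (max C2 1 * (C3 * B ^ (-p)))) * s ^ (-p) := by positivity
        linarith
  · push Not at hcase
    have hrad : ∀ t : ℝ, ∃ r : ℝ, t ∈ E → 0 < r ∧ r ≤ 1 ∧
        ∫ x in Icc (max 0 (t - r)) (min 1 (t + r)), GG a a' x = B * mu (a t) := by
      intro t
      by_cases ht : t ∈ E
      · obtain ⟨r, hr⟩ := exists_radius hint (hsub ht.1) (mul_pos hB0 ht.2.1)
          (hcase t (Ioo_subset_Icc_self (hsub ht.1)) ht.2.1)
        exact ⟨r, fun _ => hr⟩
      · exact ⟨0, fun h => absurd h ht⟩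
    choose r hr using hrad
    obtain ⟨S, hS1, hS2, hS3, hS4⟩ := hN E r (fun t ht => ⟨(hr t ht).1, (hr t ht).2.1⟩)
    set x0 : ℝ → ℝ := fun t => max 0 (t - r t) with hx0
    set x1 : ℝ → ℝ := fun t => min 1 (t + r t) with hx1
    have hx0t : ∀ t ∈ E, x0 t < t := by
      intro t ht
      exact max_lt (hsub ht.1).1 (by linarith [(hr t ht).1])
    have hx1t : ∀ t ∈ E, t < x1 t := by
      intro t ht
      exact lt_min (hsub ht.1).2 (by linarith [(hr t ht).1])
    have hx00 : ∀ t, 0 ≤ x0 t := fun t => le_max_left _ _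
    have hx11 : ∀ t, x1 t ≤ 1 := fun t => min_le_left _ _
    set δ : ℝ → ℝ := fun t => x1 t - x0 t with hδ
    have hδ0 : ∀ t ∈ E, 0 < δ t := by
      intro t ht
      have h1 := hx0t t ht
      have h2 := hx1t t ht
      simp only [hδ]
      linarith
    have hδe : ∀ t, x0 t + δ t = x1 t := by
      intro t
      simp only [hδ]
      ring
    set X : ℝ → ℝ := fun t => mu (a t) / (s * δ t) with hX
    have hX0 : ∀ t ∈ E, 0 < X t := by
      intro t ht
      have h1 := hδ0 t ht
      have h2 := ht.2.1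
      simp only [hX]
      positivity
    have hJ : ∀ t ∈ E, ball t (r t) ∩ Ioo 0 1 ⊆ Ioo (x0 t) (x1 t) := by
      rintro t ht x ⟨hx1', hx2'⟩
      rw [mem_ball, Real.dist_eq, abs_lt] at hx1'
      exact ⟨max_lt hx2'.1 (by linarith [hx1'.1]), lt_min hx2'.2 (by linarith [hx1'.2])⟩
    have hJ2 : ∀ t, Ioo (x0 t) (x1 t) ⊆ ball t (r t) := by
      intro t x hx
      rw [mem_ball, Real.dist_eq, abs_lt]
      have h1 : t - r t ≤ x0 t := le_max_right _ _
      have h2 : x1 t ≤ t + r t := min_le_right _ _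
      exact ⟨by linarith [hx.1], by linarith [hx.2]⟩
    have hGi : ∀ t ∈ E, ∫ x in Icc (x0 t) (x1 t), GG a a' x = B * mu (a t) :=
      fun t ht => (hr t ht).2.2
    have hball : ∀ t ∈ E, volume (E ∩ ball t (r t)) ≤
        ENNReal.ofReal (max C2 1) * ENNReal.ofReal (δ t * min 1 (X t ^ q)) := by
      intro t ht
      have hX1 := hX0 t ht
      have hδ1 := hδ0 t ht
      have h1 := hC2 a a' hd' hb hCL' hlast hnull (x0 t) (δ t) t (hx00 t) hδ1
        (by rw [hδe]; exact hx11 t) (by rw [hδe]; exact ⟨(hx0t t ht).le, (hx1t t ht).le⟩)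
        ht.2.1 (by rw [hδe]; exact hint.mono_set (Icc_subset_Icc (hx00 t) (hx11 t)))
        (by rw [hδe]; exact (hGi t ht).le) c d hc hd lam hlam hroot s hs
      rw [hδe] at h1
      have h2 : volume (E ∩ ball t (r t)) ≤ ENNReal.ofReal (δ t * (C2 * X t ^ q)) := by
        refine le_trans (measure_mono ?_) h1
        rintro x ⟨hx, hxb⟩
        exact ⟨⟨hx.1, hJ t ht ⟨hxb, hsub hx.1⟩⟩, hx.2.2⟩
      have h3 : volume (E ∩ ball t (r t)) ≤ ENNReal.ofReal (δ t) := by
        have h4 : E ∩ ball t (r t) ⊆ Ioo (x0 t) (x1 t) := by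
          rintro x ⟨hx, hxb⟩
          exact hJ t ht ⟨hxb, hsub hx.1⟩
        refine (measure_mono h4).trans ?_
        rw [Real.volume_Ioo]
      rw [← ENNReal.ofReal_mul (by positivity)]
      rcases le_total 1 (X t ^ q) with h | h
      · rw [min_eq_left h]
        refine h3.trans (ENNReal.ofReal_le_ofReal ?_)
        have := le_max_right C2 1
        nlinarith
      · rw [min_eq_right h]
        refine h2.trans (ENNReal.ofReal_le_ofReal ?_)
        have h4 := le_max_left C2 1
        have h5 : 0 ≤ δ t * X t ^ q := by positivity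
        nlinarith
    have hsum : ∀ i, ∑' t : S i, ENNReal.ofReal (max C2 1) *
        ENNReal.ofReal (δ t * min 1 (X t ^ q)) ≤
        ENNReal.ofReal (max C2 1) * ENNReal.ofReal (C3 * (B * s) ^ (-p)) := by
      intro i
      rw [ENNReal.tsum_mul_left]
      apply mul_le_mul_right
      apply hC3 (GG a a') (hint.mono_set Ioo_subset_Icc_self) hw (B * s) (by positivity) (S i)
        (fun t => Ioo (x0 t) (x1 t)) δ X (hS2 i) (fun t _ => measurableSet_Ioo)
      · intro t _
        exact Ioo_subset_Ioo (hx00 t) (hx11 t)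
      · intro t ht t' ht' hne
        exact (hS3 i ht ht' hne).mono (hJ2 t) (hJ2 t')
      · intro t ht
        exact (hδ0 t (hS1 i ht)).le
      · intro t _
        rw [Real.volume_Ioo]
      · intro t ht
        exact hX0 t (hS1 i ht)
      · intro t ht
        have h1 := hδ0 t (hS1 i ht)
        rw [← integral_Icc_eq_integral_Ioo, hGi t (hS1 i ht)]
        simp only [hX]
        field_simp
    refine (measure_le_of_cover hS2 hS4 (fun i t ht => hball t (hS1 i ht)) hsum).trans ?_
    rw [← ENNReal.ofReal_mul (by positivity), ← ENNReal.ofReal_natCast,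
      ← ENNReal.ofReal_mul (by positivity)]
    apply ENNReal.ofReal_le_ofReal
    rw [Real.mul_rpow hB0.le hs.le]
    have h4 : 0 ≤ (1 + C2 * D ^ q) * s ^ (-p) := by positivity
    calc (N:ℝ) * (max C2 1 * (C3 * (B ^ (-p) * s ^ (-p))))
        = N * (max C2 1 * (C3 * B ^ (-p))) * s ^ (-p) := by ring
      _ ≤ _ := by
        rw [add_mul (1 + C2 * D ^ q)]
        linarith

lemma Good.exponent_mono {n : ℕ} {q q' : ℝ} (h : Good n q) (h0 : 0 < q') (hq : q' ≤ q) :
    Good n q' := by
  intro M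
  obtain ⟨C, hC0, hC⟩ := h M
  refine ⟨C + 1, by positivity, ?_⟩
  intro a ha c d hc hd lam hlam hroot s hs
  have hsub : Ioo c d ⊆ Ioo 0 1 := Ioo_subset_Ioo hc hd
  rcases lt_or_ge s 1 with hs1 | hs1
  · refine (volume_Ioo01_le _ (fun t ht => hsub ht.1)).trans ?_
    rw [← ENNReal.ofReal_one]
    apply ENNReal.ofReal_le_ofReal
    have h1 : (1:ℝ) ≤ s ^ (-q') :=
      Real.one_le_rpow_of_pos_of_le_one_of_nonpos hs hs1.le (by linarith)
    nlinarith
  · refine (hC a ha c d hc hd lam hlam hroot s hs).trans ?_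
    apply ENNReal.ofReal_le_ofReal
    have h1 : s ^ (-q) ≤ s ^ (-q') := Real.rpow_le_rpow_of_exponent_le hs1 (by linarith)
    have h2 : 0 < s ^ (-q') := by positivity
    nlinarith

lemma good_one {q : ℝ} (hq : 0 < q) : Good 1 q := by
  intro M
  refine ⟨(|M| + 1) ^ q, by positivity, ?_⟩
  intro a ha c d hc hd lam hlam hroot s hs
  have hsub : Ioo c d ⊆ Ioo 0 1 := Ioo_subset_Ioo hc hd
  rcases lt_or_ge s (|M| + 1) with h | h
  · refine (volume_Ioo01_le _ (fun t ht => hsub ht.1)).trans ?_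
    rw [← ENNReal.ofReal_one]
    apply ENNReal.ofReal_le_ofReal
    rw [Real.rpow_neg hs.le, ← div_eq_mul_inv, ← Real.div_rpow (by positivity) hs.le]
    apply Real.one_le_rpow _ hq.le
    rw [le_div_iff₀ hs]
    linarith
  · have hemp : {t | t ∈ Ioo c d ∧ s < ‖deriv lam t‖} = ∅ := by
      rw [eq_empty_iff_forall_notMem]
      rintro t ⟨ht, hts⟩
      have hM := ha.nonneg
      have hlip : LipschitzOnWith ⟨M, hM⟩ lam (Ioo c d) := by
        apply LipschitzOnWith.of_dist_le_mul
        intro x hx y hy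
        rw [dist_eq_norm, Real.dist_eq]
        have h1 := hroot x hx
        have h2 := hroot y hy
        rw [mk_eval] at h1 h2
        simp only [Fin.sum_univ_one, Fin.val_zero, pow_zero, mul_one, pow_one] at h1 h2
        have h3 : lam x - lam y = -((a x - a y) 0) := by
          rw [Pi.sub_apply]
          linear_combination h1 - h2
        rw [h3, norm_neg]
        exact (norm_le_pi_norm _ _).trans (ha.lip x (Ioo_subset_Icc_self (hsub hx)) y
          (Ioo_subset_Icc_self (hsub hy)))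
      have h1 := norm_deriv_le_of_lipschitzOn (isOpen_Ioo.mem_nhds ht) hlip
      have h2 : ‖deriv lam t‖ ≤ M := h1
      linarith [le_abs_self M]
    rw [hemp]
    simp

/-- The weak type property holds with the optimal exponent. -/
theorem good_main : ∀ n : ℕ, 1 ≤ n → ∀ q : ℝ, 0 < q → ((n:ℝ) - 1) * q ≤ n → Good n q := by
  intro n
  induction n using Nat.strong_induction_on with
  | _ n ih =>
    intro hn q hq hnq
    rcases Nat.lt_or_ge n 2 with h2 | h2
    · have : n = 1 := by omega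
      subst this
      exact good_one hq
    · have hn' : (2:ℝ) ≤ n := by exact_mod_cast h2
      have hstep : Good n ((n:ℝ) / (n - 1)) := by
        apply step h2 (q := (n:ℝ) / (n - 1) + 1 / (n * (n - 1)))
        · have : (0:ℝ) < 1 / (n * (n - 1)) := by
            apply div_pos one_pos
            nlinarith
          linarith
        · intro m hm1 hmn
          have hn1 : (0:ℝ) < (n:ℝ) - 1 := by linarith
          apply ih m hmn hm1
          · positivity
          · have h3 : (m:ℝ) + 1 ≤ n := by exact_mod_cast hmn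
            have h4 : (1:ℝ) ≤ m := by exact_mod_cast hm1
            have h5 : (n:ℝ) / (n - 1) + 1 / (n * (n - 1)) = (n ^ 2 + 1) / (n * (n - 1)) := by
              field_simp
            rw [h5, ← mul_div_assoc, div_le_iff₀ (by positivity)]
            nlinarith
      apply hstep.exponent_mono hq
      rw [le_div_iff₀ (by linarith)]
      linarith

end Pool.Agent.H47R3.WT
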