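import Pool.Agent.H47R3.WT.Local2

/-!
Reduction to polynomials with vanishing second coefficient.
-/

set_option autoImplicit false

namespace Pool.Agent.H47R3.WT

open Set MeasureTheory Polynomial

/-- The Tschirnhausen shift. -/
noncomputable def tsch {n : ℕ} (hn : 0 < n) (b : Fin n → ℂ) : Fin n → ℂ := fun i =>
  (-(b ⟨n - 1, by omega⟩ / n)) ^ (n - (i:ℕ)) * (n.choose i) +
    ∑ j : Fin n, b j * ((-(b ⟨n - 1, by omega⟩ / n)) ^ ((j:ℕ) - (i:ℕ)) * ((j:ℕ).choose i))

lemma cXC (h : ℂ) (n i : ℕ) : ((X - Polynomial.C h) ^ n).coeff i =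
    (-h) ^ (n - i) * (n.choose i) := by
  rw [sub_eq_add_neg, ← Polynomial.C_neg, coeff_X_add_C_pow]

lemma mk_tsch {n : ℕ} (hn : 0 < n) (b : Fin n → ℂ) :
    mk (tsch hn b) = (mk b).comp (X - C (b ⟨n - 1, by omega⟩ / n)) := by
  set h : ℂ := b ⟨n - 1, by omega⟩ / n with hh
  have h1 : tsch hn b = fun i : Fin n => ((mk b).comp (X - C h)).coeff i := by
    funext i
    unfold mk tsch
    rw [add_comp, pow_comp, X_comp, Polynomial.sum_comp, coeff_add, finsetSum_coeff,
      cXC]
    congr 1
    apply Finset.sum_congr rfl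
    intro j _
    rw [mul_comp, C_comp, pow_comp, X_comp, coeff_C_mul, cXC]
  rw [h1]
  apply mk_of_monic
  · exact (mk_monic b).comp_X_sub_C h
  · rw [natDegree_comp, mk_natDegree, natDegree_X_sub_C, mul_one]

lemma tsch_last {n : ℕ} (hn : 0 < n) (b : Fin n → ℂ) (i : Fin n) (hi : (i:ℕ) + 1 = n) :
    tsch hn b i = 0 := by
  have e : (⟨n - 1, by omega⟩ : Fin n) = i := Fin.ext (by simp only; omega)
  unfold tsch
  rw [e]
  have e1 : n - (i:ℕ) = 1 := by omega
  rw [Finset.sum_eq_single i]
  · have e2 : n.choose i = n := by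
      have h := Nat.choose_succ_self_right (i:ℕ)
      rwa [hi] at h
    have hn0 : (n:ℂ) ≠ 0 := by exact_mod_cast hn.ne'
    rw [e1, pow_one, Nat.sub_self, pow_zero, Nat.choose_self, e2]
    field_simp
    simp
  · intro j _ hj
    have h1 : (j:ℕ) ≠ i := fun h => hj (Fin.ext h)
    have h2 : (j:ℕ) < i := by have := j.2; omega
    rw [Nat.choose_eq_zero_of_lt h2]
    simp
  · simp

lemma tsch_contDiff {n : ℕ} (hn : 0 < n) {N : WithTop ℕ∞} : ContDiff ℝ N (tsch hn) := by
  rw [contDiff_pi]
  intro i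
  unfold tsch
  have h0 : ∀ j : Fin n, ContDiff ℝ N (fun b : Fin n → ℂ => b j) := fun j => contDiff_apply ℝ ℂ j
  have h1 : ContDiff ℝ N (fun b : Fin n → ℂ => -(b ⟨n - 1, by omega⟩ / n)) :=
    ((h0 _).div_const _).neg
  apply ContDiff.add
  · exact (h1.pow _).mul contDiff_const
  · apply ContDiff.sum
    intro j _
    exact (h0 j).mul ((h1.pow _).mul contDiff_const)

/-- It suffices to treat polynomials whose second coefficient vanishes. -/
theorem good_of_last {n : ℕ} (hn : 2 ≤ n) {q : ℝ} (hq : 0 < q)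
    (H : ∀ M : ℝ, ∃ C : ℝ, 0 ≤ C ∧ ∀ a : ℝ → Fin n → ℂ, CL (n - 1) M a →
      (∀ i : Fin n, (i:ℕ) + 1 = n → ∀ x ∈ U, a x i = 0) →
      ∀ c d : ℝ, 0 ≤ c → d ≤ 1 → ∀ lam : ℝ → ℂ, ContinuousOn lam (Ioo c d) →
      (∀ t ∈ Ioo c d, (mk (a t)).eval (lam t) = 0) → ∀ s : ℝ, 0 < s →
        volume {t | t ∈ Ioo c d ∧ s < ‖deriv lam t‖} ≤ ENNReal.ofReal (C * s ^ (-q))) :
    Good n q := by
  intro M
  have hn0 : 0 < n := by omega
  obtain ⟨M', hM'⟩ := CL.comp_contDiff (n - 1) (ψ := tsch hn0) (u := univ)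
    (K := Metric.closedBall (0 : Fin n → ℂ) M) isOpen_univ (isCompact_closedBall _ _)
    (convex_closedBall _ _) (subset_univ _) (tsch_contDiff hn0).contDiffOn M
  obtain ⟨C, hC0, hC⟩ := H M'
  refine ⟨C * 2 ^ q + (2 * |M| + 1) ^ q, by positivity, ?_⟩
  intro a ha c d hc hd lam hlam hroot s hs
  have hsub : Ioo c d ⊆ Ioo 0 1 := Ioo_subset_Ioo hc hd
  rcases lt_or_ge s (2 * |M| + 1) with hsM | hsM
  · refine (volume_Ioo01_le _ (fun t ht => hsub ht.1)).trans ?_
    rw [← ENNReal.ofReal_one]
    apply ENNReal.ofReal_le_ofReal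
    have h1 : (1:ℝ) ≤ (2 * |M| + 1) ^ q * s ^ (-q) := by
      rw [Real.rpow_neg hs.le, ← div_eq_mul_inv, ← Real.div_rpow (by positivity) hs.le]
      apply Real.one_le_rpow _ hq.le
      rw [le_div_iff₀ hs]
      linarith
    have h2 : 0 ≤ C * 2 ^ q * s ^ (-q) := by positivity
    linarith
  · have hCLt := hM' a ha (fun t ht => by
      rw [mem_closedBall_zero_iff]
      exact ha.bound t ht)
    obtain ⟨j, hj⟩ : ∃ j, n - 1 = j + 1 := ⟨n - 2, by omega⟩
    rw [hj] at ha
    obtain ⟨hb, a', hd', hCL'⟩ := ha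
    set last : Fin n := ⟨n - 1, by omega⟩ with hlast
    have hlc : ContinuousOn (fun t => lam t + a t last / n) (Ioo c d) := by
      apply hlam.add
      apply ContinuousOn.div_const
      intro x hx
      have hxU := Ioo_subset_Icc_self (hsub hx)
      have h1 : HasDerivWithinAt (fun t => a t last) (a' x last) U x :=
        (hasDerivWithinAt_pi.1 (hd' x hxU)) last
      exact h1.continuousWithinAt.mono (hsub.trans Ioo_subset_Icc_self)
    have hmain := hC (fun t => tsch hn0 (a t)) hCLt
      (fun i hi x _ => tsch_last hn0 (a x) i hi) c d hc hd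
      (fun t => lam t + a t last / n) hlc ?_ (s / 2) (by positivity)
    · have h1 : (s / 2) ^ (-q) = 2 ^ q * s ^ (-q) := by
        rw [Real.rpow_neg (by positivity), Real.rpow_neg hs.le, Real.div_rpow hs.le (by norm_num)]
        field_simp
      refine le_trans (measure_mono ?_) (hmain.trans ?_)
      · rintro t ⟨ht, hts⟩
        refine ⟨ht, ?_⟩
        have hdiff : DifferentiableAt ℝ lam t := by
          by_contra hcon
          rw [deriv_zero_of_not_differentiableAt hcon, norm_zero] at hts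
          linarith
        have ht01 := hsub ht
        have hU : U ∈ nhds t := Icc_mem_nhds ht01.1 ht01.2
        have h2 : HasDerivAt (fun t => a t last) (a' t last) t :=
          ((hasDerivWithinAt_pi.1 (hd' t (Ioo_subset_Icc_self ht01))) last).hasDerivAt hU
        have h3 : HasDerivAt (fun t => lam t + a t last / n) (deriv lam t + a' t last / n) t :=
          hdiff.hasDerivAt.add (h2.div_const _)
        rw [h3.deriv]
        have h4 : ‖a' t last / (n:ℂ)‖ ≤ |M| := by
          rw [norm_div, Complex.norm_natCast]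
          have h5 : ‖a' t last‖ ≤ M :=
            (norm_le_pi_norm _ last).trans (hCL'.bound t (Ioo_subset_Icc_self ht01))
          have h6 : (1:ℝ) ≤ n := by exact_mod_cast hn0
          rw [div_le_iff₀ (by linarith)]
          have h7 := le_abs_self M
          nlinarith [abs_nonneg M]
        have h5 : ‖deriv lam t‖ ≤ ‖deriv lam t + a' t last / n‖ + ‖a' t last / (n:ℂ)‖ := by
          have := norm_sub_le (deriv lam t + a' t last / n) (a' t last / (n:ℂ))
          simpa using this
        linarith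
      · apply ENNReal.ofReal_le_ofReal
        rw [h1]
        have h2 : 0 ≤ (2 * |M| + 1) ^ q * s ^ (-q) := by positivity
        linarith
    · intro t ht
      show (mk (tsch hn0 (a t))).eval (lam t + a t last / n) = 0
      rw [mk_tsch, eval_comp]
      have h1 := hroot t ht
      have h2 : (X - Polynomial.C (a t ⟨n - 1, by omega⟩ / (n:ℂ))).eval (lam t + a t last / n) =
          lam t := by
        rw [eval_sub, eval_X, eval_C]
        simp [hlast]
      rw [h2]
      exact h1

end Pool.Agent.H47R3.WT
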